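import Mathlib
import Pool.Agent.H586R3.CT2

/-!
# The support of measures with algebraic Cauchy transform: definitions and statements of the parts

* `IsArc S`: `S` is a compact analytic arc;
* `rt N z`: the principal value of the `N`-th root;
* `Sec δ r`: the open sector of angle `2 δ` and radius `r` about the positive real axis;
* `Data`: near `0`, in a sector, `z C_μ(z)` is almost everywhere one of finitely many functions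
  `p_i (z^(1/N))`, `p_i` meromorphic at `0`;
* `LocalThm`: the local theorem in a sector; `MainThm`: the final theorem.
-/

set_option autoImplicit false

open MeasureTheory Polynomial Metric Set Filter Topology Complex
open Pool.Agent.H586R3.CT (CT)

namespace Pool.Agent.J6H15.AC

/-- A compact analytic arc: the image of `[0, 1]` under an injective real-analytic map from an open
interval containing `[0, 1]` into `ℂ`. -/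
def IsArc (S : Set ℂ) : Prop :=
  ∃ (a b : ℝ) (γ : ℝ → ℂ), a < 0 ∧ 1 < b ∧ AnalyticOnNhd ℝ γ (Ioo a b) ∧ InjOn γ (Ioo a b) ∧
    S = γ '' Icc 0 1

/-- the principal `N`-th root -/
noncomputable def rt (N : ℕ) (z : ℂ) : ℂ := Complex.exp (Complex.log z / N)

/-- the open sector of opening `2 δ` and radius `r` about the positive real axis -/
def Sec (δ r : ℝ) : Set ℂ := {z | 0 < ‖z‖ ∧ ‖z‖ < r ∧ |Complex.arg z| < δ}

/-- local data in a sector at `0` -/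
structure Data (ι : Type) (μ : Measure ℂ) (N : ℕ) (p : ι → ℂ → ℂ) (δ r : ℝ) : Prop where
  N_pos : 0 < N
  zero : μ {0} = 0
  mero : ∀ i, MeromorphicAt (p i) 0
  ne : ∀ i j, i ≠ j → ∀ᶠ ζ in 𝓝[≠] (0 : ℂ), p i ζ ≠ p j ζ
  δ_pos : 0 < δ
  r_pos : 0 < r
  val : ∀ᵐ z : ℂ, z ∈ Sec δ r → ∃ i, z * CT μ z = p i (rt N z)

/-- the local theorem -/
def LocalThm : Prop :=
  ∀ (ι : Type) [Finite ι] (μ : Measure ℂ) [IsFiniteMeasure μ] (N : ℕ) (p : ι → ℂ → ℂ) (δ r : ℝ),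
    Data ι μ N p δ r →
    ∃ δ' > 0, ∃ r' > 0, ∃ 𝒜 : Set (Set ℂ), 𝒜.Finite ∧
      (∀ S ∈ 𝒜, IsArc S ∧ (0 : ℂ) ∈ S ∧ S ⊆ μ.support) ∧ μ.support ∩ Sec δ' r' ⊆ ⋃₀ 𝒜

/-- the final theorem -/
def MainThm : Prop :=
  ∀ (μ : Measure ℂ) [IsFiniteMeasure μ], IsCompact μ.support → ∀ P : ℂ[X][X], P ≠ 0 →
    (∀ᵐ z : ℂ, P.evalEval z (∫ ζ, (z - ζ)⁻¹ ∂μ) = 0) →
    ∃ (𝒜 : Set (Set ℂ)) (F : Set ℂ), 𝒜.Finite ∧ F.Finite ∧ (∀ S ∈ 𝒜, IsArc S) ∧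
      μ.support = ⋃₀ 𝒜 ∪ F ∧ ∀ z ∈ F, ∃ r > 0, μ.support ∩ ball z r = {z}

/-! ### Statements of the parts

(P1a) half-branch lemma -/
def P1a : Prop :=
  ∀ (Z : ℂ → ℂ), AnalyticAt ℂ Z 0 → Z 0 = 0 → deriv Z 0 ≠ 0 → ∀ N : ℕ, 0 < N →
    ∃ t₀ > 0, ∀ t : ℝ, 0 < t → t < t₀ → IsArc ((fun s : ℝ => Z s ^ N) '' Icc 0 t)

/-- (P1b) the zero set of the real part of a holomorphic function -/
def P1b : Prop :=
  ∀ (G : ℂ → ℂ), AnalyticAt ℂ G 0 → G 0 = 0 → (¬ ∀ᶠ z in 𝓝 (0 : ℂ), G z = 0) →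
    ∃ (m : ℕ) (Z : Fin m → ℂ → ℂ),
      (∀ k, AnalyticAt ℂ (Z k) 0 ∧ Z k 0 = 0 ∧ deriv (Z k) 0 ≠ 0 ∧
        ∀ᶠ t : ℝ in 𝓝 0, (G (Z k t)).re = 0) ∧
      ∀ t₀ > 0, ∃ r > 0, ∀ ζ : ℂ, 0 < ‖ζ‖ → ‖ζ‖ < r → (G ζ).re = 0 →
        ∃ (k : Fin m) (t : ℝ), 0 < t ∧ t < t₀ ∧ ζ = Z k t

/-- (P2) on almost all rays `z C_μ(z)` is not bounded below near `0` -/
def P2 : Prop :=
  ∀ (μ : Measure ℂ) [IsFiniteMeasure μ], μ {0} = 0 →
    ∀ᵐ θ : ℝ, θ ∈ Ioo (-Real.pi) Real.pi → ∀ c > 0, ∀ r > 0,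
      ¬ ∀ᵐ s : ℝ, s ∈ Ioo 0 r →
        c ≤ ‖((s : ℂ) * Complex.exp (θ * I)) * CT μ ((s : ℂ) * Complex.exp (θ * I))‖

/-- (P3) assembly -/
def P3 : Prop := LocalThm → MainThm

end Pool.Agent.J6H15.AC
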