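import Mathlib
import Pool.Agent.J6H15.AC.Defs

/-!
# The weak monotonicity of the extreme index set
-/

set_option autoImplicit false

open MeasureTheory Metric Set Filter Topology Complex
open Pool.Agent.H586R3.CT (CT mo mm ep ψR ψC ep_pos tendsto_ep ψR_nonneg ψR_contDiff ψR_continuous
  integral_ψR integrable_ψR integral_ψR_sub ψR_zero_of_lt ψR_tsupport ψR_hcs mo_contDiff
  dbar_mo_CT mm_nonneg ae_tendsto_mo locallyIntegrable_CT mo_eq_smul)
open Pool.Agent.Split938 (dbar dbar_mul dbar_of_hasDerivAt)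

namespace Pool.Agent.J6H15.AC

/-- averages stay in half planes -/
lemma mo_half (n : ℕ) {g : ℂ → ℂ} (hg : LocallyIntegrable g volume) (c : ℂ) (C : ℝ) (z : ℂ)
    (h : ∀ᵐ w : ℂ, w ∈ closedBall z (ep n) → (c * g w).re ≤ C) : (c * mo n g z).re ≤ C := by
  unfold mo
  have hi : Integrable (fun w => g w * ψC n (z - w)) := by
    have h1 := (Pool.Agent.H586R3.CT.ψC_hcs n).convolutionExists_right
      (ContinuousLinearMap.mul ℝ ℂ) hg (Pool.Agent.H586R3.CT.ψC_contDiff n).continuous z
    exact h1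
  rw [← integral_const_mul]
  have h2 : (∫ w, c * (g w * ψC n (z - w))).re = ∫ w, (c * (g w * ψC n (z - w))).re :=
    (integral_re (hi.const_mul c)).symm
  rw [h2]
  have h3 : ∀ᵐ w : ℂ, (c * (g w * ψC n (z - w))).re ≤ C * ψR n (z - w) := by
    filter_upwards [h] with w hw
    have e1 : c * (g w * ψC n (z - w)) = ((ψR n (z - w) : ℝ) : ℂ) * (c * g w) := by
      rw [ψC]; ring
    rw [e1, Complex.re_ofReal_mul]
    by_cases hzw : w ∈ closedBall z (ep n)
    · rw [mul_comm C]
      exact mul_le_mul_of_nonneg_left (hw hzw) (ψR_nonneg _ _)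
    · have : ψR n (z - w) = 0 := by
        apply ψR_zero_of_lt
        rw [mem_closedBall, not_le, dist_comm, dist_eq_norm] at hzw
        exact hzw
      rw [this, zero_mul, mul_zero]
  calc ∫ w, (c * (g w * ψC n (z - w))).re ≤ ∫ w, C * ψR n (z - w) := by
        apply integral_mono_ae (hi.const_mul c).re
          (((integrable_ψR n).comp_sub_left z).const_mul C) h3
    _ = C := by rw [integral_const_mul, integral_ψR_sub, mul_one]

lemma dbar_comp {q G : ℂ → ℂ} {z q' : ℂ} (hq : HasDerivAt q q' (G z))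
    (hG : DifferentiableAt ℝ G z) : dbar (fun w => q (G w)) z = q' * dbar G z := by
  have h1 : HasFDerivAt q ((ContinuousLinearMap.smulRight (1 : ℂ →L[ℂ] ℂ) q').restrictScalars ℝ)
      (G z) := (hq.hasFDerivAt).restrictScalars ℝ
  have h2 := h1.comp z hG.hasFDerivAt
  have h3 : fderiv ℝ (fun w => q (G w)) z =
      ((ContinuousLinearMap.smulRight (1 : ℂ →L[ℂ] ℂ) q').restrictScalars ℝ).comp (fderiv ℝ G z) :=
    h2.fderiv
  unfold dbar
  rw [h3]
  simp
  ring

/-- the function `(1 + x / b) ^ (-a)` -/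
noncomputable def qf (a b : ℝ) (x : ℂ) : ℂ := Complex.exp (-(a : ℂ) * Complex.log (1 + x / b))

lemma qf_norm {a b : ℝ} {x : ℂ} :
    ‖qf a b x‖ = Real.exp (-a * Real.log ‖1 + x / b‖) := by
  unfold qf
  rw [Complex.norm_exp]
  congr 1
  simp [Complex.log_re]

lemma qf_deriv {a b : ℝ} (hb : b ≠ 0) {x : ℂ} (h : 0 < (1 + x / b).re) :
    HasDerivAt (qf a b) (-((a / b : ℝ) : ℂ) * Complex.exp (-((1 + a : ℝ) : ℂ) *
      Complex.log (1 + x / b))) x := by
  have hbC : (b : ℂ) ≠ 0 := by exact_mod_cast hb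
  have h0 : 1 + x / b ≠ 0 := by
    intro h1
    rw [h1] at h
    simp at h
  have h1 : HasDerivAt (fun x : ℂ => 1 + x / b) (1 / b) x := by
    have := ((hasDerivAt_id x).div_const (b : ℂ)).const_add 1
    simpa using this
  have h2 : HasDerivAt (fun x : ℂ => Complex.log (1 + x / b)) ((1 / b) / (1 + x / b)) x :=
    h1.clog (Or.inl h)
  have h3 := (h2.const_mul (-(a : ℂ))).cexp
  refine h3.congr_deriv ?_
  have e1 : Complex.exp (-((1 + a : ℝ) : ℂ) * Complex.log (1 + x / b)) =
      Complex.exp (-(a : ℂ) * Complex.log (1 + x / b)) * (1 + x / b)⁻¹ := by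
    have : -((1 + a : ℝ) : ℂ) * Complex.log (1 + x / b) =
        -(a : ℂ) * Complex.log (1 + x / b) + -(Complex.log (1 + x / b)) := by
      push_cast; ring
    rw [this, Complex.exp_add, Complex.exp_neg, Complex.exp_log h0]
  rw [e1]
  push_cast
  field_simp

/-- the choice of the exponent -/
lemma exists_exponent (L : ℝ) : ∃ a : ℝ, 0 < a ∧ ∀ u : ℂ, 0 < u.re → |u.im| ≤ L * u.re →
    0 ≤ (Complex.exp (-((1 + a : ℝ) : ℂ) * Complex.log u)).re := by
  have hpi := Real.pi_pos
  set L' := max L 1 with hL'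
  have hat : 0 < Real.arctan L' := by
    rw [Real.arctan_pos]
    exact lt_of_lt_of_le one_pos (le_max_right _ _)
  have hat2 : Real.arctan L' < Real.pi / 2 := Real.arctan_lt_pi_div_two _
  refine ⟨(Real.pi / 2) / Real.arctan L' - 1, ?_, ?_⟩
  · rw [sub_pos, lt_div_iff₀ hat]; linarith
  · intro u hu him
    have h1 : |Complex.arg u| ≤ Real.arctan L' := by
      have h2 : |Complex.arg u| < Real.pi / 2 :=
        Complex.abs_arg_lt_pi_div_two_iff.2 (Or.inl hu)
      rw [abs_lt] at h2
      have h3 : Complex.arg u = Real.arctan (u.im / u.re) := by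
        rw [← Complex.tan_arg, Real.arctan_tan h2.1 h2.2]
      rw [h3, abs_le]
      have h4 : |u.im / u.re| ≤ L' := by
        rw [abs_div, abs_of_pos hu, div_le_iff₀ hu]
        exact him.trans (mul_le_mul_of_nonneg_right (le_max_left _ _) hu.le)
      rw [abs_le] at h4
      constructor
      · rw [← Real.arctan_neg]
        exact Real.arctan_strictMono.monotone h4.1
      · exact Real.arctan_strictMono.monotone h4.2
    rw [Complex.exp_re]
    apply mul_nonneg (Real.exp_pos _).le
    apply Real.cos_nonneg_of_mem_Icc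
    have e1 : (-((1 + ((Real.pi / 2) / Real.arctan L' - 1) : ℝ) : ℂ) * Complex.log u).im =
        -((Real.pi / 2) / Real.arctan L') * Complex.arg u := by
      rw [show (-((1 + ((Real.pi / 2) / Real.arctan L' - 1) : ℝ) : ℂ)) =
        ((-((Real.pi / 2) / Real.arctan L') : ℝ) : ℂ) by push_cast; ring]
      rw [Complex.im_ofReal_mul, Complex.log_im]
    rw [e1]
    have h5 : |-((Real.pi / 2) / Real.arctan L') * Complex.arg u| ≤ Real.pi / 2 := by
      rw [abs_mul, abs_neg, abs_of_pos (by positivity)]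
      calc Real.pi / 2 / Real.arctan L' * |Complex.arg u|
          ≤ Real.pi / 2 / Real.arctan L' * Real.arctan L' :=
            mul_le_mul_of_nonneg_left h1 (by positivity)
        _ = Real.pi / 2 := by field_simp
    rw [abs_le] at h5
    exact ⟨by linarith [h5.1], h5.2⟩

end Pool.Agent.J6H15.AC
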