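import Mathlib
import Pool.Agent.J6H15.AC.Cone1
import Pool.Agent.H586R3.CT3

/-!
# The weak monotonicity of the extreme index set, II
-/

set_option autoImplicit false

open MeasureTheory Metric Set Filter Topology Complex
open Pool.Agent.H586R3.CT (CT mo mm ep ψR ψC ep_pos tendsto_ep ψR_nonneg ψR_contDiff ψR_continuous
  integral_ψR integrable_ψR integral_ψR_sub ψR_zero_of_lt ψR_tsupport ψR_hcs mo_contDiff
  dbar_mo_CT mm_nonneg ae_tendsto_mo locallyIntegrable_CT mo_eq_smul integral_dbar_parts
  continuous_mul_of_tsupport)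
open Pool.Agent.Split938 (dbar dbar_mul dbar_of_hasDerivAt dbar_continuous dbar_hcs)

namespace Pool.Agent.J6H15.AC

/-- the real part of `conj v * dbar ψ` for real `ψ` -/
lemma re_conj_dbar {ψ : ℂ → ℝ} {z : ℂ} (hψ : DifferentiableAt ℝ ψ z) (v : ℂ) :
    ((starRingEnd ℂ) v * dbar (fun w => (ψ w : ℂ)) z).re = fderiv ℝ ψ z v / 2 := by
  have h1 : ∀ u : ℂ, fderiv ℝ (fun w => (ψ w : ℂ)) z u = ((fderiv ℝ ψ z u : ℝ) : ℂ) := by
    intro u
    have h2 : HasFDerivAt (fun w => (ψ w : ℂ)) (Complex.ofRealCLM.comp (fderiv ℝ ψ z)) z :=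
      (Complex.ofRealCLM.hasFDerivAt).comp z hψ.hasFDerivAt
    rw [h2.fderiv]
    rfl
  unfold dbar
  rw [h1, h1]
  have h3 : fderiv ℝ ψ z v = v.re * fderiv ℝ ψ z 1 + v.im * fderiv ℝ ψ z I := by
    conv_lhs => rw [show v = (v.re : ℝ) • (1 : ℂ) + (v.im : ℝ) • I by
      rw [Complex.real_smul, Complex.real_smul, mul_one, Complex.re_add_im]]
    rw [map_add, map_smul, map_smul, smul_eq_mul, smul_eq_mul]
  rw [h3]
  simp [Complex.mul_re, Complex.add_re]
  ring

/-- one step of the regularisation: the inequality for the function `qf a b` -/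
lemma weak_mono_aux (μ : Measure ℂ) [IsFiniteMeasure μ] {D : Set ℂ} (hD : IsOpen D) {ι : Type}
    (f : ι → ℂ → ℂ) (J : Set ι) (i₀ : ι) (hf : DifferentiableOn ℂ (f i₀) D)
    (v : ℂ) {M δ : ℝ} (hδ : 0 < δ) (hM : 0 ≤ M)
    (hpos : ∀ z ∈ D, ∀ j ∈ J, j ≠ i₀ → δ ≤ (v * (f i₀ z - f j z)).re)
    (hbd : ∀ z ∈ D, ∀ j ∈ J, ‖v * (f i₀ z - f j z)‖ ≤ M)
    (hval : ∀ᵐ z : ℂ, z ∈ D → ∃ i ∈ J, CT μ z = f i z)
    {ψ : ℂ → ℝ} (hψ : ContDiff ℝ 1 ψ) (hψ0 : ∀ z, 0 ≤ ψ z) (hc : HasCompactSupport ψ)
    (hs : tsupport ψ ⊆ D) :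
    ∃ a : ℝ, 0 < a ∧ ∀ b : ℝ, 0 < b →
      ((starRingEnd ℂ) v * ∫ z, dbar (fun w => (ψ w : ℂ)) z *
        qf a b (v * (f i₀ z - CT μ z))).re ≤ 0 := by
  set L : ℝ := M / δ with hL
  have hL0 : 0 ≤ L := by positivity
  obtain ⟨a, ha, hexp⟩ := exists_exponent (max L 1)
  refine ⟨a, ha, fun b hb => ?_⟩
  set ψc : ℂ → ℂ := fun w => (ψ w : ℂ) with hψc
  have hψcd : ContDiff ℝ 1 ψc := Complex.ofRealCLM.contDiff.comp hψ
  have hts : tsupport ψc ⊆ tsupport ψ := by
    apply closure_mono
    intro z hz
    rw [Function.mem_support] at hz ⊢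
    intro h
    apply hz
    show ((ψ z : ℝ) : ℂ) = 0
    rw [h]; simp
  have hcc : HasCompactSupport ψc := IsCompact.of_isClosed_subset hc (isClosed_tsupport _) hts
  -- neighbourhoods of the support
  obtain ⟨ρ, hρ, hρD⟩ := (hc : IsCompact (tsupport ψ)).exists_cthickening_subset_open hD hs
  have hK : IsCompact (cthickening ρ (tsupport ψ)) := (hc : IsCompact (tsupport ψ)).cthickening
  set D' := thickening (ρ / 2) (tsupport ψ) with hD'
  have hD'o : IsOpen D' := isOpen_thickening
  have hsD' : tsupport ψc ⊆ D' := hts.trans (self_subset_thickening (by positivity) _)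
  have hclose : ∀ z ∈ D', ∀ w, dist w z ≤ ρ / 2 → w ∈ cthickening ρ (tsupport ψ) := by
    intro z hz w hw
    rw [hD', mem_thickening_iff] at hz
    obtain ⟨y, hy, hyz⟩ := hz
    apply mem_cthickening_of_dist_le w y ρ _ hy
    linarith [dist_triangle w z y]
  have hD'D : D' ⊆ D := fun z hz => hρD (hclose z hz z (by simp; positivity))
  -- uniform continuity
  have huc : UniformContinuousOn (f i₀) (cthickening ρ (tsupport ψ)) :=
    hK.uniformContinuousOn_of_continuous (hf.continuousOn.mono hρD)
  set η : ℝ := b / (2 * (‖v‖ + 1) * (1 + L)) with hη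
  have hη0 : 0 < η := by positivity
  rw [Metric.uniformContinuousOn_iff] at huc
  obtain ⟨τ, hτ, huc⟩ := huc η hη0
  have hvη : ‖v‖ * η * (1 + L) ≤ b / 2 := by
    rw [hη]
    have h1 : ‖v‖ / (‖v‖ + 1) ≤ 1 := by
      rw [div_le_one (by positivity)]; linarith
    have h2 : ‖v‖ * (b / (2 * (‖v‖ + 1) * (1 + L))) * (1 + L) = b / 2 * (‖v‖ / (‖v‖ + 1)) := by
      field_simp
    rw [h2]
    exact mul_le_of_le_one_right (by positivity) h1
  have hvη' : ‖v‖ * η ≤ b / 2 := by
    have : ‖v‖ * η * 1 ≤ ‖v‖ * η * (1 + L) :=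
      mul_le_mul_of_nonneg_left (by linarith) (by positivity)
    linarith
  have hli : LocallyIntegrable (CT μ) volume := locallyIntegrable_CT μ
  -- mollified functions
  set X : ℕ → ℂ → ℂ := fun m z => v * (f i₀ z - mo m (CT μ) z) with hX
  have hsmall : ∀ᶠ m in atTop, ep m < min τ (ρ / 2) :=
    tendsto_ep.eventually_lt_const (lt_min hτ (by positivity))
  -- linear conditions
  have hlin : ∀ m, ep m < min τ (ρ / 2) → ∀ z ∈ D', ∀ c : ℂ,
      (∀ x : ℂ, 0 ≤ x.re → |x.im| ≤ L * x.re → (c * x).re ≤ 0) →
      (c * X m z).re ≤ ‖c‖ * (‖v‖ * η) := by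
    intro m hm z hz c hcx
    have h1 : (-(c * v) * mo m (CT μ) z).re ≤ ‖c‖ * (‖v‖ * η) - (c * v * f i₀ z).re := by
      apply mo_half m hli
      filter_upwards [hval] with w hw hwz
      have hwz' : dist w z ≤ ep m := hwz
      have hwK : w ∈ cthickening ρ (tsupport ψ) :=
        hclose z hz w (hwz'.trans (hm.le.trans (min_le_right _ _)))
      have hwD : w ∈ D := hρD hwK
      obtain ⟨j, hj, hwj⟩ := hw hwD
      have h2 : ‖f i₀ z - f i₀ w‖ ≤ η := by
        rw [← dist_eq_norm]
        exact (huc z (hclose z hz z (by simp; positivity)) w hwK (by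
          rw [dist_comm]
          exact hwz'.trans_lt (hm.trans_le (min_le_left _ _)))).le
      have h3 : (c * (v * (f i₀ w - f j w))).re ≤ 0 := by
        apply hcx
        · by_cases hji : j = i₀
          · rw [hji]; simp
          · exact hδ.le.trans (hpos w hwD j hj hji)
        · by_cases hji : j = i₀
          · rw [hji]; simp
          · have h4 := hpos w hwD j hj hji
            calc |(v * (f i₀ w - f j w)).im| ≤ ‖v * (f i₀ w - f j w)‖ := Complex.abs_im_le_norm _
              _ ≤ M := hbd w hwD j hj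
              _ = L * δ := by rw [hL]; field_simp
              _ ≤ L * (v * (f i₀ w - f j w)).re := mul_le_mul_of_nonneg_left h4 hL0
      have h5 : (c * (v * (f i₀ z - f i₀ w))).re ≤ ‖c‖ * (‖v‖ * η) := by
        refine (Complex.re_le_norm _).trans ?_
        rw [norm_mul, norm_mul]
        exact mul_le_mul_of_nonneg_left (mul_le_mul_of_nonneg_left h2 (norm_nonneg _))
          (norm_nonneg _)
      rw [hwj]
      have e1 : (-(c * v) * f j w).re = (c * (v * (f i₀ z - f i₀ w))).re +
          (c * (v * (f i₀ w - f j w))).re - (c * v * f i₀ z).re := by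
        rw [← Complex.add_re, ← Complex.sub_re]
        congr 1; ring
      rw [e1]; linarith
    have e2 : (c * X m z).re = (c * v * f i₀ z).re + (-(c * v) * mo m (CT μ) z).re := by
      rw [← Complex.add_re]
      congr 1
      simp only [hX]; ring
    rw [e2]; linarith
  have hcone : ∀ m, ep m < min τ (ρ / 2) → ∀ z ∈ D', -(b / 2) ≤ (X m z).re ∧
      |(X m z).im| ≤ L * (X m z).re + b / 2 := by
    intro m hm z hz
    constructor
    · have := hlin m hm z hz (-1) (fun x hx _ => by simpa using hx)
      simp at this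
      linarith
    · rw [abs_le]
      constructor
      · have := hlin m hm z hz (I - (L : ℂ)) (fun x hx hx2 => by
          have := neg_le_of_abs_le hx2
          simp [sub_mul]
          linarith)
        have hn : ‖I - (L : ℂ)‖ ≤ 1 + L := by
          refine (norm_sub_le _ _).trans ?_
          rw [Complex.norm_I, Complex.norm_real, Real.norm_of_nonneg hL0]
        have h6 : ‖I - (L : ℂ)‖ * (‖v‖ * η) ≤ b / 2 := by
          calc ‖I - (L : ℂ)‖ * (‖v‖ * η) ≤ (1 + L) * (‖v‖ * η) :=
                mul_le_mul_of_nonneg_right hn (by positivity)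
            _ ≤ b / 2 := by linarith
        have h7 : ((I - (L : ℂ)) * X m z).re = -(X m z).im - L * (X m z).re := by
          simp [sub_mul]
        rw [h7] at this
        linarith
      · have := hlin m hm z hz (-I - (L : ℂ)) (fun x hx hx2 => by
          have := le_of_abs_le hx2
          simp [sub_mul]
          linarith)
        have hn : ‖-I - (L : ℂ)‖ ≤ 1 + L := by
          refine (norm_sub_le _ _).trans ?_
          rw [norm_neg, Complex.norm_I, Complex.norm_real, Real.norm_of_nonneg hL0]
        have h6 : ‖-I - (L : ℂ)‖ * (‖v‖ * η) ≤ b / 2 := by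
          calc ‖-I - (L : ℂ)‖ * (‖v‖ * η) ≤ (1 + L) * (‖v‖ * η) :=
                mul_le_mul_of_nonneg_right hn (by positivity)
            _ ≤ b / 2 := by linarith
        have h7 : ((-I - (L : ℂ)) * X m z).re = (X m z).im - L * (X m z).re := by
          simp [sub_mul]
        rw [h7] at this
        linarith
  have hu : ∀ m, ep m < min τ (ρ / 2) → ∀ z ∈ D', 1 / 2 ≤ (1 + X m z / b).re ∧
      |(1 + X m z / b).im| ≤ max L 1 * (1 + X m z / b).re := by
    intro m hm z hz
    obtain ⟨h1, h2⟩ := hcone m hm z hz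
    have e1 : (1 + X m z / b).re = 1 + (X m z).re / b := by
      rw [Complex.add_re, Complex.one_re, Complex.div_ofReal_re]
    have e2 : (1 + X m z / b).im = (X m z).im / b := by
      rw [Complex.add_im, Complex.one_im, Complex.div_ofReal_im, zero_add]
    rw [e1, e2]
    have h3 : -(1 / 2) ≤ (X m z).re / b := by
      rw [le_div_iff₀ hb]; linarith
    refine ⟨by linarith, ?_⟩
    rw [abs_div, abs_of_pos hb]
    have h4 : |(X m z).im| / b ≤ L * ((X m z).re / b) + 1 / 2 := by
      rw [div_le_iff₀ hb]
      have : (L * ((X m z).re / b) + 1 / 2) * b = L * (X m z).re + b / 2 := by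
        field_simp
      rw [this]; exact h2
    have h5 : 0 ≤ 1 + (X m z).re / b := by linarith
    rcases le_total L 1 with h6 | h6
    · rw [max_eq_right h6]
      rcases le_total 0 ((X m z).re / b) with h7 | h7
      · nlinarith
      · nlinarith
    · rw [max_eq_left h6]
      nlinarith
  have hXc' : ∀ m, ContDiffOn ℝ 1 (X m) D' := by
    intro m
    have h1 : ContDiffOn ℝ 1 (f i₀) D' := by
      have h2 : ContDiffOn ℂ 1 (f i₀) D :=
        (hf.contDiffOn hD)
      exact (h2.restrict_scalars ℝ).mono hD'D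
    exact contDiffOn_const.mul (h1.sub (mo_contDiff m hli).contDiffOn)
  have hGc' : ∀ m, ep m < min τ (ρ / 2) → ContDiffOn ℝ 1 (fun z => qf a b (X m z)) D' := by
    intro m hm
    have hXc := hXc' m
    have h1 : ContDiffOn ℝ 1 (fun z => 1 + X m z / b) D' :=
      contDiffOn_const.add (hXc.div_const _)
    have h2 : ContDiffOn ℝ 1 (fun z => Complex.log (1 + X m z / b)) D' := by
      intro z hz
      have h3 : ContDiffAt ℝ 1 Complex.log (1 + X m z / b) :=
        (Complex.contDiffAt_log (Or.inl (by linarith [(hu m hm z hz).1]))).restrict_scalars ℝ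
      exact h3.comp_contDiffWithinAt z (h1 z hz)
    unfold qf
    exact (contDiffOn_const.mul h2).cexp
  -- the inequality for fixed m
  have hm_ineq : ∀ᶠ m in atTop, ((starRingEnd ℂ) v * ∫ z, dbar ψc z * qf a b (X m z)).re ≤ 0 := by
    filter_upwards [hsmall] with m hm
    have hXc := hXc' m
    have hGc := hGc' m hm
    have hparts := integral_dbar_parts hD'o hψcd hcc hsD' hGc
    have h8 : ∫ z, dbar ψc z * qf a b (X m z) = - ∫ z, ψc z * dbar (fun z => qf a b (X m z)) z := by
      rw [hparts, neg_neg]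
    rw [h8, mul_neg, Complex.neg_re, neg_nonpos]
    have hint : Integrable (fun z => ψc z * dbar (fun z => qf a b (X m z)) z) := by
      have hcd : ContinuousOn (dbar (fun z => qf a b (X m z))) D' := by
        have hGv : ∀ w : ℂ, ContinuousOn (fun z => fderiv ℝ (fun z => qf a b (X m z)) z w) D' :=
          fun w => (hGc.continuousOn_fderiv_of_isOpen hD'o (by norm_num)).clm_apply
            continuousOn_const
        unfold dbar
        exact ((hGv 1).add (continuousOn_const.mul (hGv I))).div_const _
      exact (continuous_mul_of_tsupport hD'o hψcd.continuous hsD'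
        hcd).integrable_of_hasCompactSupport hcc.mul_right
    rw [← integral_const_mul]
    rw [show (∫ z, (starRingEnd ℂ) v * (ψc z * dbar (fun z => qf a b (X m z)) z)).re =
      ∫ z, ((starRingEnd ℂ) v * (ψc z * dbar (fun z => qf a b (X m z)) z)).re from
      (integral_re (hint.const_mul _)).symm]
    apply integral_nonneg
    intro z
    show 0 ≤ ((starRingEnd ℂ) v * (ψc z * dbar (fun z => qf a b (X m z)) z)).re
    by_cases hz : z ∈ D'
    · have hXd : DifferentiableAt ℝ (X m) z :=
        (hXc.contDiffAt (hD'o.mem_nhds hz)).differentiableAt (by norm_num)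
      have hpos' : 0 < (1 + X m z / b).re := by linarith [(hu m hm z hz).1]
      have hd := dbar_comp (qf_deriv (a := a) hb.ne' hpos') hXd
      have hdX : dbar (X m) z = -v * ((Real.pi * mm m μ z : ℝ) : ℂ) := by
        have h9 : DifferentiableAt ℝ (f i₀) z :=
          ((hf z (hD'D hz)).differentiableAt (hD.mem_nhds (hD'D hz))).restrictScalars ℝ
        have h10 : DifferentiableAt ℝ (mo m (CT μ)) z :=
          (mo_contDiff m hli).differentiable (by norm_num) z
        have h11 : dbar (f i₀) z = 0 :=
          dbar_of_hasDerivAt ((hf z (hD'D hz)).differentiableAt (hD.mem_nhds (hD'D hz))).hasDerivAt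
        have h12 := dbar_mo_CT m μ z
        have h13 : dbar (X m) z = v * (dbar (f i₀) z - dbar (mo m (CT μ)) z) := by
          have h14 : fderiv ℝ (X m) z = v • (fderiv ℝ (f i₀) z - fderiv ℝ (mo m (CT μ)) z) := by
            have := ((h9.hasFDerivAt.sub h10.hasFDerivAt).const_mul v).fderiv
            exact this
          unfold dbar
          rw [h14]
          simp only [_root_.smul_apply, _root_.sub_apply, smul_eq_mul]
          ring
        rw [h13, h11, h12]; ring
      rw [hd, hdX]
      have e3 : (starRingEnd ℂ) v * (ψc z * ((-((a / b : ℝ) : ℂ) *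
          Complex.exp (-((1 + a : ℝ) : ℂ) * Complex.log (1 + X m z / b))) *
          (-v * ((Real.pi * mm m μ z : ℝ) : ℂ)))) =
          ((ψ z * (a / b) * (Real.pi * mm m μ z) * Complex.normSq v : ℝ) : ℂ) *
          Complex.exp (-((1 + a : ℝ) : ℂ) * Complex.log (1 + X m z / b)) := by
        have h15 : (starRingEnd ℂ) v * v = ((Complex.normSq v : ℝ) : ℂ) := by
          rw [mul_comm, Complex.mul_conj]
        push_cast
        push_cast at h15
        simp only [hψc]
        linear_combination ((ψ z : ℂ) * (a / b) * (Real.pi * mm m μ z) *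
          Complex.exp (-(1 + (a : ℂ)) * Complex.log (1 + X m z / b))) * h15
      rw [e3, Complex.re_ofReal_mul]
      apply mul_nonneg
      · have := mm_nonneg m μ z
        have := hψ0 z
        have := Complex.normSq_nonneg v
        positivity
      · exact hexp _ hpos' (hu m hm z hz).2
    · have h16 : ψc z = 0 := by
        by_contra h
        exact hz (hsD' (subset_tsupport _ h))
      rw [h16]; simp
  -- passage to the limit
  have hlim : Tendsto (fun m => ∫ z, dbar ψc z * qf a b (X m z)) atTop
      (𝓝 (∫ z, dbar ψc z * qf a b (v * (f i₀ z - CT μ z)))) := by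
    have hdc : Continuous (dbar ψc) := dbar_continuous hψcd
    have hds : HasCompactSupport (dbar ψc) := dbar_hcs hcc
    have hdt : ∀ z, z ∉ D' → dbar ψc z = 0 := by
      intro z hz
      have h1 : z ∉ tsupport ψc := fun h => hz (hsD' h)
      have h2 : ψc =ᶠ[𝓝 z] fun _ => 0 := notMem_tsupport_iff_eventuallyEq.1 h1
      unfold dbar
      rw [h2.fderiv_eq]; simp
    have hbound : ∀ᶠ m in atTop, ∀ z ∈ D', ‖qf a b (X m z)‖ ≤ Real.exp (a * Real.log 2) := by
      filter_upwards [hsmall] with m hm z hz
      rw [qf_norm]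
      apply Real.exp_le_exp.2
      have h1 : 1 / 2 ≤ ‖1 + X m z / b‖ := (hu m hm z hz).1.trans (Complex.re_le_norm _)
      have h2 : -Real.log 2 ≤ Real.log ‖1 + X m z / b‖ := by
        rw [← Real.log_inv]
        apply Real.log_le_log (by norm_num)
        rw [inv_eq_one_div]; exact h1
      nlinarith
    apply tendsto_integral_filter_of_dominated_convergence
      (fun z => ‖dbar ψc z‖ * Real.exp (a * Real.log 2))
    · filter_upwards [hsmall] with m hm
      apply Continuous.aestronglyMeasurable
      apply continuous_mul_of_tsupport hD'o hdc _ (hGc' m hm).continuousOn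
      exact (Pool.Agent.Split938.dbar_tsupport (f := ψc)).trans hsD'
    · filter_upwards [hbound] with m hm
      refine Eventually.of_forall fun z => ?_
      by_cases hz : z ∈ D'
      · rw [norm_mul]
        exact mul_le_mul_of_nonneg_left (hm z hz) (norm_nonneg _)
      · rw [hdt z hz]; simp
    · exact (hdc.norm.integrable_of_hasCompactSupport hds.norm).mul_const _
    · filter_upwards [ae_tendsto_mo hli, hval] with z hz hvz
      by_cases hzD : z ∈ D'
      · apply Tendsto.const_mul
        obtain ⟨j, hj, hzj⟩ := hvz (hD'D hzD)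
        have h1 : Tendsto (fun m => X m z) atTop (𝓝 (v * (f i₀ z - CT μ z))) :=
          (hz.const_sub _).const_mul _
        have h2 : 0 < (1 + v * (f i₀ z - CT μ z) / b).re := by
          rw [Complex.add_re, Complex.one_re, Complex.div_ofReal_re, hzj]
          have h3 : 0 ≤ (v * (f i₀ z - f j z)).re := by
            by_cases hji : j = i₀
            · rw [hji]; simp
            · exact hδ.le.trans (hpos z (hD'D hzD) j hj hji)
          positivity
        exact (qf_deriv hb.ne' h2).continuousAt.tendsto.comp h1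
      · simp_rw [hdt z hzD, zero_mul]
        exact tendsto_const_nhds
  have h17 : Tendsto (fun m => ((starRingEnd ℂ) v * ∫ z, dbar ψc z * qf a b (X m z)).re) atTop
      (𝓝 (((starRingEnd ℂ) v * ∫ z, dbar ψc z * qf a b (v * (f i₀ z - CT μ z))).re)) :=
    (Complex.continuous_re.tendsto _).comp (hlim.const_mul _)
  exact le_of_tendsto h17 hm_ineq

end Pool.Agent.J6H15.AC
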