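import Mathlib
import Pool.Agent.J6H15.AC.Cone2

/-!
# The weak monotonicity of the extreme index set, III
-/

set_option autoImplicit false

open MeasureTheory Metric Set Filter Topology Complex
open Pool.Agent.H586R3.CT (CT mo mm ep ψR ψC ep_pos tendsto_ep ψR_nonneg ψR_contDiff ψR_continuous
  integral_ψR integrable_ψR integral_ψR_sub ψR_zero_of_lt ψR_tsupport ψR_hcs mo_contDiff
  dbar_mo_CT mm_nonneg ae_tendsto_mo locallyIntegrable_CT mo_eq_smul integral_dbar_parts
  continuous_mul_of_tsupport mo_fderiv)
open Pool.Agent.Split938 (dbar dbar_mul dbar_of_hasDerivAt dbar_continuous dbar_hcs)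

namespace Pool.Agent.J6H15.AC

lemma measurable_CT (μ : Measure ℂ) [IsFiniteMeasure μ] : Measurable (CT μ) :=
  (Pool.Agent.H586R3.CT.measurable_ker.stronglyMeasurable.integral_prod_right').measurable

/-- the set on which the Cauchy transform is equal to `g` in `D` -/
def EQ (μ : Measure ℂ) (D : Set ℂ) (g : ℂ → ℂ) : Set ℂ := {z | z ∈ D ∧ CT μ z = g z}

lemma measurableSet_EQ (μ : Measure ℂ) [IsFiniteMeasure μ] {D : Set ℂ} (hD : IsOpen D) {g : ℂ → ℂ}
    (hg : ContinuousOn g D) : MeasurableSet (EQ μ D g) := by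
  have h1 : Measurable (D.restrict (CT μ)) := (measurable_CT μ).comp measurable_subtype_coe
  have h2 : Measurable (D.restrict g) := (continuousOn_iff_continuous_restrict.1 hg).measurable
  have h3 : MeasurableSet {x : D | D.restrict (CT μ) x = D.restrict g x} :=
    measurableSet_eq_fun h1 h2
  have h4 : EQ μ D g = Subtype.val '' {x : D | D.restrict (CT μ) x = D.restrict g x} := by
    ext z
    constructor
    · rintro ⟨h5, h6⟩
      exact ⟨⟨z, h5⟩, h6, rfl⟩
    · rintro ⟨x, hx, rfl⟩
      exact ⟨x.2, hx⟩
  rw [h4]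
  exact hD.measurableSet.subtype_image h3

/-- weak monotonicity of the extreme index set -/
lemma weak_mono (μ : Measure ℂ) [IsFiniteMeasure μ] {D : Set ℂ} (hD : IsOpen D) {ι : Type}
    (f : ι → ℂ → ℂ) (J : Set ι) (i₀ : ι) (hf : DifferentiableOn ℂ (f i₀) D)
    (v : ℂ) {M δ : ℝ} (hδ : 0 < δ) (hM : 0 ≤ M)
    (hpos : ∀ z ∈ D, ∀ j ∈ J, j ≠ i₀ → δ ≤ (v * (f i₀ z - f j z)).re)
    (hbd : ∀ z ∈ D, ∀ j ∈ J, ‖v * (f i₀ z - f j z)‖ ≤ M)
    (hval : ∀ᵐ z : ℂ, z ∈ D → ∃ i ∈ J, CT μ z = f i z)
    {ψ : ℂ → ℝ} (hψ : ContDiff ℝ 1 ψ) (hψ0 : ∀ z, 0 ≤ ψ z) (hc : HasCompactSupport ψ)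
    (hs : tsupport ψ ⊆ D) :
    ∫ z in EQ μ D (f i₀), fderiv ℝ ψ z v ≤ 0 := by
  obtain ⟨a, ha, hmain⟩ := weak_mono_aux μ hD f J i₀ hf v hδ hM hpos hbd hval hψ hψ0 hc hs
  set ψc : ℂ → ℂ := fun w => (ψ w : ℂ) with hψc
  have hψcd : ContDiff ℝ 1 ψc := Complex.ofRealCLM.contDiff.comp hψ
  have hts : tsupport ψc ⊆ tsupport ψ := by
    apply closure_mono
    intro z hz
    rw [Function.mem_support] at hz ⊢
    intro h
    apply hz
    show ((ψ z : ℝ) : ℂ) = 0
    rw [h]; simp
  have hcc : HasCompactSupport ψc := IsCompact.of_isClosed_subset hc (isClosed_tsupport _) hts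
  have hdc : Continuous (dbar ψc) := dbar_continuous hψcd
  have hds : HasCompactSupport (dbar ψc) := dbar_hcs hcc
  have hdt : ∀ z, z ∉ D → dbar ψc z = 0 := by
    intro z hz
    have h1 : z ∉ tsupport ψc := fun h => hz (hs (hts h))
    have h2 : ψc =ᶠ[𝓝 z] fun _ => 0 := notMem_tsupport_iff_eventuallyEq.1 h1
    unfold dbar
    rw [h2.fderiv_eq]; simp
  set E := EQ μ D (f i₀) with hE
  have hEm : MeasurableSet E := measurableSet_EQ μ hD hf.continuousOn
  have hgm : Measurable (fun z => D.indicator (fun z => v * (f i₀ z - CT μ z)) z) := by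
    have h1 : Measurable (D.restrict (f i₀)) :=
      (continuousOn_iff_continuous_restrict.1 hf.continuousOn).measurable
    have h2 : Measurable (D.restrict (fun z => v * (f i₀ z - CT μ z))) :=
      (h1.sub ((measurable_CT μ).comp measurable_subtype_coe)).const_mul v
    apply measurable_of_restrict_of_restrict_compl hD.measurableSet
    · have h3 : D.domRestrict (fun z => D.indicator (fun z => v * (f i₀ z - CT μ z)) z) =
          D.domRestrict (fun z => v * (f i₀ z - CT μ z)) := by
        funext x
        show D.indicator (fun z => v * (f i₀ z - CT μ z)) x = _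
        rw [indicator_of_mem x.2]; rfl
      rw [h3]; exact h2
    · have h3 : Dᶜ.domRestrict (fun z => D.indicator (fun z => v * (f i₀ z - CT μ z)) z) =
          fun _ => 0 := by
        funext x
        show D.indicator (fun z => v * (f i₀ z - CT μ z)) x = _
        rw [indicator_of_notMem x.2]
      rw [h3]; exact measurable_const
  have hlim : Tendsto (fun k : ℕ => ∫ z, dbar ψc z * qf a (1 / ((k : ℝ) + 1))
      (v * (f i₀ z - CT μ z))) atTop (𝓝 (∫ z, dbar ψc z * E.indicator (fun _ => (1 : ℂ)) z)) := by
    apply tendsto_integral_of_dominated_convergence (fun z => ‖dbar ψc z‖)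
    · intro k
      have h1 : (fun z => dbar ψc z * qf a (1 / ((k : ℝ) + 1)) (v * (f i₀ z - CT μ z))) =
          fun z => dbar ψc z * qf a (1 / ((k : ℝ) + 1))
            (D.indicator (fun z => v * (f i₀ z - CT μ z)) z) := by
        funext z
        by_cases hz : z ∈ D
        · rw [indicator_of_mem hz]
        · rw [hdt z hz, zero_mul, zero_mul]
      rw [h1]
      apply Measurable.aestronglyMeasurable
      apply hdc.measurable.mul
      unfold qf
      fun_prop
    · exact hdc.norm.integrable_of_hasCompactSupport hds.norm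
    · intro k
      filter_upwards [hval] with z hvz
      by_cases hz : z ∈ D
      · obtain ⟨j, hj, hzj⟩ := hvz hz
        rw [norm_mul]
        apply mul_le_of_le_one_right (norm_nonneg _)
        rw [qf_norm]
        rw [Real.exp_le_one_iff]
        have h3 : 0 ≤ (v * (f i₀ z - f j z)).re := by
          by_cases hji : j = i₀
          · rw [hji]; simp
          · exact hδ.le.trans (hpos z hz j hj hji)
        have h4 : 1 ≤ ‖1 + v * (f i₀ z - CT μ z) / ((1 / ((k : ℝ) + 1) : ℝ) : ℂ)‖ := by
          refine le_trans ?_ (Complex.re_le_norm _)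
          rw [Complex.add_re, Complex.one_re, Complex.div_ofReal_re, hzj]
          have : 0 ≤ (v * (f i₀ z - f j z)).re / (1 / ((k : ℝ) + 1)) := by positivity
          linarith
        have := Real.log_nonneg h4
        nlinarith
      · rw [hdt z hz]; simp
    · filter_upwards [hval] with z hvz
      by_cases hz : z ∈ D
      · apply Tendsto.const_mul
        obtain ⟨j, hj, hzj⟩ := hvz hz
        by_cases hzE : z ∈ E
        · rw [indicator_of_mem hzE]
          have h5 : CT μ z = f i₀ z := hzE.2
          rw [h5]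
          simp [qf]
        · rw [indicator_of_notMem hzE]
          have hji : j ≠ i₀ := by
            rintro rfl
            exact hzE ⟨hz, hzj⟩
          have h6 := hpos z hz j hj hji
          rw [tendsto_zero_iff_norm_tendsto_zero]
          have h7 : ∀ k : ℕ, ‖qf a (1 / ((k : ℝ) + 1)) (v * (f i₀ z - CT μ z))‖ ≤
              Real.exp (-a * Real.log (δ * ((k : ℝ) + 1))) := by
            intro k
            rw [qf_norm]
            apply Real.exp_le_exp.2
            have h8 : δ * ((k : ℝ) + 1) ≤
                ‖1 + v * (f i₀ z - CT μ z) / ((1 / ((k : ℝ) + 1) : ℝ) : ℂ)‖ := by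
              refine le_trans ?_ (Complex.re_le_norm _)
              rw [Complex.add_re, Complex.one_re, Complex.div_ofReal_re, hzj, div_div_eq_mul_div,
                div_one]
              have : δ * ((k : ℝ) + 1) ≤ (v * (f i₀ z - f j z)).re * ((k : ℝ) + 1) :=
                mul_le_mul_of_nonneg_right h6 (by positivity)
              linarith
            have h9 := Real.log_le_log (by positivity) h8
            nlinarith
          apply squeeze_zero (fun _ => norm_nonneg _) h7
          apply Real.tendsto_exp_atBot.comp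
          have h10 : Tendsto (fun k : ℕ => δ * ((k : ℝ) + 1)) atTop atTop :=
            (tendsto_atTop_add_const_right _ _ tendsto_natCast_atTop_atTop).const_mul_atTop hδ
          have h11 := Real.tendsto_log_atTop.comp h10
          exact h11.const_mul_atTop_of_neg (by linarith)
      · simp_rw [hdt z hz, zero_mul]
        exact tendsto_const_nhds
  have h12 : ((starRingEnd ℂ) v * ∫ z, dbar ψc z * E.indicator (fun _ => (1 : ℂ)) z).re ≤ 0 := by
    have h13 : Tendsto (fun k : ℕ => ((starRingEnd ℂ) v * ∫ z, dbar ψc z *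
        qf a (1 / ((k : ℝ) + 1)) (v * (f i₀ z - CT μ z))).re) atTop
        (𝓝 (((starRingEnd ℂ) v * ∫ z, dbar ψc z * E.indicator (fun _ => (1 : ℂ)) z).re)) :=
      (Complex.continuous_re.tendsto _).comp (hlim.const_mul _)
    exact le_of_tendsto h13 (Eventually.of_forall fun k => hmain _ (by positivity))
  have h14 : ∫ z, dbar ψc z * E.indicator (fun _ => (1 : ℂ)) z = ∫ z in E, dbar ψc z := by
    rw [← integral_indicator hEm]
    congr 1
    funext z
    by_cases hz : z ∈ E
    · rw [indicator_of_mem hz, indicator_of_mem hz, mul_one]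
    · rw [indicator_of_notMem hz, indicator_of_notMem hz, mul_zero]
  rw [h14, ← integral_const_mul] at h12
  have hint : IntegrableOn (fun z => (starRingEnd ℂ) v * dbar ψc z) E :=
    ((hdc.integrable_of_hasCompactSupport hds).const_mul _).integrableOn
  have h15 : (∫ z in E, (starRingEnd ℂ) v * dbar ψc z).re =
      ∫ z in E, ((starRingEnd ℂ) v * dbar ψc z).re := (integral_re hint).symm
  rw [h15] at h12
  have h16 : ∀ z, ((starRingEnd ℂ) v * dbar ψc z).re = fderiv ℝ ψ z v / 2 := fun z =>
    re_conj_dbar (hψ.differentiable (by norm_num) z) v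
  simp_rw [h16] at h12
  rw [integral_div] at h12
  linarith

end Pool.Agent.J6H15.AC
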