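import Mathlib
import Pool.Agent.J6H15.AC.Cone3

/-!
# The cone property of the extreme index set
-/

set_option autoImplicit false

open MeasureTheory Metric Set Filter Topology Complex
open Pool.Agent.H586R3.CT (CT mo mm ep ψR ψC ep_pos tendsto_ep ψR_nonneg ψR_contDiff ψR_continuous
  integral_ψR integrable_ψR integral_ψR_sub ψR_zero_of_lt ψR_tsupport ψR_hcs mo_contDiff
  dbar_mo_CT mm_nonneg ae_tendsto_mo locallyIntegrable_CT mo_eq_smul integral_dbar_parts
  continuous_mul_of_tsupport mo_fderiv)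

namespace Pool.Agent.J6H15.AC

/-- essential support -/
def ES (E : Set ℂ) : Set ℂ := {z | ∀ r > 0, volume (E ∩ ball z r) ≠ 0}

/-- essential interior -/
def EI (E : Set ℂ) : Set ℂ := {z | ∃ r > 0, volume (ball z r \ E) = 0}

lemma isOpen_EI (E : Set ℂ) : IsOpen (EI E) := by
  rw [Metric.isOpen_iff]
  rintro z ⟨r, hr, h⟩
  refine ⟨r / 2, by positivity, fun w hw => ⟨r / 2, by positivity, ?_⟩⟩
  apply measure_mono_null _ h
  apply diff_subset_diff_left
  apply ball_subset_ball'
  rw [mem_ball] at hw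
  linarith

lemma isClosed_ES (E : Set ℂ) : IsClosed (ES E) := by
  rw [← isOpen_compl_iff, Metric.isOpen_iff]
  intro z hz
  have hz' : ∃ r > 0, volume (E ∩ ball z r) = 0 := by
    by_contra h
    push Not at h
    exact hz h
  obtain ⟨r, hr, h⟩ := hz'
  refine ⟨r / 2, by positivity, fun w hw hw2 => hw2 (r / 2) (by positivity) ?_⟩
  apply measure_mono_null _ h
  apply inter_subset_inter_right
  apply ball_subset_ball'
  rw [mem_ball] at hw
  linarith

lemma EI_mono {E F : Set ℂ} (h : E ⊆ F) : EI E ⊆ EI F := by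
  rintro z ⟨r, hr, hz⟩
  exact ⟨r, hr, measure_mono_null (diff_subset_diff_right h) hz⟩

lemma ES_mono {E F : Set ℂ} (h : E ⊆ F) : ES E ⊆ ES F := by
  intro z hz r hr h0
  exact hz r hr (measure_mono_null (inter_subset_inter_left _ h) h0)

lemma not_mem_ES {E : Set ℂ} {z : ℂ} (h : z ∉ ES E) : ∃ r > 0, volume (E ∩ ball z r) = 0 := by
  by_contra h'
  push Not at h'
  exact h h'

lemma EI_subset_ES (E : Set ℂ) : EI E ⊆ ES E := by
  rintro z ⟨r, hr, hz⟩ s hs h0
  have h1 : volume (ball z (min r s)) = 0 := by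
    have : ball z (min r s) ⊆ (ball z r \ E) ∪ (E ∩ ball z s) := by
      intro w hw
      by_cases hE : w ∈ E
      · exact Or.inr ⟨hE, ball_subset_ball (min_le_right _ _) hw⟩
      · exact Or.inl ⟨ball_subset_ball (min_le_left _ _) hw, hE⟩
    exact measure_mono_null this (measure_union_null hz h0)
  exact (measure_ball_pos volume z (lt_min hr hs)).ne' h1

/-- the mollified indicator function is monotone -/
lemma mono_mo (μ : Measure ℂ) [IsFiniteMeasure μ] {D : Set ℂ} (hD : IsOpen D) {ι : Type}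
    (f : ι → ℂ → ℂ) (J : Set ι) (i₀ : ι) (hf : DifferentiableOn ℂ (f i₀) D)
    (v : ℂ) {M δ : ℝ} (hδ : 0 < δ) (hM : 0 ≤ M)
    (hpos : ∀ z ∈ D, ∀ j ∈ J, j ≠ i₀ → δ ≤ (v * (f i₀ z - f j z)).re)
    (hbd : ∀ z ∈ D, ∀ j ∈ J, ‖v * (f i₀ z - f j z)‖ ≤ M)
    (hval : ∀ᵐ z : ℂ, z ∈ D → ∃ i ∈ J, CT μ z = f i z) (n : ℕ) (y : ℂ)
    (hy : ∀ t ∈ Icc (0 : ℝ) 1, closedBall (y + t * v) (ep n) ⊆ D) :
    (mo n ((EQ μ D (f i₀)).indicator fun _ => 1) y).re ≤
      (mo n ((EQ μ D (f i₀)).indicator fun _ => 1) (y + v)).re := by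
  set E := EQ μ D (f i₀) with hE
  have hEm : MeasurableSet E := measurableSet_EQ μ hD hf.continuousOn
  set g : ℂ → ℂ := E.indicator fun _ => 1 with hg
  have hgi : LocallyIntegrable g volume :=
    (locallyIntegrable_const (1 : ℂ)).indicator hEm
  have hder : ∀ z, closedBall z (ep n) ⊆ D → 0 ≤ (fderiv ℝ (mo n g) z v).re := by
    intro z hz
    rw [mo_fderiv n hgi]
    have h1 : ∀ w, g w * fderiv ℝ (ψC n) (z - w) v =
        E.indicator (fun w => ((fderiv ℝ (ψR n) (z - w) v : ℝ) : ℂ)) w := by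
      intro w
      have h2 : fderiv ℝ (ψC n) (z - w) v = ((fderiv ℝ (ψR n) (z - w) v : ℝ) : ℂ) := by
        have h3 : HasFDerivAt (ψC n) (Complex.ofRealCLM.comp (fderiv ℝ (ψR n) (z - w))) (z - w) :=
          (Complex.ofRealCLM.hasFDerivAt).comp (z - w)
            ((ψR_contDiff n).differentiable (by norm_num) (z - w)).hasFDerivAt
        rw [h3.fderiv]; rfl
      rw [h2]
      by_cases hw : w ∈ E
      · rw [hg, indicator_of_mem hw, indicator_of_mem hw, one_mul]
      · rw [hg, indicator_of_notMem hw, indicator_of_notMem hw, zero_mul]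
    simp_rw [h1]
    rw [integral_indicator hEm, integral_complex_ofReal, Complex.ofReal_re]
    have hψ : ContDiff ℝ 1 (fun w => ψR n (z - w)) :=
      (ψR_contDiff n).comp (contDiff_const.sub contDiff_id)
    have hsup : tsupport (fun w => ψR n (z - w)) ⊆ closedBall z (ep n) := by
      apply closure_minimal _ isClosed_closedBall
      intro w hw
      by_contra h
      apply hw
      apply ψR_zero_of_lt
      rw [mem_closedBall, not_le, dist_comm, dist_eq_norm] at h
      exact h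
    have hcs : HasCompactSupport (fun w => ψR n (z - w)) :=
      IsCompact.of_isClosed_subset (isCompact_closedBall _ _) (isClosed_tsupport _) hsup
    have h4 := weak_mono μ hD f J i₀ hf v hδ hM hpos hbd hval hψ (fun w => ψR_nonneg n _) hcs
      (hsup.trans hz)
    have h5 : ∀ w, fderiv ℝ (fun w => ψR n (z - w)) w v = -(fderiv ℝ (ψR n) (z - w) v) := by
      intro w
      have h6 : HasFDerivAt (fun w => ψR n (z - w))
          ((fderiv ℝ (ψR n) (z - w)).comp (-(ContinuousLinearMap.id ℝ ℂ))) w :=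
        (((ψR_contDiff n).differentiable (by norm_num) (z - w)).hasFDerivAt).comp w
          ((hasFDerivAt_id w).const_sub z)
      rw [h6.fderiv]
      simp
    simp_rw [h5] at h4
    rw [integral_neg] at h4
    linarith
  have hd : ∀ t : ℝ, HasDerivAt (fun t : ℝ => (mo n g (y + t * v)).re)
      ((fderiv ℝ (mo n g) (y + t * v) v).re) t := by
    intro t
    have h7 : HasFDerivAt (mo n g) (fderiv ℝ (mo n g) (y + t * v)) (y + t * v) :=
      ((mo_contDiff n hgi).differentiable (by norm_num) _).hasFDerivAt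
    have h8 : HasDerivAt (fun t : ℝ => y + (t : ℂ) * v) v t := by
      have := ((Complex.ofRealCLM.hasDerivAt (x := t)).mul_const v).const_add y
      simpa using this
    have h9 := h7.comp_hasDerivAt t h8
    exact (Complex.reCLM.hasFDerivAt.comp_hasDerivAt t h9)
  have hmono : MonotoneOn (fun t : ℝ => (mo n g (y + t * v)).re) (Icc 0 1) := by
    apply monotoneOn_of_deriv_nonneg (convex_Icc 0 1)
    · exact fun t _ => (hd t).continuousAt.continuousWithinAt
    · exact fun t _ => (hd t).differentiableAt.differentiableWithinAt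
    · intro t ht
      rw [interior_Icc] at ht
      rw [(hd t).deriv]
      exact hder _ (hy t ⟨ht.1.le, ht.2.le⟩)
  have := hmono (left_mem_Icc.2 zero_le_one) (right_mem_Icc.2 zero_le_one) zero_le_one
  simpa using this

/-- the cone property of the extreme index set, along a segment -/
lemma cone_extreme (μ : Measure ℂ) [IsFiniteMeasure μ] {U : Set ℂ} (hU : IsOpen U) {ι : Type}
    [Finite ι] (f : ι → ℂ → ℂ) (J : Set ι) (i₀ : ι) (hf : ∀ i, DifferentiableOn ℂ (f i) U)
    (z v : ℂ) (hseg : segment ℝ z (z + v) ⊆ U)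
    (hpos : ∀ x ∈ segment ℝ z (z + v), ∀ j ∈ J, j ≠ i₀ → 0 < (v * (f i₀ x - f j x)).re)
    (hval : ∀ᵐ z : ℂ, z ∈ U → ∃ i ∈ J, CT μ z = f i z)
    (hz : z ∈ ES (EQ μ U (f i₀))) : z + v ∈ EI (EQ μ U (f i₀)) := by
  classical
  set S := segment ℝ z (z + v) with hS
  have hSc : IsCompact S := by
    rw [hS, segment_eq_image_lineMap]
    exact isCompact_Icc.image AffineMap.lineMap_continuous
  -- the open set of good pairs
  set W : Set (ℂ × ℂ) := {p | p.1 ∈ U ∧ ∀ j ∈ J, j ≠ i₀ → 0 < (p.2 * (f i₀ p.1 - f j p.1)).re}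
    with hW
  have hWo : IsOpen W := by
    have h1 : W = (Prod.fst ⁻¹' U) ∩ ⋂ j : ι, {p : ℂ × ℂ | p.1 ∈ U →
        (j ∈ J → j ≠ i₀ → 0 < (p.2 * (f i₀ p.1 - f j p.1)).re)} := by
      ext p
      simp only [hW, mem_setOf_eq, mem_inter_iff, mem_preimage, mem_iInter]
      constructor
      · rintro ⟨h1, h2⟩
        exact ⟨h1, fun j _ => h2 j⟩
      · rintro ⟨h1, h2⟩
        exact ⟨h1, fun j => h2 j h1⟩
    have h2 : ∀ j : ι, IsOpen {p : ℂ × ℂ | p.1 ∈ U ∧
        (j ∈ J → j ≠ i₀ → 0 < (p.2 * (f i₀ p.1 - f j p.1)).re)} := by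
      intro j
      by_cases hj : j ∈ J ∧ j ≠ i₀
      · have h3 : {p : ℂ × ℂ | p.1 ∈ U ∧
            (j ∈ J → j ≠ i₀ → 0 < (p.2 * (f i₀ p.1 - f j p.1)).re)} =
            (Prod.fst ⁻¹' U) ∩ (fun p : ℂ × ℂ => (p.2 * (f i₀ p.1 - f j p.1)).re) ⁻¹' (Ioi 0) := by
          ext p
          simp only [mem_setOf_eq, mem_inter_iff, mem_preimage, mem_Ioi]
          exact ⟨fun h => ⟨h.1, h.2 hj.1 hj.2⟩, fun h => ⟨h.1, fun _ _ => h.2⟩⟩
        rw [h3]
        apply ContinuousOn.isOpen_inter_preimage _ (hU.preimage continuous_fst) isOpen_Ioi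
        apply Complex.continuous_re.comp_continuousOn
        apply continuousOn_snd.mul
        have h4 : ∀ i, ContinuousOn (fun p : ℂ × ℂ => f i p.1) (Prod.fst ⁻¹' U) := fun i =>
          (hf i).continuousOn.comp continuousOn_fst (fun p hp => hp)
        exact (h4 i₀).sub (h4 j)
      · have h3 : {p : ℂ × ℂ | p.1 ∈ U ∧
            (j ∈ J → j ≠ i₀ → 0 < (p.2 * (f i₀ p.1 - f j p.1)).re)} = Prod.fst ⁻¹' U := by
          ext p
          simp only [mem_setOf_eq, mem_preimage]
          exact ⟨fun h => h.1, fun h => ⟨h, fun a b => (hj ⟨a, b⟩).elim⟩⟩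
        rw [h3]
        exact hU.preimage continuous_fst
    have h5 : W = (Prod.fst ⁻¹' U) ∩ ⋂ j : ι, {p : ℂ × ℂ | p.1 ∈ U ∧
        (j ∈ J → j ≠ i₀ → 0 < (p.2 * (f i₀ p.1 - f j p.1)).re)} := by
      ext p
      simp only [hW, mem_setOf_eq, mem_inter_iff, mem_preimage, mem_iInter]
      constructor
      · rintro ⟨h1, h2⟩
        exact ⟨h1, fun j => ⟨h1, h2 j⟩⟩
      · rintro ⟨h1, h2⟩
        exact ⟨h1, fun j => (h2 j).2⟩
    rw [h5]
    exact (hU.preimage continuous_fst).inter (isOpen_iInter_of_finite h2)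
  obtain ⟨D₀, V₀, hD₀, hV₀, hSD, hvV, hDV⟩ := generalized_tube_lemma hSc
    (isCompact_singleton (x := v)) hWo (by
      rintro ⟨x, w⟩ ⟨hx, hw⟩
      rw [mem_singleton_iff] at hw
      simp only at hx hw
      subst hw
      exact ⟨hseg hx, fun j hj hji => hpos x hx j hj hji⟩)
  obtain ⟨ρ₁, hρ₁, hρ₁D⟩ := hSc.exists_cthickening_subset_open hD₀ hSD
  obtain ⟨ρ₂, hρ₂, hρ₂V⟩ := Metric.nhds_basis_closedBall.mem_iff.1
    (hV₀.mem_nhds (hvV (mem_singleton v)))
  set ρ := min ρ₁ ρ₂ with hρ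
  have hρ0 : 0 < ρ := lt_min hρ₁ hρ₂
  set Kc := cthickening ρ S with hKc
  have hKcc : IsCompact Kc := hSc.cthickening
  have hKW : Kc ×ˢ closedBall v ρ ⊆ W := by
    refine Subset.trans (prod_mono ?_ ?_) hDV
    · exact (cthickening_mono (min_le_left _ _) _).trans hρ₁D
    · exact (closedBall_subset_closedBall (min_le_right _ _)).trans hρ₂V
  have hKU : Kc ⊆ U := fun x hx => (hKW (mk_mem_prod hx (mem_closedBall_self hρ0.le))).1
  have hcomp : IsCompact (Kc ×ˢ closedBall v ρ) := hKcc.prod (isCompact_closedBall _ _)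
  have hcont : ∀ j, ContinuousOn (fun p : ℂ × ℂ => p.2 * (f i₀ p.1 - f j p.1))
      (Kc ×ˢ closedBall v ρ) := by
    intro j
    apply continuousOn_snd.mul
    have h4 : ∀ i, ContinuousOn (fun p : ℂ × ℂ => f i p.1) (Kc ×ˢ closedBall v ρ) := fun i =>
      ((hf i).continuousOn.mono hKU).comp continuousOn_fst (fun p hp => hp.1)
    exact (h4 i₀).sub (h4 j)
  -- uniform bounds
  have hδ : ∃ δ > 0, ∀ p ∈ Kc ×ˢ closedBall v ρ, ∀ j ∈ J, j ≠ i₀ →
      δ ≤ (p.2 * (f i₀ p.1 - f j p.1)).re := by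
    have h1 : ∀ j, ∃ δ > 0, ∀ p ∈ Kc ×ˢ closedBall v ρ, j ∈ J → j ≠ i₀ →
        δ ≤ (p.2 * (f i₀ p.1 - f j p.1)).re := by
      intro j
      by_cases hj : j ∈ J ∧ j ≠ i₀
      · have hne : (Kc ×ˢ closedBall v ρ).Nonempty :=
          ⟨(z, v), self_subset_cthickening _ (left_mem_segment ℝ _ _),
            mem_closedBall_self hρ0.le⟩
        obtain ⟨p₀, hp₀, hmin⟩ := hcomp.exists_isMinOn hne
          (Complex.continuous_re.comp_continuousOn (hcont j))
        refine ⟨_, (hKW hp₀).2 j hj.1 hj.2, fun p hp _ _ => hmin hp⟩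
      · exact ⟨1, one_pos, fun p _ a b => (hj ⟨a, b⟩).elim⟩
    choose δ hδ hδ2 using h1
    cases nonempty_fintype ι
    by_cases hne : Nonempty ι
    · refine ⟨Finset.univ.inf' Finset.univ_nonempty δ, ?_, fun p hp j hj hji => ?_⟩
      · rw [gt_iff_lt, Finset.lt_inf'_iff]
        exact fun i _ => hδ i
      · exact (Finset.inf'_le _ (Finset.mem_univ j)).trans (hδ2 j p hp hj hji)
    · exact (hne ⟨i₀⟩).elim
  obtain ⟨δ, hδ0, hδ⟩ := hδ
  have hM : ∃ M, 0 ≤ M ∧ ∀ p ∈ Kc ×ˢ closedBall v ρ, ∀ j ∈ J, ‖p.2 * (f i₀ p.1 - f j p.1)‖ ≤ M := by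
    have h1 : ∀ j, ∃ M, ∀ p ∈ Kc ×ˢ closedBall v ρ, ‖p.2 * (f i₀ p.1 - f j p.1)‖ ≤ M := fun j =>
      hcomp.exists_bound_of_continuousOn (hcont j)
    choose M hM using h1
    cases nonempty_fintype ι
    refine ⟨∑ j, |M j|, Finset.sum_nonneg fun j _ => abs_nonneg _, fun p hp j _ => ?_⟩
    exact (hM j p hp).trans ((le_abs_self _).trans
      (Finset.single_le_sum (f := fun j => |M j|) (fun j _ => abs_nonneg _) (Finset.mem_univ j)))
  obtain ⟨M, hM0, hM⟩ := hM
  set D := thickening ρ S with hDdef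
  have hDo : IsOpen D := isOpen_thickening
  have hDK : D ⊆ Kc := thickening_subset_cthickening _ _
  set E := EQ μ D (f i₀) with hE
  set g : ℂ → ℂ := E.indicator fun _ => 1 with hg
  have hfD : DifferentiableOn ℂ (f i₀) D := (hf i₀).mono (hDK.trans hKU)
  have hEm : MeasurableSet E := measurableSet_EQ μ hDo hfD.continuousOn
  have hgi : LocallyIntegrable g volume := (locallyIntegrable_const (1 : ℂ)).indicator hEm
  have hvalD : ∀ᵐ z : ℂ, z ∈ D → ∃ i ∈ J, CT μ z = f i z := by
    filter_upwards [hval] with x hx hxD using hx (hKU (hDK hxD))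
  have hlimg := ae_tendsto_mo hgi
  -- a good point near z
  have hex : ∃ y, dist y z < ρ / 4 ∧ y ∈ E ∧ Tendsto (fun n => mo n g y) atTop (𝓝 (g y)) := by
    have h1 : volume (E ∩ ball z (ρ / 4)) ≠ 0 := by
      have h2 := hz (ρ / 4) (by positivity)
      have h3 : EQ μ U (f i₀) ∩ ball z (ρ / 4) ⊆ E ∩ ball z (ρ / 4) := by
        rintro x ⟨hx1, hx2⟩
        refine ⟨⟨?_, hx1.2⟩, hx2⟩
        rw [hDdef, mem_thickening_iff]
        exact ⟨z, left_mem_segment ℝ _ _, by rw [mem_ball] at hx2; linarith⟩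
      intro h4
      exact h2 (measure_mono_null h3 h4)
    have h5 : ∃ y ∈ E ∩ ball z (ρ / 4), Tendsto (fun n => mo n g y) atTop (𝓝 (g y)) := by
      by_contra hcon
      push Not at hcon
      apply h1
      apply measure_mono_null _ (ae_iff.1 hlimg)
      intro y hy
      exact hcon y hy
    obtain ⟨y, ⟨hy1, hy2⟩, hy3⟩ := h5
    exact ⟨y, hy2, hy1, hy3⟩
  obtain ⟨y, hyz, hyE, hylim⟩ := hex
  refine ⟨ρ / 4, by positivity, ?_⟩
  apply measure_mono_null _ (ae_iff.1 hlimg)
  rintro x ⟨hx, hxE⟩ hxlim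
  apply hxE
  have hxD : x ∈ D := by
    rw [hDdef, mem_thickening_iff]
    exact ⟨z + v, right_mem_segment ℝ _ _, by rw [mem_ball] at hx; linarith⟩
  -- the direction from y to x
  set v' := x - y with hv'
  have hv'v : v' ∈ closedBall v ρ := by
    rw [mem_closedBall, dist_eq_norm]
    have h1 : v' - v = (x - (z + v)) - (y - z) := by rw [hv']; ring
    rw [h1]
    rw [mem_ball, dist_eq_norm] at hx
    rw [dist_eq_norm] at hyz
    linarith [norm_sub_le (x - (z + v)) (y - z)]
  have hmono : ∀ᶠ n in atTop, (mo n g y).re ≤ (mo n g x).re := by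
    have hsm : ∀ᶠ n in atTop, ep n < ρ / 4 := tendsto_ep.eventually_lt_const (by positivity)
    filter_upwards [hsm] with n hn
    have h2 := mono_mo μ hDo f J i₀ hfD v' hδ0 hM0
      (fun w hw j hj hji => hδ (w, v') (mk_mem_prod (hDK hw) hv'v) j hj hji)
      (fun w hw j hj => hM (w, v') (mk_mem_prod (hDK hw) hv'v) j hj) hvalD n y (by
        intro t ht w hw
        rw [hDdef, mem_thickening_iff]
        refine ⟨z + t * v, ?_, ?_⟩
        · rw [hS, segment_eq_image_lineMap]
          refine ⟨t, ht, ?_⟩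
          rw [AffineMap.lineMap_apply_module']
          simp [Complex.real_smul]; ring
        · rw [mem_closedBall] at hw
          have h3 : dist (y + t * v') (z + t * v) < ρ / 2 := by
            rw [dist_eq_norm]
            have h4 : (y + t * v') - (z + t * v) =
                ((1 - t : ℝ) : ℂ) * (y - z) + (t : ℂ) * (x - (z + v)) := by
              rw [hv']; push_cast; ring
            rw [h4]
            refine (norm_add_le _ _).trans_lt ?_
            rw [norm_mul, norm_mul, Complex.norm_real, Complex.norm_real, Real.norm_of_nonneg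
              (by linarith [ht.2]), Real.norm_of_nonneg ht.1]
            rw [mem_ball, dist_eq_norm] at hx
            rw [dist_eq_norm] at hyz
            have := norm_nonneg (y - z)
            have := norm_nonneg (x - (z + v))
            nlinarith [ht.1, ht.2]
          linarith [dist_triangle w (y + t * v') (z + t * v)])
    rw [show y + v' = x by rw [hv']; ring] at h2
    exact h2
  have h6 : (g y).re ≤ (g x).re :=
    le_of_tendsto_of_tendsto ((Complex.continuous_re.tendsto _).comp hylim)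
      ((Complex.continuous_re.tendsto _).comp hxlim) hmono
  have h7 : x ∈ E := by
    by_contra hxE'
    rw [hg, indicator_of_mem hyE, indicator_of_notMem hxE'] at h6
    simp at h6
    linarith
  exact ⟨hKU (hDK hxD), h7.2⟩

end Pool.Agent.J6H15.AC
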