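import Mathlib
import Pool.Agent.J6H15.AC.Defs
import Pool.Agent.J6H15.AC.Cone4

/-!
# Statements of the parts of the local theorem
-/

set_option autoImplicit false

open MeasureTheory Polynomial Metric Set Filter Topology Complex
open Pool.Agent.H586R3.CT (CT)

namespace Pool.Agent.J6H15.AC

/-- `μ` has, in the open set `U`, a Cauchy transform with values among the holomorphic functions
`f i`, which are pairwise distinct at every point of `U` -/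
structure Sys (ι : Type) (μ : Measure ℂ) (U : Set ℂ) (f : ι → ℂ → ℂ) : Prop where
  op : IsOpen U
  hol : ∀ i, DifferentiableOn ℂ (f i) U
  ne : ∀ z ∈ U, ∀ i j, i ≠ j → f i z ≠ f j z
  val : ∀ᵐ z : ℂ, z ∈ U → ∃ i, CT μ z = f i z

/-- the indices active at `z` -/
def Act {ι : Type} (μ : Measure ℂ) (U : Set ℂ) (f : ι → ℂ → ℂ) (z : ℂ) : Set ι :=
  {i | z ∈ ES (EQ μ U (f i))}

/-- elementary properties of the sets of active indices -/
def ActThm : Prop :=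
  ∀ (ι : Type) [Finite ι] (μ : Measure ℂ) [IsFiniteMeasure μ] (U : Set ℂ) (f : ι → ℂ → ℂ),
    Sys ι μ U f →
    (∀ z ∈ U, (Act μ U f z).Nonempty) ∧
    (∀ z ∈ U, ∃ ρ > 0, ∀ w ∈ ball z ρ, Act μ U f w ⊆ Act μ U f z) ∧
    (∀ (O : Set ℂ) (T : Set ι), IsOpen O → O ⊆ U → (∀ w ∈ O, Act μ U f w ⊆ T) →
      ∀ᵐ w : ℂ, w ∈ O → ∃ i ∈ T, CT μ w = f i w) ∧
    (∀ z ∈ U, z ∈ μ.support ↔ ¬ (Act μ U f z).Subsingleton)

/-- monotonicity of the active indices along curves: if `T` is strictly separated from its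
complement along `γ` and some index of `T` is active at the beginning of `γ`, then only indices of
`T` are active at the end -/
def ConeThm : Prop :=
  ∀ (ι : Type) [Finite ι] (μ : Measure ℂ) [IsFiniteMeasure μ] (U : Set ℂ) (f : ι → ℂ → ℂ),
    Sys ι μ U f →
    ∀ (T : Set ι) (a b : ℝ) (γ γ' : ℝ → ℂ), a < b → (∀ t ∈ Icc a b, γ t ∈ U) →
      (∀ t ∈ Icc a b, HasDerivWithinAt γ (γ' t) (Icc a b) t) →
      (∀ t ∈ Icc a b, ∀ i ∈ T, ∀ j ∉ T, 0 < (γ' t * (f i (γ t) - f j (γ t))).re) →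
      (∃ i ∈ T, i ∈ Act μ U f (γ a)) → Act μ U f (γ b) ⊆ T

/-- the potential `v` of the real part of the Cauchy transform -/
def PotThm : Prop :=
  ∀ (ι : Type) [Finite ι] (μ : Measure ℂ) [IsFiniteMeasure μ] (U : Set ℂ) (f : ι → ℂ → ℂ),
    Sys ι μ U f → IsPreconnected U →
    ∃ v : ℂ → ℝ, ContinuousOn v U ∧
      ∀ (a b : ℝ) (γ γ' : ℝ → ℂ) (g : ℝ → ℝ), a ≤ b → (∀ t ∈ Icc a b, γ t ∈ U) →
        (∀ t ∈ Icc a b, HasDerivWithinAt γ (γ' t) (Icc a b) t) →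
        ContinuousOn γ' (Icc a b) → ContinuousOn g (Icc a b) →
        ((∀ t ∈ Ioo a b, ∀ l ∈ Act μ U f (γ t), g t ≤ (γ' t * f l (γ t)).re) →
          ∫ t in a..b, g t ≤ v (γ b) - v (γ a)) ∧
        ((∀ t ∈ Ioo a b, ∀ l ∈ Act μ U f (γ t), (γ' t * f l (γ t)).re ≤ g t) →
          v (γ b) - v (γ a) ≤ ∫ t in a..b, g t)

/-- the Cauchy transform is small on average near a point which is not an atom -/
def P2s : Prop :=
  ∀ (μ : Measure ℂ) [IsFiniteMeasure μ], μ {0} = 0 →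
    Tendsto (fun s : ℝ => s⁻¹ * ∫ z in ball (0 : ℂ) s, ‖CT μ z‖) (𝓝[>] 0) (𝓝 0)

/-- sign of a meromorphic function in a small sector (`u` is a direction, `a` the leading
coefficient) -/
def SignLem : Prop :=
  ∀ g : ℂ → ℂ, MeromorphicAt g 0 → (¬ ∀ᶠ ζ in 𝓝[≠] (0 : ℂ), g ζ = 0) →
    ∃ a : ℂ, a ≠ 0 ∧ ∀ u : ℂ, 0 < (u * a).re → ∃ ε > 0, ∀ ζ : ℂ, 0 < ‖ζ‖ → ‖ζ‖ < ε →
      |Complex.arg ζ| < ε → ∀ u' : ℂ, ‖u' - u‖ < ε → 0 < (u' * g ζ).re

/-- the local theorem when all `p i` vanish at `0` -/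
def GoodThm : Prop :=
  ∀ (ι : Type) [Finite ι] (μ : Measure ℂ) [IsFiniteMeasure μ] (N : ℕ) (p : ι → ℂ → ℂ) (δ r : ℝ),
    Data ι μ N p δ r → (∀ i, AnalyticAt ℂ (p i) 0 ∧ p i 0 = 0) →
    ∃ δ' > 0, ∃ r' > 0, ∃ 𝒜 : Set (Set ℂ), 𝒜.Finite ∧
      (∀ S ∈ 𝒜, IsArc S ∧ (0 : ℂ) ∈ S ∧ S ⊆ μ.support) ∧ μ.support ∩ Sec δ' r' ⊆ ⋃₀ 𝒜

/-- (P4) reduction to the good case: for `z` near `0` in a small sector only indices `i` with
`p i → 0` at `0` are active -/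
def P4 : Prop := ActThm → ConeThm → P2s → GoodThm → LocalThm

end Pool.Agent.J6H15.AC
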