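import Mathlib
import Pool.Agent.J6H15.AC.Defs2

/-!
# Elementary properties of the sets of active indices
-/

set_option autoImplicit false

open MeasureTheory Metric Set Filter Topology Complex
open Pool.Agent.H586R3.CT (CT mo mm ep ψR ψC ep_pos tendsto_ep ψR_nonneg ψR_contDiff ψR_continuous
  integral_ψR integrable_ψR integral_ψR_sub ψR_zero_of_lt ψR_tsupport ψR_hcs mo_contDiff
  dbar_mo_CT mm_nonneg ae_tendsto_mo locallyIntegrable_CT mo_eq_smul integral_dbar_parts
  continuous_mul_of_tsupport mo_fderiv ψC_contDiff ψC_hcs ψC_tsupport_subset dbar_mo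
  integrable_mul_fderiv)
open Pool.Agent.Split938 (dbar dbar_mul dbar_of_hasDerivAt)

namespace Pool.Agent.J6H15.AC

variable {ι : Type} [Finite ι] {μ : Measure ℂ} [IsFiniteMeasure μ] {U : Set ℂ} {f : ι → ℂ → ℂ}

lemma Sys.act_nonempty (h : Sys ι μ U f) {z : ℂ} (hz : z ∈ U) : (Act μ U f z).Nonempty := by
  by_contra hne
  rw [Set.not_nonempty_iff_eq_empty] at hne
  have h1 : ∀ i, ∃ r > 0, volume (EQ μ U (f i) ∩ ball z r) = 0 := by
    intro i
    apply not_mem_ES
    intro hi
    have : i ∈ Act μ U f z := hi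
    rw [hne] at this
    exact this
  choose r hr h2 using h1
  obtain ⟨r₀, hr₀, h3⟩ := Metric.isOpen_iff.1 h.op z hz
  have h4 : ∃ s > 0, s ≤ r₀ ∧ ∀ i, s ≤ r i := by
    have := Fintype.ofFinite ι
    have hfin : ({r₀} ∪ Set.range r).Finite := (Set.finite_singleton _).union (Set.finite_range r)
    obtain ⟨s, hs, hmin⟩ := Set.exists_min_image _ id hfin ⟨r₀, Or.inl rfl⟩
    refine ⟨s, ?_, hmin r₀ (Or.inl rfl), fun i => hmin (r i) (Or.inr ⟨i, rfl⟩)⟩
    rcases hs with hs | ⟨i, rfl⟩
    · rw [mem_singleton_iff] at hs; rw [hs]; exact hr₀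
    · exact hr i
  obtain ⟨s, hs, hs0, hsi⟩ := h4
  have h5 : volume (⋃ i, (EQ μ U (f i) ∩ ball z (r i))) = 0 := by
    rw [measure_iUnion_null_iff]
    exact h2
  have h6 : volume {w : ℂ | ¬ (w ∈ U → ∃ i, CT μ w = f i w)} = 0 := h.val
  have h7 : volume (ball z s) = 0 := by
    apply measure_mono_null _ (measure_union_null h5 h6)
    intro w hw
    by_cases hw2 : w ∈ U → ∃ i, CT μ w = f i w
    · left
      have hwU : w ∈ U := h3 (ball_subset_ball hs0 hw)
      obtain ⟨i, hi⟩ := hw2 hwU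
      exact mem_iUnion.2 ⟨i, ⟨⟨hwU, hi⟩, ball_subset_ball (hsi i) hw⟩⟩
    · exact Or.inr hw2
  exact (measure_ball_pos volume z hs).ne' h7

omit [IsFiniteMeasure μ] in
lemma act_usc (z : ℂ) :
    ∃ ρ > 0, ∀ w ∈ ball z ρ, Act μ U f w ⊆ Act μ U f z := by
  have h1 : ∀ i, ∃ r > 0, i ∉ Act μ U f z → ∀ w ∈ ball z r, i ∉ Act μ U f w := by
    intro i
    by_cases hi : i ∈ Act μ U f z
    · exact ⟨1, one_pos, fun h => absurd hi h⟩
    · have : (ES (EQ μ U (f i)))ᶜ ∈ 𝓝 z := (isClosed_ES _).isOpen_compl.mem_nhds hi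
      obtain ⟨r, hr, h2⟩ := Metric.mem_nhds_iff.1 this
      exact ⟨r, hr, fun _ w hw => h2 hw⟩
  choose r hr h2 using h1
  have h4 : ∃ s > 0, s ≤ 1 ∧ ∀ i, s ≤ r i := by
    have hfin : ({(1 : ℝ)} ∪ Set.range r).Finite :=
      (Set.finite_singleton _).union (Set.finite_range r)
    obtain ⟨s, hs, hmin⟩ := Set.exists_min_image _ id hfin ⟨1, Or.inl rfl⟩
    refine ⟨s, ?_, hmin 1 (Or.inl rfl), fun i => hmin (r i) (Or.inr ⟨i, rfl⟩)⟩
    rcases hs with hs | ⟨i, rfl⟩
    · rw [mem_singleton_iff] at hs; rw [hs]; exact one_pos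
    · exact hr i
  obtain ⟨s, hs, -, hsi⟩ := h4
  refine ⟨s, hs, fun w hw i hi => ?_⟩
  by_contra hiz
  exact h2 i hiz w (ball_subset_ball (hsi i) hw) hi

omit [IsFiniteMeasure μ] in
lemma Sys.act_ae (h : Sys ι μ U f) {O : Set ℂ} {T : Set ι} (hO : IsOpen O) (hOU : O ⊆ U)
    (hT : ∀ w ∈ O, Act μ U f w ⊆ T) : ∀ᵐ w : ℂ, w ∈ O → ∃ i ∈ T, CT μ w = f i w := by
  have h1 : ∀ i, i ∉ T → volume (EQ μ U (f i) ∩ O) = 0 := by
    intro i hi
    apply measure_null_of_locally_null
    intro w hw
    have h2 : w ∉ ES (EQ μ U (f i)) := fun h3 => hi (hT w hw.2 h3)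
    obtain ⟨r, hr, h3⟩ := not_mem_ES h2
    refine ⟨(EQ μ U (f i) ∩ O) ∩ ball w r,
      inter_mem_nhdsWithin _ (ball_mem_nhds w hr), ?_⟩
    apply measure_mono_null _ h3
    exact inter_subset_inter_left _ inter_subset_left
  have h2 : volume (⋃ i, ⋃ (_ : i ∉ T), (EQ μ U (f i) ∩ O)) = 0 := by
    rw [measure_iUnion_null_iff]
    intro i
    rw [measure_iUnion_null_iff]
    exact h1 i
  have h3 : ∀ᵐ w : ℂ, w ∉ ⋃ i, ⋃ (_ : i ∉ T), (EQ μ U (f i) ∩ O) :=
    measure_eq_zero_iff_ae_notMem.1 h2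
  filter_upwards [h3, h.val] with w hw1 hw2 hwO
  obtain ⟨i, hi⟩ := hw2 (hOU hwO)
  refine ⟨i, ?_, hi⟩
  by_contra hiT
  exact hw1 (mem_iUnion.2 ⟨i, mem_iUnion.2 ⟨hiT, ⟨⟨hOU hwO, hi⟩, hwO⟩⟩⟩)

/-- off the support the Cauchy transform is continuous -/
lemma continuousAt_CT {z : ℂ} (hz : z ∉ μ.support) : ContinuousAt (CT μ) z := by
  have h0 : ∃ U ∈ 𝓝 z, μ U = 0 := by
    by_contra hcon
    push Not at hcon
    apply hz
    rw [Measure.mem_support_iff_forall]
    intro U hU
    exact pos_iff_ne_zero.2 (hcon U hU)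
  obtain ⟨V, hV, hV0⟩ := h0
  obtain ⟨r, hr, h1⟩ := Metric.mem_nhds_iff.1 hV
  have h2 : ∀ᵐ ζ ∂μ, ζ ∉ ball z r := by
    apply measure_eq_zero_iff_ae_notMem.1
    exact measure_mono_null h1 hV0
  unfold CT
  have hmeas : ∀ w : ℂ, AEStronglyMeasurable (fun ζ : ℂ => (w - ζ)⁻¹) μ := fun w =>
    (measurable_const.sub measurable_id).inv.aestronglyMeasurable
  refine continuousAt_of_dominated (bound := fun _ => 2 / r) (Eventually.of_forall hmeas) ?_
    (integrable_const _) ?_
  · filter_upwards [ball_mem_nhds z (half_pos hr)] with w hw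
    filter_upwards [h2] with ζ hζ
    rw [mem_ball, not_lt, dist_eq_norm] at hζ
    rw [mem_ball, dist_eq_norm] at hw
    rw [norm_inv, inv_eq_one_div]
    have h3 : r / 2 ≤ ‖w - ζ‖ := by
      have h4 : ‖ζ - z‖ ≤ ‖w - ζ‖ + ‖w - z‖ := by
        have : ζ - z = -(w - ζ) + (w - z) := by ring
        rw [this]
        exact (norm_add_le _ _).trans (by rw [norm_neg])
      linarith
    rw [div_le_div_iff₀ (by linarith) hr]
    linarith
  · filter_upwards [h2] with ζ hζ
    apply ContinuousAt.inv₀ (by fun_prop)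
    intro h3
    apply hζ
    have : ζ = z := (sub_eq_zero.1 h3).symm
    rw [this]
    exact mem_ball_self hr

/-- if the Cauchy transform agrees a.e. near `z` with a holomorphic function, `z` is not in the
support -/
lemma not_mem_support_of_ae {z : ℂ} {ρ : ℝ} (hρ : 0 < ρ) {g : ℂ → ℂ}
    (hg : DifferentiableOn ℂ g (ball z ρ)) (h : ∀ᵐ w : ℂ, w ∈ ball z ρ → CT μ w = g w) :
    z ∉ μ.support := by
  have hev : ∀ᶠ n in atTop, ep n < ρ := tendsto_ep.eventually (gt_mem_nhds hρ)
  obtain ⟨n, hn⟩ := hev.exists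
  have hsub : closedBall z (ep n) ⊆ ball z ρ := closedBall_subset_ball hn
  have h1 : dbar (mo n (CT μ)) z = 0 := by
    rw [dbar_mo n (locallyIntegrable_CT μ)]
    set F : ℂ → ℂ := fun w => ψC n (z - w) with hF
    have hFc : ContDiff ℝ 1 F := (ψC_contDiff n).comp (by fun_prop)
    have hFs : tsupport F ⊆ closedBall z (ep n) := by
      apply closure_minimal _ isClosed_closedBall
      intro w hw
      by_contra hcon
      apply hw
      show ψC n (z - w) = 0
      unfold ψC
      rw [ψR_zero_of_lt, Complex.ofReal_zero]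
      rw [mem_closedBall, not_le, dist_comm, dist_eq_norm] at hcon
      exact hcon
    have hFcs : HasCompactSupport F :=
      IsCompact.of_isClosed_subset (isCompact_closedBall _ _) (isClosed_tsupport _) hFs
    have h2 := integral_dbar_parts isOpen_ball hFc hFcs (hFs.trans hsub)
      ((hg.contDiffOn isOpen_ball (n := 1)).restrict_scalars ℝ)
    have h3 : ∀ w, F w * dbar g w = 0 := by
      intro w
      by_cases hw : w ∈ ball z ρ
      · rw [dbar_of_hasDerivAt ((hg.differentiableAt (isOpen_ball.mem_nhds hw)).hasDerivAt),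
          mul_zero]
      · have : F w = 0 := by
          by_contra hne
          exact hw (hsub (hFs (subset_tsupport _ hne)))
        rw [this, zero_mul]
    simp_rw [h3] at h2
    rw [integral_zero] at h2
    have h4 : ∀ w, dbar F w = - dbar (ψC n) (z - w) := by
      intro w
      have h5 : HasFDerivAt F ((fderiv ℝ (ψC n) (z - w)).comp (-(ContinuousLinearMap.id ℝ ℂ))) w :=
        (((ψC_contDiff n).differentiable (by norm_num) (z - w)).hasFDerivAt).comp w
          ((hasFDerivAt_id w).const_sub z)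
      unfold dbar
      rw [h5.fderiv]
      simp
      ring
    have h5 : ∫ w, CT μ w * dbar (ψC n) (z - w) = ∫ w, - (dbar F w * g w) := by
      apply integral_congr_ae
      filter_upwards [h] with w hw
      by_cases hwb : w ∈ ball z ρ
      · rw [hw hwb, h4]; ring
      · have h6 : dbar F w = 0 := by
          have h7 : w ∉ tsupport F := fun hh => hwb (hsub (hFs hh))
          have h8 : F =ᶠ[𝓝 w] fun _ => 0 := notMem_tsupport_iff_eventuallyEq.1 h7
          unfold dbar
          rw [h8.fderiv_eq]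
          simp
        have h7 := h4 w
        rw [h6] at h7
        have h8 : dbar (ψC n) (z - w) = 0 := by
          rw [eq_comm, neg_eq_zero] at h7; exact h7
        rw [h6, h8]; simp
    rw [h5, integral_neg]
    exact h2.symm
  rw [dbar_mo_CT] at h1
  have h2 : mm n μ z = 0 := by
    have : (Real.pi * mm n μ z : ℝ) = 0 := by exact_mod_cast h1
    rcases mul_eq_zero.1 this with h3 | h3
    · exact absurd h3 Real.pi_ne_zero
    · exact h3
  unfold mm at h2
  obtain ⟨B, hB⟩ := (ψR_hcs n).exists_bound_of_continuous (ψR_continuous n)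
  have hi : Integrable (fun ζ => ψR n (z - ζ)) μ :=
    Integrable.of_bound (((ψR_continuous n).comp (by fun_prop)).aestronglyMeasurable) B
      (Eventually.of_forall fun ζ => hB _)
  rw [integral_eq_zero_iff_of_nonneg (fun _ => ψR_nonneg _ _) hi] at h2
  intro hz
  rw [Measure.mem_support_iff_forall] at hz
  have h3 := hz (ball z (ep n)) (ball_mem_nhds z (ep_pos n))
  apply h3.ne'
  rw [measure_eq_zero_iff_ae_notMem]
  filter_upwards [h2] with ζ hζ hζb
  have h4 : (0 : ℝ) < ψR n (z - ζ) := by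
    have h5 : z - ζ ∈ ball (0 : ℂ) (Pool.Agent.H586R3.CT.bmp n).rOut := by
      rw [mem_ball, dist_zero_right, norm_sub_rev, ← dist_eq_norm]
      exact hζb
    have h6 : z - ζ ∈ Function.support ((Pool.Agent.H586R3.CT.bmp n).normed volume) := by
      rw [ContDiffBump.support_normed_eq]
      exact h5
    exact lt_of_le_of_ne (ψR_nonneg _ _) (Ne.symm h6)
  exact h4.ne' hζ

lemma Sys.mem_support_iff (h : Sys ι μ U f) {z : ℂ} (hz : z ∈ U) :
    z ∈ μ.support ↔ ¬ (Act μ U f z).Subsingleton := by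
  constructor
  · intro hs hsub
    obtain ⟨i, hi⟩ := h.act_nonempty hz
    have h1 : Act μ U f z = {i} := hsub.eq_singleton_of_mem hi
    obtain ⟨ρ, hρ, h2⟩ := act_usc (μ := μ) (U := U) (f := f) z
    obtain ⟨r, hr, h3⟩ := Metric.isOpen_iff.1 h.op z hz
    have h4 : ∀ᵐ w : ℂ, w ∈ ball z (min ρ r) → ∃ i' ∈ ({i} : Set ι), CT μ w = f i' w := by
      apply h.act_ae isOpen_ball ((ball_subset_ball (min_le_right _ _)).trans h3)
      intro w hw
      rw [← h1]
      exact h2 w (ball_subset_ball (min_le_left _ _) hw)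
    apply not_mem_support_of_ae (lt_min hρ hr) (g := f i)
      ((h.hol i).mono ((ball_subset_ball (min_le_right _ _)).trans h3)) _ hs
    filter_upwards [h4] with w hw hwb
    obtain ⟨i', hi', h5⟩ := hw hwb
    rw [mem_singleton_iff] at hi'
    rw [h5, hi']
  · intro hns
    by_contra hs
    apply hns
    have hc := continuousAt_CT hs
    have key : ∀ i ∈ Act μ U f z, f i z = CT μ z := by
      intro i hi
      by_contra hne
      have hfc : ContinuousAt (f i) z :=
        ((h.hol i).differentiableAt (h.op.mem_nhds hz)).continuousAt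
      have h1 : ∀ᶠ w in 𝓝 z, f i w ≠ CT μ w := by
        have := hfc.sub hc
        have h2 : ∀ᶠ w in 𝓝 z, f i w - CT μ w ≠ 0 :=
          this.eventually_ne (by simpa using sub_ne_zero.2 hne)
        filter_upwards [h2] with w hw using sub_ne_zero.1 hw
      obtain ⟨r, hr, h2⟩ := Metric.eventually_nhds_iff_ball.1 h1
      apply hi r hr
      have : EQ μ U (f i) ∩ ball z r = ∅ := by
        ext w
        simp only [mem_inter_iff, mem_empty_iff_false, iff_false, not_and]
        intro hw hwb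
        exact h2 w hwb hw.2.symm
      rw [this, measure_empty]
    intro i hi j hj
    by_contra hij
    exact h.ne z hz i j hij ((key i hi).trans (key j hj).symm)

theorem actThm : ActThm := by
  intro ι _ μ _ U f h
  exact ⟨fun z hz => h.act_nonempty hz, fun z _ => act_usc z,
    fun O T hO hOU hT => h.act_ae hO hOU hT, fun z hz => h.mem_support_iff hz⟩

end Pool.Agent.J6H15.AC
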