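import Mathlib
import Pool.Agent.J6H15.AC.Act

/-!
# The cone property of upper sets of indices
-/

set_option autoImplicit false

open MeasureTheory Metric Set Filter Topology Complex
open Pool.Agent.H586R3.CT (CT)

namespace Pool.Agent.J6H15.AC

/-- the set where the Cauchy transform takes a value with index in `T` -/
def ET {ι : Type} (μ : Measure ℂ) (U : Set ℂ) (f : ι → ℂ → ℂ) (T : Set ι) : Set ℂ :=
  {w | w ∈ U ∧ ∃ i ∈ T, CT μ w = f i w}

lemma ET_eq {ι : Type} (μ : Measure ℂ) (U : Set ℂ) (f : ι → ℂ → ℂ) (T : Set ι) :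
    ET μ U f T = ⋃ i ∈ T, EQ μ U (f i) := by
  ext w
  simp only [ET, EQ, mem_setOf_eq, mem_iUnion, exists_prop]
  constructor
  · rintro ⟨h1, i, h2, h3⟩
    exact ⟨i, h2, h1, h3⟩
  · rintro ⟨i, h2, h1, h3⟩
    exact ⟨h1, i, h2, h3⟩

lemma EI_diff_null (E : Set ℂ) : volume (EI E \ E) = 0 := by
  apply measure_null_of_locally_null
  rintro w ⟨⟨r, hr, h1⟩, hw2⟩
  refine ⟨(EI E \ E) ∩ ball w r, inter_mem_nhdsWithin _ (ball_mem_nhds w hr), ?_⟩
  apply measure_mono_null _ h1
  rintro x ⟨⟨_, hx1⟩, hx2⟩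
  exact ⟨hx2, hx1⟩

lemma null_of_translates {S : Set ℂ} (hS : MeasurableSet S) (hb : Bornology.IsBounded S) (v : ℂ)
    {s₀ : ℝ} (hs₀ : 0 < s₀) (h : ∀ s : ℝ, 0 < s → s < s₀ → ∀ y ∈ S, y + s * v ∉ S) :
    volume S = 0 := by
  by_contra hne
  obtain ⟨R, hR⟩ := hb.subset_ball (0 : ℂ)
  set s : ℕ → ℝ := fun n => s₀ / (n + 2) with hs
  have hspos : ∀ n, 0 < s n := fun n => by rw [hs]; positivity
  have hslt : ∀ n, s n < s₀ := by
    intro n
    rw [hs]
    simp only
    rw [div_lt_iff₀ (by positivity)]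
    have : (0 : ℝ) ≤ n := Nat.cast_nonneg n
    nlinarith
  have hsinj : ∀ m n, m < n → s n < s m := by
    intro m n hmn
    rw [hs]
    simp only
    apply div_lt_div_of_pos_left hs₀ (by positivity)
    have : (m : ℝ) < n := by exact_mod_cast hmn
    linarith
  set A : ℕ → Set ℂ := fun n => (fun y => y + s n * v) '' S with hA
  have hAv : ∀ n, A n = (fun y => y - s n * v) ⁻¹' S := by
    intro n
    ext y
    simp only [hA, mem_image, mem_preimage]
    constructor
    · rintro ⟨x, hx, rfl⟩
      simpa using hx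
    · intro hy
      exact ⟨_, hy, by ring⟩
  have hAm : ∀ n, MeasurableSet (A n) := by
    intro n
    rw [hAv]
    exact hS.preimage (by fun_prop)
  have hAvol : ∀ n, volume (A n) = volume S := by
    intro n
    rw [hAv]
    have := measure_preimage_add_right volume (-(s n * v)) S
    simpa [sub_eq_add_neg] using this
  have hdisj : Pairwise (Function.onFun Disjoint A) := by
    have key : ∀ m n, m < n → Disjoint (A m) (A n) := by
      intro m n hmn
      rw [Set.disjoint_left]
      intro y hy1 hy2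
      rw [hAv, mem_preimage] at hy1 hy2
      have h1 := h (s m - s n) (by linarith [hsinj m n hmn]) (by linarith [hslt m, hspos n]) _ hy1
      apply h1
      have : y - s m * v + ((s m - s n : ℝ) : ℂ) * v = y - s n * v := by push_cast; ring
      rw [this]
      exact hy2
    intro m n hmn
    rcases lt_or_gt_of_ne hmn with h1 | h1
    · exact key m n h1
    · exact (key n m h1).symm
  have h1 : volume (⋃ n, A n) = ∑' n, volume (A n) := measure_iUnion hdisj hAm
  have h2 : (⋃ n, A n) ⊆ ball 0 (R + s₀ * ‖v‖ + 1) := by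
    intro y hy
    rw [mem_iUnion] at hy
    obtain ⟨n, x, hx, rfl⟩ := hy
    have h3 := hR hx
    rw [mem_ball, dist_zero_right] at h3 ⊢
    have h4 : ‖(s n : ℂ) * v‖ ≤ s₀ * ‖v‖ := by
      rw [norm_mul, Complex.norm_real, Real.norm_of_nonneg (hspos n).le]
      exact mul_le_mul_of_nonneg_right (hslt n).le (norm_nonneg _)
    linarith [norm_add_le x (s n * v)]
  have h3 : volume (⋃ n, A n) < ⊤ := (measure_mono h2).trans_lt measure_ball_lt_top
  rw [h1] at h3
  simp_rw [hAvol] at h3
  rw [ENNReal.tsum_const_eq_top_of_ne_zero hne] at h3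
  exact lt_irrefl _ h3

lemma ES_local {μ : Measure ℂ} {U U' : Set ℂ} {g : ℂ → ℂ} {z : ℂ} (hU' : U' ∈ 𝓝 z)
    (h : z ∈ ES (EQ μ U g)) : z ∈ ES (EQ μ (U ∩ U') g) := by
  intro r hr h0
  obtain ⟨s, hs, h1⟩ := Metric.mem_nhds_iff.1 hU'
  apply h (min r s) (lt_min hr hs)
  apply measure_mono_null _ h0
  rintro w ⟨⟨hw1, hw2⟩, hw3⟩
  exact ⟨⟨⟨hw1, h1 (ball_subset_ball (min_le_right _ _) hw3)⟩, hw2⟩,
    ball_subset_ball (min_le_left _ _) hw3⟩

lemma measurableSet_ET {ι : Type} [Finite ι] {μ : Measure ℂ} [IsFiniteMeasure μ] {U : Set ℂ}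
    (hU : IsOpen U) {f : ι → ℂ → ℂ} (hf : ∀ i, ContinuousOn (f i) U) (T : Set ι) :
    MeasurableSet (ET μ U f T) := by
  rw [ET_eq]
  exact MeasurableSet.biUnion (Set.to_countable T) fun i _ => measurableSet_EQ μ hU (hf i)

/-- the cone property of upper sets of indices -/
lemma cone_upper (μ : Measure ℂ) [IsFiniteMeasure μ] {ι : Type} [Finite ι] (f : ι → ℂ → ℂ)
    {D : Set ℂ} (hfD : ∀ i, DifferentiableOn ℂ (f i) D) {V : Set ℂ}
    (hV : IsOpen V) (hVs : ∀ v ∈ V, ∀ s : ℝ, 0 < s → (s : ℂ) * v ∈ V) (ρ : ι → ℝ)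
    (hρ : Function.Injective ρ)
    (hsign : ∀ x ∈ D, ∀ v ∈ V, ∀ i j, ρ j < ρ i → 0 < (v * (f i x - f j x)).re) (T : Set ι)
    (hT : ∀ i ∈ T, ∀ j, ρ i < ρ j → j ∈ T) (n : ℕ) :
    ∀ (J : Set ι), J.ncard ≤ n → ∀ (U : Set ℂ), IsOpen U → U ⊆ D →
      (∀ᵐ z : ℂ, z ∈ U → ∃ i ∈ J, CT μ z = f i z) → ∀ (z v : ℂ), v ∈ V →
      segment ℝ z (z + v) ⊆ U → (∃ i ∈ T, z ∈ ES (EQ μ U (f i))) → z + v ∈ EI (ET μ U f T) := by
  induction n with
  | zero =>
    intro J hJ U hU hUD hval z v hv hseg hz
    exfalso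
    have hJ0 : J = ∅ := by
      rw [Nat.le_zero, Set.ncard_eq_zero (Set.toFinite J)] at hJ
      exact hJ
    have hzU : z ∈ U := hseg (left_mem_segment ℝ _ _)
    obtain ⟨r, hr, hrU⟩ := Metric.isOpen_iff.1 hU z hzU
    have h1 : volume (ball z r) = 0 := by
      apply measure_mono_null _ (ae_iff.1 hval)
      intro w hw
      simp only [mem_setOf_eq, Classical.not_imp]
      refine ⟨hrU hw, ?_⟩
      rintro ⟨i, hi, _⟩
      rw [hJ0] at hi
      exact hi
    exact (measure_ball_pos volume z hr).ne' h1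
  | succ n ih =>
    intro J hJ U hU hUD hval z v hv hseg hz
    have hf : ∀ i, DifferentiableOn ℂ (f i) U := fun i => (hfD i).mono hUD
    have hzU : z ∈ U := hseg (left_mem_segment ℝ _ _)
    have hdist : ∀ x ∈ U, ∀ i j, f i x = f j x → i = j := by
      intro x hx i j hij
      by_contra hne
      rcases lt_or_gt_of_ne (fun h => hne (hρ h)) with h1 | h1
      · have := hsign x (hUD hx) v hv j i h1
        rw [hij, sub_self, mul_zero] at this
        simp at this
      · have := hsign x (hUD hx) v hv i j h1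
        rw [hij, sub_self, mul_zero] at this
        simp at this
    -- an index which is essential somewhere is in `J`
    have hinJ : ∀ i x, x ∈ ES (EQ μ U (f i)) → i ∈ J := by
      intro i x hx
      by_contra hi
      apply hx 1 one_pos
      apply measure_mono_null _ (ae_iff.1 hval)
      rintro w ⟨⟨hw1, hw2⟩, _⟩
      simp only [mem_setOf_eq, Classical.not_imp]
      refine ⟨hw1, ?_⟩
      rintro ⟨j, hj, hj2⟩
      have := hdist w hw1 i j (hw2.symm.trans hj2)
      exact hi (this ▸ hj)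
    obtain ⟨i₁, hi₁T, hi₁⟩ := hz
    have hi₁J := hinJ i₁ z hi₁
    obtain ⟨j₀, hj₀J, hj₀max⟩ := Set.exists_max_image J ρ (Set.toFinite J) ⟨i₁, hi₁J⟩
    have hlt : ∀ j ∈ J, j ≠ j₀ → ρ j < ρ j₀ := fun j hj hne =>
      lt_of_le_of_ne (hj₀max j hj) (fun h => hne (hρ h))
    have hj₀T : j₀ ∈ T := by
      rcases eq_or_lt_of_le (hj₀max i₁ hi₁J) with h1 | h1
      · rw [← hρ h1]; exact hi₁T
      · exact hT i₁ hi₁T j₀ h1
    -- the extreme index
    have hext : ∀ x w, w ∈ V → segment ℝ x (x + w) ⊆ U → x ∈ ES (EQ μ U (f j₀)) →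
        x + w ∈ EI (EQ μ U (f j₀)) := by
      intro x w hw hs hx
      exact cone_extreme μ hU f J j₀ hf x w hs
        (fun y hy j hj hne => hsign y (hUD (hs hy)) w hw j₀ j (hlt j hj hne)) hval hx
    have hEIT : EI (EQ μ U (f j₀)) ⊆ EI (ET μ U f T) := by
      apply EI_mono
      rintro w ⟨hw1, hw2⟩
      exact ⟨hw1, j₀, hj₀T, hw2⟩
    -- a small radius
    have hSc : IsCompact (segment ℝ z (z + v)) := by
      rw [segment_eq_image_lineMap]
      exact isCompact_Icc.image AffineMap.lineMap_continuous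
    obtain ⟨r₁, hr₁, hr₁U⟩ := hSc.exists_thickening_subset_open hU hseg
    obtain ⟨r₂, hr₂, hr₂V⟩ := Metric.isOpen_iff.1 hV v hv
    set r := min r₁ r₂ with hr
    have hr0 : 0 < r := lt_min hr₁ hr₂
    have hsegy : ∀ y ∈ ball (z + v) r, segment ℝ z y ⊆ U := by
      intro y hy x hx
      apply hr₁U
      rw [segment_eq_image_lineMap] at hx
      obtain ⟨t, ht, rfl⟩ := hx
      rw [mem_thickening_iff]
      refine ⟨AffineMap.lineMap z (z + v) t, ?_, ?_⟩
      · rw [segment_eq_image_lineMap]
        exact ⟨t, ht, rfl⟩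
      · rw [AffineMap.lineMap_apply_module, AffineMap.lineMap_apply_module, dist_eq_norm]
        have e1 : (1 - t) • z + t • y - ((1 - t) • z + t • (z + v)) = t • (y - (z + v)) := by
          module
        rw [e1, norm_smul, Real.norm_of_nonneg ht.1]
        rw [mem_ball, dist_eq_norm] at hy
        have := norm_nonneg (y - (z + v))
        have h2 : t * ‖y - (z + v)‖ ≤ 1 * ‖y - (z + v)‖ :=
          mul_le_mul_of_nonneg_right ht.2 this
        linarith [min_le_left r₁ r₂]
    have hyV : ∀ y ∈ ball (z + v) r, y - z ∈ V := by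
      intro y hy
      apply hr₂V
      rw [mem_ball, dist_eq_norm] at hy ⊢
      have : y - z - v = y - (z + v) := by ring
      rw [this]
      linarith [min_le_right r₁ r₂]
    have hballU : ball (z + v) r ⊆ U := fun y hy => hsegy y hy (right_mem_segment ℝ _ _)
    set S : Set ℂ := ball (z + v) r \ (ET μ U f T ∪ EI (ET μ U f T)) with hS
    have hSm : MeasurableSet S :=
      measurableSet_ball.diff ((measurableSet_ET hU (fun i => (hf i).continuousOn) T).union
        (isOpen_EI _).measurableSet)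
    -- the points of `S` are in the essential support of the extreme index
    have hSES : ∀ y ∈ S, y ∈ ES (EQ μ U (f j₀)) := by
      rintro y ⟨hy, hyn⟩
      by_contra hyES
      have hyEI : y ∉ EI (ET μ U f T) := fun h => hyn (Or.inr h)
      by_cases hcase : ∃ x ∈ segment ℝ z y, x ∈ ES (EQ μ U (f j₀))
      · obtain ⟨x, hx, hxES⟩ := hcase
        have hxy : x ≠ y := by
          rintro rfl
          exact hyES hxES
        have hx' := hx
        rw [segment_eq_image_lineMap] at hx'
        obtain ⟨t, ht, hxt⟩ := hx'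
        have ht1 : t < 1 := by
          apply lt_of_le_of_ne ht.2
          rintro rfl
          apply hxy
          rw [← hxt]
          simp
        have e1 : y - x = ((1 - t : ℝ) : ℂ) * (y - z) := by
          rw [← hxt, AffineMap.lineMap_apply_module]
          simp only [Complex.real_smul]
          push_cast
          ring
        have h1 : y - x ∈ V := by
          rw [e1]
          exact hVs _ (hyV y hy) _ (by linarith)
        have h2 := hext x (y - x) h1 (by
          rw [add_sub_cancel]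
          exact ((convex_segment z y).segment_subset hx (right_mem_segment ℝ _ _)).trans
            (hsegy y hy)) hxES
        rw [add_sub_cancel] at h2
        exact hyEI (hEIT h2)
      · push Not at hcase
        set U' := U ∩ (ES (EQ μ U (f j₀)))ᶜ with hU'
        have hU'o : IsOpen U' := hU.inter (isClosed_ES _).isOpen_compl
        have hsegU' : segment ℝ z y ⊆ U' := fun x hx => ⟨hsegy y hy hx, hcase x hx⟩
        have hzU' : z ∈ U' := hsegU' (left_mem_segment ℝ _ _)
        have hval' : ∀ᵐ w : ℂ, w ∈ U' → ∃ i ∈ J \ {j₀}, CT μ w = f i w := by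
          have h1 : volume (EQ μ U (f j₀) ∩ U') = 0 := by
            apply measure_null_of_locally_null
            rintro w ⟨_, hw2⟩
            obtain ⟨s, hs, h3⟩ := not_mem_ES hw2.2
            refine ⟨(EQ μ U (f j₀) ∩ U') ∩ ball w s,
              inter_mem_nhdsWithin _ (ball_mem_nhds w hs), ?_⟩
            apply measure_mono_null _ h3
            exact inter_subset_inter_left _ inter_subset_left
          filter_upwards [measure_eq_zero_iff_ae_notMem.1 h1, hval] with w hw1 hw2 hwU'
          obtain ⟨i, hi, hi2⟩ := hw2 hwU'.1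
          refine ⟨i, ⟨hi, ?_⟩, hi2⟩
          rintro rfl
          exact hw1 ⟨⟨hwU'.1, hi2⟩, hwU'⟩
        have hcard : (J \ {j₀}).ncard ≤ n := by
          have := Set.ncard_diff_singleton_add_one hj₀J (Set.toFinite J)
          omega
        have hz' : ∃ i ∈ T, z ∈ ES (EQ μ U' (f i)) :=
          ⟨i₁, hi₁T, ES_local ((isClosed_ES _).isOpen_compl.mem_nhds hzU'.2) hi₁⟩
        have h2 := ih (J \ {j₀}) hcard U' hU'o (inter_subset_left.trans hUD) hval' z (y - z)
          (hyV y hy) (by rw [add_sub_cancel]; exact hsegU') hz'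
        rw [add_sub_cancel] at h2
        apply hyEI
        apply EI_mono _ h2
        rintro w ⟨hw1, hw2⟩
        exact ⟨hw1.1, hw2⟩
    have hS0 : volume S = 0 := by
      apply null_of_translates hSm (isBounded_ball.subset diff_subset) v one_pos
      intro s hs _ y hy hy2
      have hyb := hy.1
      have hy2b := hy2.1
      have h1 := hext y (s * v) (hVs v hv s hs)
        (((convex_ball (z + v) r).segment_subset hyb hy2b).trans hballU) (hSES y hy)
      exact hy2.2 (Or.inr (hEIT h1))
    refine ⟨r, hr0, ?_⟩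
    apply measure_mono_null _ (measure_union_null hS0 (EI_diff_null (ET μ U f T)))
    rintro y ⟨hy1, hy2⟩
    by_cases hy3 : y ∈ EI (ET μ U f T)
    · exact Or.inr ⟨hy3, hy2⟩
    · exact Or.inl ⟨hy1, fun h => h.elim hy2 hy3⟩

end Pool.Agent.J6H15.AC
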