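import Mathlib
import Pool.Agent.J6H15.AC.Cone5

/-!
# Monotonicity of the active indices along curves
-/

set_option autoImplicit false

open MeasureTheory Metric Set Filter Topology Complex
open Pool.Agent.H586R3.CT (CT)

namespace Pool.Agent.J6H15.AC

variable {ι : Type} [Finite ι] {μ : Measure ℂ} [IsFiniteMeasure μ] {U : Set ℂ} {f : ι → ℂ → ℂ}

omit [IsFiniteMeasure μ] in
/-- the essential support of a finite union -/
lemma exists_ES_of_ET {T : Set ι} {z : ℂ} (h : z ∈ ES (ET μ U f T)) :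
    ∃ i ∈ T, z ∈ ES (EQ μ U (f i)) := by
  by_contra hcon
  push Not at hcon
  have h1 : ∀ i, ∃ r > 0, i ∈ T → volume (EQ μ U (f i) ∩ ball z r) = 0 := by
    intro i
    by_cases hi : i ∈ T
    · obtain ⟨r, hr, h2⟩ := not_mem_ES (hcon i hi)
      exact ⟨r, hr, fun _ => h2⟩
    · exact ⟨1, one_pos, fun h => absurd h hi⟩
  choose r hr h2 using h1
  have h4 : ∃ s > 0, ∀ i, s ≤ r i := by
    have hfin : ({(1 : ℝ)} ∪ Set.range r).Finite :=
      (Set.finite_singleton _).union (Set.finite_range r)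
    obtain ⟨s, hs, hmin⟩ := Set.exists_min_image _ id hfin ⟨1, Or.inl rfl⟩
    refine ⟨s, ?_, fun i => hmin (r i) (Or.inr ⟨i, rfl⟩)⟩
    rcases hs with hs | ⟨i, rfl⟩
    · rw [mem_singleton_iff] at hs; rw [hs]; exact one_pos
    · exact hr i
  obtain ⟨s, hs, hsi⟩ := h4
  apply h s hs
  rw [ET_eq]
  have h5 : (⋃ i ∈ T, EQ μ U (f i)) ∩ ball z s ⊆ ⋃ i ∈ T, (EQ μ U (f i) ∩ ball z (r i)) := by
    rintro w ⟨hw1, hw2⟩
    simp only [mem_iUnion, exists_prop] at hw1 ⊢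
    obtain ⟨i, hi, hw3⟩ := hw1
    exact ⟨i, hi, hw3, ball_subset_ball (hsi i) hw2⟩
  apply measure_mono_null h5
  rw [measure_biUnion_null_iff (Set.to_countable T)]
  exact fun i hi => h2 i hi

omit [IsFiniteMeasure μ] in
lemma act_subset_of_EI {U' : Set ℂ} (hU' : U' ⊆ U) (hne : ∀ z ∈ U', ∀ i j, i ≠ j → f i z ≠ f j z)
    {T : Set ι} {z : ℂ} (h : z ∈ EI (ET μ U' f T)) : Act μ U f z ⊆ T := by
  intro j hj
  by_contra hjT
  obtain ⟨r, hr, h1⟩ := h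
  apply hj r hr
  apply measure_mono_null _ h1
  rintro w ⟨⟨hw1, hw2⟩, hw3⟩
  refine ⟨hw3, ?_⟩
  rintro ⟨hw4, i, hi, hi2⟩
  apply hne w hw4 i j
  · rintro rfl
    exact hjT hi
  · exact hi2.symm.trans hw2

omit [Finite ι] in
lemma re_dir (v₀ d : ℂ) (c τ : ℝ) : (v₀ * (1 + (c * τ : ℝ) * I) * d).re =
    (v₀ * d).re - c * τ * (v₀ * d).im := by
  simp only [Complex.mul_re, Complex.mul_im, Complex.add_re, Complex.add_im, Complex.one_re,
    Complex.one_im, Complex.I_re, Complex.I_im, Complex.ofReal_re, Complex.ofReal_im]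
  ring

omit [Finite ι] in
lemma eventually_dir (v₀ : ℂ) (hv : v₀ ≠ 0) {κ : Type} [Finite κ] (d : κ → ℂ)
    (hd : ∀ i, d i ≠ 0) (K : Set κ) (hK : ∀ i ∈ K, 0 < (v₀ * d i).re) (c : ℝ) (hc : c ≠ 0) :
    ∀ᶠ τ : ℝ in 𝓝[>] 0, (∀ i, (v₀ * (1 + (c * τ : ℝ) * I) * d i).re ≠ 0) ∧
      ∀ i ∈ K, 0 < (v₀ * (1 + (c * τ : ℝ) * I) * d i).re := by
  have hcont : ∀ i, Tendsto (fun τ : ℝ => (v₀ * d i).re - c * τ * (v₀ * d i).im) (𝓝[>] 0)
      (𝓝 ((v₀ * d i).re)) := by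
    intro i
    have h1 : Tendsto (fun τ : ℝ => (v₀ * d i).re - c * τ * (v₀ * d i).im) (𝓝 0)
        (𝓝 ((v₀ * d i).re - c * 0 * (v₀ * d i).im)) := by
      apply Continuous.tendsto
      fun_prop
    simp only [mul_zero, zero_mul, sub_zero] at h1
    exact h1.mono_left nhdsWithin_le_nhds
  apply Filter.Eventually.and
  · rw [Filter.eventually_all]
    intro i
    simp_rw [re_dir]
    by_cases h0 : (v₀ * d i).re = 0
    · have h1 : (v₀ * d i).im ≠ 0 := by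
        intro h1
        exact mul_ne_zero hv (hd i) (Complex.ext h0 h1)
      filter_upwards [self_mem_nhdsWithin] with τ hτ
      rw [h0, zero_sub, neg_ne_zero]
      exact mul_ne_zero (mul_ne_zero hc (ne_of_gt hτ)) h1
    · exact (hcont i).eventually_ne h0
  · rw [Filter.eventually_all]
    intro i
    simp_rw [re_dir]
    by_cases hi : i ∈ K
    · filter_upwards [(hcont i).eventually (lt_mem_nhds (hK i hi))] with τ hτ _ using hτ
    · exact Eventually.of_forall fun _ h => absurd h hi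

lemma Sys.cone_step (h : Sys ι μ U f) {x₀ : ℂ} (hx₀ : x₀ ∈ U) (T : Set ι) (w : ℂ)
    (hw0 : ∀ i j, i ≠ j → (w * (f i x₀ - f j x₀)).re ≠ 0)
    (hw : ∀ i ∈ T, ∀ j ∉ T, 0 < (w * (f i x₀ - f j x₀)).re) :
    ∃ κ > 0, ball x₀ κ ⊆ U ∧ ∀ x ∈ ball x₀ κ, ∀ y ∈ ball x₀ κ, ∀ s : ℝ, 0 < s →
      ‖(y - x) - s * w‖ < κ * s → (∃ i ∈ T, i ∈ Act μ U f x) →
      y ∈ EI (ET μ (ball x₀ κ) f T) := by
  set ρ : ι → ℝ := fun i => (w * f i x₀).re with hρ
  have hρinj : Function.Injective ρ := by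
    intro i j hij
    by_contra hne
    apply hw0 i j hne
    rw [mul_sub, Complex.sub_re]
    exact sub_eq_zero.2 hij
  have hc : ∀ i, ContinuousAt (f i) x₀ := fun i =>
    ((h.hol i).differentiableAt (h.op.mem_nhds hx₀)).continuousAt
  have h1 : ∀ᶠ q : ℂ × ℂ in 𝓝 (x₀, w), ∀ i j, ρ j < ρ i → 0 < (q.2 * (f i q.1 - f j q.1)).re := by
    rw [Filter.eventually_all]
    intro i
    rw [Filter.eventually_all]
    intro j
    by_cases hij : ρ j < ρ i
    · have h2 : ContinuousAt (fun q : ℂ × ℂ => (q.2 * (f i q.1 - f j q.1)).re) (x₀, w) := by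
        apply Complex.continuous_re.continuousAt.comp
        apply continuousAt_snd.mul
        apply ContinuousAt.sub
        · exact ContinuousAt.comp (f := Prod.fst) (g := f i) (hc i) continuousAt_fst
        · exact ContinuousAt.comp (f := Prod.fst) (g := f j) (hc j) continuousAt_fst
      have h3 : 0 < (w * (f i x₀ - f j x₀)).re := by
        rw [mul_sub, Complex.sub_re]
        exact sub_pos.2 hij
      filter_upwards [h2.eventually (lt_mem_nhds h3)] with q hq _ using hq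
    · exact Eventually.of_forall fun _ h => absurd h hij
  obtain ⟨κ₁, hκ₁, h2⟩ := Metric.eventually_nhds_iff_ball.1 h1
  obtain ⟨κ₂, hκ₂, h3⟩ := Metric.isOpen_iff.1 h.op x₀ hx₀
  set κ := min κ₁ κ₂ with hκ
  have hκ0 : 0 < κ := lt_min hκ₁ hκ₂
  have hDU : ball x₀ κ ⊆ U := (ball_subset_ball (min_le_right _ _)).trans h3
  set V : Set ℂ := ⋃ s ∈ Ioi (0 : ℝ), ball ((s : ℂ) * w) (κ * s) with hV
  have hVmem : ∀ v, v ∈ V ↔ ∃ s : ℝ, 0 < s ∧ ‖v - s * w‖ < κ * s := by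
    intro v
    simp only [hV, mem_iUnion, mem_Ioi, exists_prop, mem_ball, dist_eq_norm]
  have hVo : IsOpen V := isOpen_biUnion fun s _ => isOpen_ball
  have hVs : ∀ v ∈ V, ∀ s : ℝ, 0 < s → (s : ℂ) * v ∈ V := by
    intro v hv s hs
    rw [hVmem] at hv ⊢
    obtain ⟨t, ht, h4⟩ := hv
    refine ⟨s * t, mul_pos hs ht, ?_⟩
    have e1 : (s : ℂ) * v - ((s * t : ℝ) : ℂ) * w = (s : ℂ) * (v - t * w) := by push_cast; ring
    rw [e1, norm_mul, Complex.norm_real, Real.norm_of_nonneg hs.le]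
    calc s * ‖v - t * w‖ < s * (κ * t) := mul_lt_mul_of_pos_left h4 hs
      _ = κ * (s * t) := by ring
  have hsign : ∀ x ∈ ball x₀ κ, ∀ v ∈ V, ∀ i j, ρ j < ρ i → 0 < (v * (f i x - f j x)).re := by
    intro x hx v hv i j hij
    rw [hVmem] at hv
    obtain ⟨t, ht, h4⟩ := hv
    have htC : (t : ℂ) ≠ 0 := by exact_mod_cast ht.ne'
    have h5 : v / t ∈ ball w κ := by
      rw [mem_ball, dist_eq_norm]
      have e1 : v / t - w = (v - t * w) / t := by field_simp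
      rw [e1, norm_div, Complex.norm_real, Real.norm_of_nonneg ht.le, div_lt_iff₀ ht]
      exact h4
    have h6 := h2 (x, v / t) (by
      rw [← ball_prod_same]
      exact ⟨ball_subset_ball (min_le_left _ _) hx, ball_subset_ball (min_le_left _ _) h5⟩) i j hij
    have e2 : v * (f i x - f j x) = (t : ℂ) * (v / t * (f i x - f j x)) := by field_simp
    rw [e2, Complex.re_ofReal_mul]
    exact mul_pos ht h6
  have hT : ∀ i ∈ T, ∀ j, ρ i < ρ j → j ∈ T := by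
    intro i hi j hij
    by_contra hj
    have h4 := hw i hi j hj
    rw [mul_sub, Complex.sub_re] at h4
    have : (w * f i x₀).re < (w * f j x₀).re := hij
    linarith
  have hval : ∀ᵐ z : ℂ, z ∈ ball x₀ κ → ∃ i ∈ (univ : Set ι), CT μ z = f i z := by
    filter_upwards [h.val] with z hz hzD
    obtain ⟨i, hi⟩ := hz (hDU hzD)
    exact ⟨i, mem_univ i, hi⟩
  refine ⟨κ, hκ0, hDU, ?_⟩
  intro x hx y hy s hs hxy hact
  obtain ⟨i, hiT, hi⟩ := hact
  have h4 := cone_upper μ f (D := ball x₀ κ) (fun i => (h.hol i).mono hDU) hVo hVs ρ hρinj hsign T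
    hT (univ : Set ι).ncard univ le_rfl (ball x₀ κ) isOpen_ball Subset.rfl hval x (y - x)
    ((hVmem _).2 ⟨s, hs, hxy⟩) (by
      rw [add_sub_cancel]
      exact (convex_ball x₀ κ).segment_subset hx hy)
    ⟨i, hiT, by
      have h5 := ES_local (isOpen_ball.mem_nhds hx) hi
      have e1 : U ∩ ball x₀ κ = ball x₀ κ := inter_eq_right.2 hDU
      rw [e1] at h5
      exact h5⟩
  rw [add_sub_cancel] at h4
  exact h4

lemma Sys.cone_local (h : Sys ι μ U f) {x₀ : ℂ} (hx₀ : x₀ ∈ U) (T : Set ι) (v₀ : ℂ)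
    (hv : ∀ i ∈ T, ∀ j ∉ T, 0 < (v₀ * (f i x₀ - f j x₀)).re) :
    ∃ ε > 0, ∀ x ∈ ball x₀ ε, ∀ y ∈ ball x₀ ε, ∀ s : ℝ, 0 < s →
      ‖(y - x) - s * v₀‖ < ε * s → (∃ i ∈ T, i ∈ Act μ U f x) → Act μ U f y ⊆ T := by
  by_cases hT0 : T.Nonempty
  swap
  · refine ⟨1, one_pos, fun x _ y _ s _ _ hact => ?_⟩
    obtain ⟨i, hi, _⟩ := hact
    exact (hT0 ⟨i, hi⟩).elim
  by_cases hT1 : Tᶜ.Nonempty
  swap
  · refine ⟨1, one_pos, fun x _ y _ s _ _ _ i _ => ?_⟩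
    by_contra hi
    exact hT1 ⟨i, hi⟩
  obtain ⟨i₁, hi₁⟩ := hT0
  obtain ⟨j₁, hj₁⟩ := hT1
  have hv0 : v₀ ≠ 0 := by
    rintro rfl
    have := hv i₁ hi₁ j₁ hj₁
    simp at this
  have hvpos : 0 < ‖v₀‖ := norm_pos_iff.2 hv0
  -- generic directions
  have hd : ∀ q : {q : ι × ι // q.1 ≠ q.2}, f q.1.1 x₀ - f q.1.2 x₀ ≠ 0 := fun q =>
    sub_ne_zero.2 (h.ne x₀ hx₀ _ _ q.2)
  have hK : ∀ q ∈ {q : {q : ι × ι // q.1 ≠ q.2} | q.1.1 ∈ T ∧ q.1.2 ∉ T},
      0 < (v₀ * (f q.1.1 x₀ - f q.1.2 x₀)).re := fun q hq => hv _ hq.1 _ hq.2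
  have e1 := eventually_dir v₀ hv0 (fun q : {q : ι × ι // q.1 ≠ q.2} => f q.1.1 x₀ - f q.1.2 x₀)
    hd _ hK 1 one_ne_zero
  have e2 := eventually_dir v₀ hv0 (fun q : {q : ι × ι // q.1 ≠ q.2} => f q.1.1 x₀ - f q.1.2 x₀)
    hd _ hK (-1) (by norm_num)
  have e3 : ∀ᶠ τ : ℝ in 𝓝[>] 0, τ < 1 := nhdsWithin_le_nhds (gt_mem_nhds one_pos)
  have e4 : ∀ᶠ τ : ℝ in 𝓝[>] 0, 0 < τ := self_mem_nhdsWithin
  obtain ⟨τ, ⟨⟨hp1, hp2⟩, ⟨hm1, hm2⟩⟩, hτ1, hτ0⟩ := ((e1.and e2).and (e3.and e4)).exists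
  set vp : ℂ := v₀ * (1 + (1 * τ : ℝ) * I) with hvp
  set vm : ℂ := v₀ * (1 + (-1 * τ : ℝ) * I) with hvm
  have hsum : vp + vm = 2 * v₀ := by rw [hvp, hvm]; push_cast; ring
  have hvpn : ‖vp‖ ≤ 2 * ‖v₀‖ := by
    rw [hvp, norm_mul]
    have : ‖(1 + (1 * τ : ℝ) * I : ℂ)‖ ≤ 2 := by
      refine (norm_add_le _ _).trans ?_
      rw [norm_one, norm_mul, Complex.norm_I, Complex.norm_real, one_mul,
        Real.norm_of_nonneg hτ0.le]
      linarith
    nlinarith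
  obtain ⟨κp, hκp, hκpU, hstepp⟩ := h.cone_step hx₀ T vp
    (fun i j hij => hp1 ⟨(i, j), hij⟩)
    (fun i hi j hj => hp2 ⟨(i, j), fun hij => hj ((show i = j from hij) ▸ hi)⟩ ⟨hi, hj⟩)
  obtain ⟨κm, hκm, hκmU, hstepm⟩ := h.cone_step hx₀ T vm
    (fun i j hij => hm1 ⟨(i, j), hij⟩)
    (fun i hi j hj => hm2 ⟨(i, j), fun hij => hj ((show i = j from hij) ▸ hi)⟩ ⟨hi, hj⟩)
  set κ := min κp κm with hκ
  have hκ0 : 0 < κ := lt_min hκp hκm
  set ε := min (κ / 8) (‖v₀‖ / 2) with hε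
  have hε0 : 0 < ε := lt_min (by positivity) (by positivity)
  have hεκ : ε ≤ κ / 8 := min_le_left _ _
  have hεv : ε ≤ ‖v₀‖ / 2 := min_le_right _ _
  refine ⟨ε, hε0, ?_⟩
  intro x hx y hy s hs hxy hact
  rw [mem_ball, dist_eq_norm] at hx hy
  set e := (y - x) - s * v₀ with he
  have hsv : s * ‖v₀‖ ≤ 4 * ε := by
    have h1 : (s : ℂ) * v₀ = (y - x₀) - (x - x₀) - e := by rw [he]; ring
    have h2 : ‖(s : ℂ) * v₀‖ = s * ‖v₀‖ := by
      rw [norm_mul, Complex.norm_real, Real.norm_of_nonneg hs.le]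
    have h3 : ‖(s : ℂ) * v₀‖ ≤ ‖y - x₀‖ + ‖x - x₀‖ + ‖e‖ := by
      rw [h1]
      exact (norm_sub_le _ _).trans (by linarith [norm_sub_le (y - x₀) (x - x₀)])
    have h4 : ε * s ≤ ‖v₀‖ / 2 * s := mul_le_mul_of_nonneg_right hεv hs.le
    nlinarith
  set m := x + (((s / 2 : ℝ) : ℂ) * vp + e) with hm
  have hmx : ‖m - x₀‖ < κ := by
    have h1 : m - x₀ = (x - x₀) + (((s / 2 : ℝ) : ℂ) * vp + e) := by rw [hm]; ring
    rw [h1]
    have h2 : ‖((s / 2 : ℝ) : ℂ) * vp‖ ≤ s * ‖v₀‖ := by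
      rw [norm_mul, Complex.norm_real, Real.norm_of_nonneg (by positivity)]
      nlinarith
    have h3 := norm_add_le (x - x₀) (((s / 2 : ℝ) : ℂ) * vp + e)
    have h4 := norm_add_le (((s / 2 : ℝ) : ℂ) * vp) e
    have h5 : ε * s ≤ ‖v₀‖ / 2 * s := mul_le_mul_of_nonneg_right hεv hs.le
    nlinarith
  have hxκ : ‖x - x₀‖ < κ := by linarith
  have hyκ : ‖y - x₀‖ < κ := by linarith
  have h1 := hstepp x (by rw [mem_ball, dist_eq_norm]; exact hxκ.trans_le (min_le_left _ _)) m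
    (by rw [mem_ball, dist_eq_norm]; exact hmx.trans_le (min_le_left _ _)) (s / 2) (by positivity)
    (by
      have e5 : m - x - ((s / 2 : ℝ) : ℂ) * vp = e := by rw [hm]; ring
      rw [e5]
      have h5 : ε * s ≤ κ / 8 * s := mul_le_mul_of_nonneg_right hεκ hs.le
      have h6 : κ ≤ κp := min_le_left _ _
      nlinarith) hact
  obtain ⟨i, hiT, hi⟩ := exists_ES_of_ET (EI_subset_ES _ h1)
  have hact2 : ∃ i ∈ T, i ∈ Act μ U f m := by
    refine ⟨i, hiT, ES_mono ?_ hi⟩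
    rintro w ⟨hw1, hw2⟩
    exact ⟨hκpU hw1, hw2⟩
  have h2 := hstepm m (by rw [mem_ball, dist_eq_norm]; exact hmx.trans_le (min_le_right _ _)) y
    (by rw [mem_ball, dist_eq_norm]; exact hyκ.trans_le (min_le_right _ _)) (s / 2) (by positivity)
    (by
      have e5 : y - m - ((s / 2 : ℝ) : ℂ) * vm = 0 := by
        have e6 : vm = 2 * v₀ - vp := by rw [← hsum]; ring
        rw [e6, hm, he]
        push_cast
        ring
      rw [e5, norm_zero]
      positivity) hact2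
  exact act_subset_of_EI hκmU (fun z hz => h.ne z (hκmU hz)) h2

theorem coneThm : ConeThm := by
  intro ι _ μ _ U f h T a b γ γ' hab hγU hγ' hpos hact
  -- local property
  have hloc : ∀ t₀ ∈ Icc a b, ∃ η > 0, ∀ t ∈ Icc a b, |t - t₀| < η →
      (t₀ < t → (∃ i ∈ T, i ∈ Act μ U f (γ t₀)) → Act μ U f (γ t) ⊆ T) ∧
      (t < t₀ → (∃ i ∈ T, i ∈ Act μ U f (γ t)) → Act μ U f (γ t₀) ⊆ T) := by
    intro t₀ ht₀
    obtain ⟨ε, hε, h1⟩ := h.cone_local (hγU t₀ ht₀) T (γ' t₀) (hpos t₀ ht₀)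
    have h2 := (hasDerivWithinAt_iff_isLittleO.1 (hγ' t₀ ht₀)).def (half_pos hε)
    have h3 : ∀ᶠ t in 𝓝[Icc a b] t₀, dist (γ t) (γ t₀) < ε :=
      (hγ' t₀ ht₀).continuousWithinAt.eventually (ball_mem_nhds _ hε)
    obtain ⟨η, hη, h4⟩ := Metric.mem_nhdsWithin_iff.1 (h2.and h3)
    refine ⟨η, hη, fun t ht htt => ?_⟩
    obtain ⟨h5, h6⟩ := h4 ⟨by rw [mem_ball, Real.dist_eq]; exact htt, ht⟩
    rw [Real.norm_eq_abs] at h5
    constructor
    · intro hlt hact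
      apply h1 (γ t₀) (mem_ball_self hε) (γ t) h6 (t - t₀) (by linarith) _ hact
      rw [abs_of_pos (by linarith : 0 < t - t₀)] at h5
      have e1 : γ t - γ t₀ - ((t - t₀ : ℝ) : ℂ) * γ' t₀ = γ t - γ t₀ - (t - t₀) • γ' t₀ := by
        rw [Complex.real_smul]
      rw [e1]
      nlinarith
    · intro hlt hact
      apply h1 (γ t) h6 (γ t₀) (mem_ball_self hε) (t₀ - t) (by linarith) _ hact
      rw [abs_of_neg (by linarith : t - t₀ < 0)] at h5
      have e1 : γ t₀ - γ t - ((t₀ - t : ℝ) : ℂ) * γ' t₀ =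
          -(γ t - γ t₀ - (t - t₀) • γ' t₀) := by
        rw [Complex.real_smul]
        push_cast
        ring
      rw [e1, norm_neg]
      nlinarith
  have hcont : ContinuousOn γ (Icc a b) := fun t ht => (hγ' t ht).continuousWithinAt
  set S : Set ℝ := {t | ∃ i ∈ T, i ∈ Act μ U f (γ t)} with hS
  have hcl : IsClosed (S ∩ Icc a b) := by
    have e1 : S ∩ Icc a b = Icc a b ∩ γ ⁻¹' (⋃ i ∈ T, ES (EQ μ U (f i))) := by
      ext t
      simp only [hS, Act, mem_inter_iff, mem_setOf_eq, mem_preimage, mem_iUnion, exists_prop]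
      exact and_comm
    rw [e1]
    exact hcont.preimage_isClosed_of_isClosed isClosed_Icc
      ((Set.toFinite T).isClosed_biUnion fun i _ => isClosed_ES _)
  have hsub : Icc a b ⊆ S := by
    apply hcl.Icc_subset_of_forall_exists_gt hact
    rintro t ⟨htS, hta, htb⟩ y hy
    obtain ⟨η, hη, h1⟩ := hloc t ⟨hta, htb.le⟩
    set t' := min (min y b) (t + η / 2) with ht'
    have h2 : t < t' := lt_min (lt_min hy htb) (by linarith)
    have h3 : t' ≤ b := (min_le_left _ _).trans (min_le_right _ _)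
    have h4 : t' ≤ y := (min_le_left _ _).trans (min_le_left _ _)
    have h5 : t' ≤ t + η / 2 := min_le_right _ _
    have ht'm : t' ∈ Icc a b := ⟨by linarith, h3⟩
    have h6 := (h1 t' ht'm (by rw [abs_of_pos (by linarith)]; linarith)).1 h2 htS
    obtain ⟨i, hi⟩ := h.act_nonempty (hγU t' ht'm)
    exact ⟨t', ⟨i, h6 hi, hi⟩, h2, h4⟩
  obtain ⟨η, hη, h1⟩ := hloc b ⟨hab.le, le_rfl⟩
  set t' := max a (b - η / 2) with ht'
  have h2 : t' < b := max_lt hab (by linarith)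
  have h3 : a ≤ t' := le_max_left _ _
  have h4 : b - η / 2 ≤ t' := le_max_right _ _
  exact (h1 t' ⟨h3, h2.le⟩ (by rw [abs_of_neg (by linarith)]; linarith)).2 h2 (hsub ⟨h3, h2.le⟩)

end Pool.Agent.J6H15.AC
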