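import Mathlib
import Pool.Agent.J6H15.AC.Defs2

/-!
# Statements of the parts of the local theorem in the good case
-/

set_option autoImplicit false

open MeasureTheory Polynomial Metric Set Filter Topology Complex
open Pool.Agent.H586R3.CT (CT)

namespace Pool.Agent.J6H15.AC

/-- the branches as functions of `z` -/
noncomputable def ff {ι : Type} (N : ℕ) (p : ι → ℂ → ℂ) (i : ι) (z : ℂ) : ℂ := p i (rt N z) / z

/-- the real potentials of the branches -/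
noncomputable def hh {ι : Type} (N : ℕ) (P : ι → ℂ → ℂ) (i : ι) (z : ℂ) : ℝ := (P i (rt N z)).re

/-- the data of the good case after shrinking the sector: the branches `ff N p i` and their
primitives `P i (rt N z)`, a direction `u` (pointing upwards) along which the indices are strictly
ordered by `ρ`, and the potential `v` of the real part of the Cauchy transform, normalised by
`v → 0` at `0` -/
structure GD (ι : Type) (μ : Measure ℂ) (N : ℕ) (p P : ι → ℂ → ℂ) (δ r : ℝ) (v : ℂ → ℝ) (u : ℂ)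
    (ρ : ι → ℝ) : Prop where
  N_pos : 0 < N
  δ_pos : 0 < δ
  δ_lt : δ < 1
  r_pos : 0 < r
  sys : Sys ι μ (Sec δ r) (ff N p)
  anP : ∀ i, AnalyticAt ℂ (P i) 0
  P0 : ∀ i, P i 0 = 0
  neP : ∀ i j, i ≠ j → ¬ ∀ᶠ ζ in 𝓝 (0 : ℂ), P i ζ = P j ζ
  der : ∀ i, ∀ z ∈ Sec δ r, HasDerivAt (fun z => P i (rt N z)) (ff N p i z) z
  u_im : 0 < u.im
  ρ_inj : Function.Injective ρ
  sign : ∀ z ∈ Sec δ r, ∀ i j, ρ j < ρ i → 0 < (u * (p i (rt N z) - p j (rt N z))).re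
  v_cont : ContinuousOn v (Sec δ r)
  v_zero : Tendsto v (𝓝[Sec δ r] 0) (𝓝 0)
  pot : ∀ (a b : ℝ) (γ γ' : ℝ → ℂ) (g : ℝ → ℝ), a ≤ b → (∀ t ∈ Icc a b, γ t ∈ Sec δ r) →
        (∀ t ∈ Icc a b, HasDerivWithinAt γ (γ' t) (Icc a b) t) →
        ContinuousOn γ' (Icc a b) → ContinuousOn g (Icc a b) →
        ((∀ t ∈ Ioo a b, ∀ l ∈ Act μ (Sec δ r) (ff N p) (γ t),
            g t ≤ (γ' t * ff N p l (γ t)).re) →
          ∫ t in a..b, g t ≤ v (γ b) - v (γ a)) ∧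
        ((∀ t ∈ Ioo a b, ∀ l ∈ Act μ (Sec δ r) (ff N p) (γ t),
            (γ' t * ff N p l (γ t)).re ≤ g t) →
          v (γ b) - v (γ a) ≤ ∫ t in a..b, g t)

/-- (P5) existence of good data -/
def ExistsGD : Prop :=
  ∀ (ι : Type) [Finite ι] (μ : Measure ℂ) [IsFiniteMeasure μ] (N : ℕ) (p : ι → ℂ → ℂ) (δ r : ℝ),
    Data ι μ N p δ r → (∀ i, AnalyticAt ℂ (p i) 0 ∧ p i 0 = 0) →
    ∃ (P : ι → ℂ → ℂ) (δ' r' : ℝ) (v : ℂ → ℝ) (u : ℂ) (ρ : ι → ℝ), δ' ≤ δ ∧ r' ≤ r ∧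
      GD ι μ N p P δ' r' v u ρ

/-- (P6) behaviour along an analytic curve entering `0`: near `0` all active indices have the same
potential along the curve, and it is `v` -/
def CurveClass : Prop :=
  ∀ (ι : Type) [Finite ι] (μ : Measure ℂ) [IsFiniteMeasure μ] (N : ℕ) (p P : ι → ℂ → ℂ) (δ r : ℝ)
    (v : ℂ → ℝ) (u : ℂ) (ρ : ι → ℝ), GD ι μ N p P δ r v u ρ →
    ∀ Z : ℂ → ℂ, AnalyticAt ℂ Z 0 → Z 0 = 0 → deriv Z 0 ≠ 0 → N * |Complex.arg (deriv Z 0)| < δ →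
    ∃ t₁ > 0, (∀ t : ℝ, t ∈ Ioo 0 t₁ → Z t ^ N ∈ Sec δ r ∧ rt N (Z t ^ N) = Z t) ∧
      (∀ t : ℝ, t ∈ Ioo 0 t₁ → ∀ l ∈ Act μ (Sec δ r) (ff N p) (Z t ^ N),
        v (Z t ^ N) = hh N P l (Z t ^ N)) ∧
      (∀ t t' s : ℝ, t ∈ Ioo 0 t₁ → t' ∈ Ioo 0 t₁ → s ∈ Ioo 0 t₁ →
        ∀ l ∈ Act μ (Sec δ r) (ff N p) (Z t ^ N), ∀ l' ∈ Act μ (Sec δ r) (ff N p) (Z t' ^ N),
        hh N P l (Z s ^ N) = hh N P l' (Z s ^ N))

end Pool.Agent.J6H15.AC
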