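import Mathlib
import Pool.Agent.J6H15.AC.Defs3
import Pool.Agent.J6H15.AC.Cone6

/-!
# Spirals
-/

set_option autoImplicit false

open MeasureTheory Polynomial Metric Set Filter Topology Complex
open Pool.Agent.H586R3.CT (CT)

namespace Pool.Agent.J6H15.AC

variable {ι : Type} [Finite ι] {μ : Measure ℂ} [IsFiniteMeasure μ] {N : ℕ} {p P : ι → ℂ → ℂ}
  {δ r : ℝ} {v : ℂ → ℝ} {u : ℂ} {ρ : ι → ℝ}

section
omit [Finite ι] [IsFiniteMeasure μ]

lemma GD.hh_deriv (h : GD ι μ N p P δ r v u ρ) (i : ι) {γ : ℝ → ℂ} {γ' : ℂ} {s : Set ℝ} {t : ℝ}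
    (ht : γ t ∈ Sec δ r) (hγ : HasDerivWithinAt γ γ' s t) :
    HasDerivWithinAt (fun t => hh N P i (γ t)) (γ' * ff N p i (γ t)).re s t := by
  have h1 := (h.der i (γ t) ht).comp_hasDerivWithinAt t hγ
  have h2 := Complex.reCLM.hasFDerivAt.comp_hasDerivWithinAt t h1
  have e1 : (γ' * ff N p i (γ t)).re = Complex.reCLM (ff N p i (γ t) * γ') := by
    rw [mul_comm]; rfl
  rw [e1]
  exact h2

lemma GD.hh_cont (h : GD ι μ N p P δ r v u ρ) (i : ι) : ContinuousOn (hh N P i) (Sec δ r) := by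
  intro z hz
  exact (Complex.continuous_re.continuousAt.comp (h.der i z hz).continuousAt).continuousWithinAt

lemma GD.integral_ff (h : GD ι μ N p P δ r v u ρ) (j : ι) {a b : ℝ} (hab : a ≤ b)
    {γ γ' : ℝ → ℂ} (hγS : ∀ t ∈ Icc a b, γ t ∈ Sec δ r)
    (hγ : ∀ t ∈ Icc a b, HasDerivWithinAt γ (γ' t) (Icc a b) t)
    (hγc : ContinuousOn γ' (Icc a b)) :
    ContinuousOn (fun t => (γ' t * ff N p j (γ t)).re) (Icc a b) ∧
      ∫ t in a..b, (γ' t * ff N p j (γ t)).re = hh N P j (γ b) - hh N P j (γ a) := by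
  have hcont : ContinuousOn γ (Icc a b) := fun t ht => (hγ t ht).continuousWithinAt
  have h1 : ContinuousOn (fun t => (γ' t * ff N p j (γ t)).re) (Icc a b) := by
    apply Complex.continuous_re.comp_continuousOn
    apply hγc.mul
    exact (h.sys.hol j).continuousOn.comp hcont hγS
  refine ⟨h1, ?_⟩
  apply intervalIntegral.integral_eq_sub_of_hasDerivAt_of_le hab
    (f := fun t => hh N P j (γ t))
  · exact (h.hh_cont j).comp hcont hγS
  · intro t ht
    exact (h.hh_deriv j (hγS t (Ioo_subset_Icc_self ht)) (hγ t (Ioo_subset_Icc_self ht))).hasDerivAt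
      (Icc_mem_nhds ht.1 ht.2)
  · exact (h1.mono (by rw [uIcc_of_le hab])).intervalIntegrable

lemma GD.pot_ge (h : GD ι μ N p P δ r v u ρ) (j : ι) {a b : ℝ} (hab : a ≤ b)
    {γ γ' : ℝ → ℂ} (hγS : ∀ t ∈ Icc a b, γ t ∈ Sec δ r)
    (hγ : ∀ t ∈ Icc a b, HasDerivWithinAt γ (γ' t) (Icc a b) t)
    (hγc : ContinuousOn γ' (Icc a b))
    (hle : ∀ t ∈ Ioo a b, ∀ l ∈ Act μ (Sec δ r) (ff N p) (γ t),
      (γ' t * ff N p j (γ t)).re ≤ (γ' t * ff N p l (γ t)).re) :
    hh N P j (γ b) - hh N P j (γ a) ≤ v (γ b) - v (γ a) := by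
  obtain ⟨h1, h2⟩ := h.integral_ff j hab hγS hγ hγc
  rw [← h2]
  exact (h.pot a b γ γ' _ hab hγS hγ hγc h1).1 hle

lemma GD.pot_le (h : GD ι μ N p P δ r v u ρ) (j : ι) {a b : ℝ} (hab : a ≤ b)
    {γ γ' : ℝ → ℂ} (hγS : ∀ t ∈ Icc a b, γ t ∈ Sec δ r)
    (hγ : ∀ t ∈ Icc a b, HasDerivWithinAt γ (γ' t) (Icc a b) t)
    (hγc : ContinuousOn γ' (Icc a b))
    (hle : ∀ t ∈ Ioo a b, ∀ l ∈ Act μ (Sec δ r) (ff N p) (γ t),
      (γ' t * ff N p l (γ t)).re ≤ (γ' t * ff N p j (γ t)).re) :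
    v (γ b) - v (γ a) ≤ hh N P j (γ b) - hh N P j (γ a) := by
  obtain ⟨h1, h2⟩ := h.integral_ff j hab hγS hγ hγc
  rw [← h2]
  exact (h.pot a b γ γ' _ hab hγS hγ hγc h1).2 hle

/-- if only `j` is active along a curve, `v` increases like the potential of `j` -/
lemma GD.pot_eq (h : GD ι μ N p P δ r v u ρ) (j : ι) {a b : ℝ} (hab : a ≤ b)
    {γ γ' : ℝ → ℂ} (hγS : ∀ t ∈ Icc a b, γ t ∈ Sec δ r)
    (hγ : ∀ t ∈ Icc a b, HasDerivWithinAt γ (γ' t) (Icc a b) t)
    (hγc : ContinuousOn γ' (Icc a b))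
    (hle : ∀ t ∈ Ioo a b, Act μ (Sec δ r) (ff N p) (γ t) ⊆ {j}) :
    v (γ b) - v (γ a) = hh N P j (γ b) - hh N P j (γ a) := by
  apply le_antisymm
  · apply h.pot_le j hab hγS hγ hγc
    intro t ht l hl
    have := hle t ht hl
    rw [mem_singleton_iff] at this
    rw [this]
  · apply h.pot_ge j hab hγS hγ hγc
    intro t ht l hl
    have := hle t ht hl
    rw [mem_singleton_iff] at this
    rw [this]

/-- the spiral through `x` -/
noncomputable def sp (x u : ℂ) (t : ℝ) : ℂ := x * Complex.exp (t * u)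

lemma sp_deriv (x u : ℂ) (t : ℝ) : HasDerivAt (sp x u) (u * sp x u t) t := by
  have h1 : HasDerivAt (fun t : ℝ => (t : ℂ) * u) (1 * u) t :=
    (Complex.ofRealCLM.hasDerivAt (x := t)).mul_const u
  have h2 := (h1.cexp).const_mul x
  refine h2.congr_deriv ?_
  unfold sp
  ring

lemma sp_deriv_cont (x u : ℂ) : Continuous (fun t => u * sp x u t) := by
  unfold sp
  fun_prop

lemma sp_cont (x u : ℂ) : Continuous (sp x u) := by
  unfold sp
  fun_prop

lemma sec_ne_zero {δ r : ℝ} {z : ℂ} (hz : z ∈ Sec δ r) : z ≠ 0 := norm_pos_iff.1 hz.1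

lemma GD.sign' (h : GD ι μ N p P δ r v u ρ) {z : ℂ} (hz : z ∈ Sec δ r) {i j : ι} (hij : ρ j < ρ i) :
    (u * z * ff N p j z).re < (u * z * ff N p i z).re := by
  have h1 := h.sign z hz i j hij
  have hz0 := sec_ne_zero hz
  have e1 : ∀ l, u * z * ff N p l z = u * p l (rt N z) := by
    intro l
    unfold ff
    field_simp
  rw [e1, e1]
  rw [mul_sub, Complex.sub_re] at h1
  linarith

lemma GD.sign'' (h : GD ι μ N p P δ r v u ρ) {z : ℂ} (hz : z ∈ Sec δ r) {i j : ι}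
    (hij : ρ j ≤ ρ i) : (u * z * ff N p j z).re ≤ (u * z * ff N p i z).re := by
  rcases eq_or_lt_of_le hij with h1 | h1
  · rw [h.ρ_inj h1]
  · exact (h.sign' hz h1).le

lemma GD.sp_ge (h : GD ι μ N p P δ r v u ρ) (j : ι) {a b : ℝ} (hab : a ≤ b) {x : ℂ}
    (hS : ∀ t ∈ Icc a b, sp x u t ∈ Sec δ r)
    (hle : ∀ t ∈ Ioo a b, ∀ l ∈ Act μ (Sec δ r) (ff N p) (sp x u t), ρ j ≤ ρ l) :
    hh N P j (sp x u b) - hh N P j (sp x u a) ≤ v (sp x u b) - v (sp x u a) :=
  h.pot_ge j hab hS (fun t _ => (sp_deriv x u t).hasDerivWithinAt) (sp_deriv_cont x u).continuousOn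
    (fun t ht l hl => h.sign'' (hS t (Ioo_subset_Icc_self ht)) (hle t ht l hl))

lemma GD.sp_le (h : GD ι μ N p P δ r v u ρ) (j : ι) {a b : ℝ} (hab : a ≤ b) {x : ℂ}
    (hS : ∀ t ∈ Icc a b, sp x u t ∈ Sec δ r)
    (hle : ∀ t ∈ Ioo a b, ∀ l ∈ Act μ (Sec δ r) (ff N p) (sp x u t), ρ l ≤ ρ j) :
    v (sp x u b) - v (sp x u a) ≤ hh N P j (sp x u b) - hh N P j (sp x u a) :=
  h.pot_le j hab hS (fun t _ => (sp_deriv x u t).hasDerivWithinAt) (sp_deriv_cont x u).continuousOn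
    (fun t ht l hl => h.sign'' (hS t (Ioo_subset_Icc_self ht)) (hle t ht l hl))

/-- the difference of the potentials of two indices is strictly increasing along spirals -/
lemma GD.sp_strict (h : GD ι μ N p P δ r v u ρ) {i j : ι} (hij : ρ j < ρ i) {a b : ℝ} (hab : a < b)
    {x : ℂ} (hS : ∀ t ∈ Icc a b, sp x u t ∈ Sec δ r) :
    hh N P i (sp x u a) - hh N P j (sp x u a) < hh N P i (sp x u b) - hh N P j (sp x u b) := by
  have hd : ∀ t ∈ Icc a b, HasDerivWithinAt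
      (fun t => hh N P i (sp x u t) - hh N P j (sp x u t))
      ((u * sp x u t * ff N p i (sp x u t)).re - (u * sp x u t * ff N p j (sp x u t)).re)
      (Icc a b) t := fun t ht =>
    (h.hh_deriv i (hS t ht) (sp_deriv x u t).hasDerivWithinAt).sub
      (h.hh_deriv j (hS t ht) (sp_deriv x u t).hasDerivWithinAt)
  have hmono : StrictMonoOn (fun t => hh N P i (sp x u t) - hh N P j (sp x u t)) (Icc a b) := by
    apply strictMonoOn_of_deriv_pos (convex_Icc a b)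
    · exact fun t ht => (hd t ht).continuousWithinAt
    · intro t ht
      rw [interior_Icc] at ht
      rw [((hd t (Ioo_subset_Icc_self ht)).hasDerivAt (Icc_mem_nhds ht.1 ht.2)).deriv]
      exact sub_pos.2 (h.sign' (hS t (Ioo_subset_Icc_self ht)) hij)
  exact hmono (left_mem_Icc.2 hab.le) (right_mem_Icc.2 hab.le) hab

end

/-- monotonicity of the active indices along spirals -/
lemma GD.sp_mono (h : GD ι μ N p P δ r v u ρ) {a b : ℝ} (hab : a < b) {x : ℂ}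
    (hS : ∀ t ∈ Icc a b, sp x u t ∈ Sec δ r) {k l : ι}
    (hk : k ∈ Act μ (Sec δ r) (ff N p) (sp x u a)) (hl : l ∈ Act μ (Sec δ r) (ff N p) (sp x u b)) :
    ρ k ≤ ρ l := by
  have h1 := coneThm ι μ (Sec δ r) (ff N p) h.sys {i | ρ k ≤ ρ i} a b (sp x u)
    (fun t => u * sp x u t) hab hS (fun t _ => (sp_deriv x u t).hasDerivWithinAt) (by
      intro t ht i hi j hj
      simp only [mem_setOf_eq, not_le] at hi hj
      have := h.sign' (hS t ht) (hj.trans_le hi)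
      rw [mul_sub, Complex.sub_re]
      linarith) ⟨k, le_refl (ρ k), hk⟩
  exact h1 hl

lemma GD.sp_mono' (h : GD ι μ N p P δ r v u ρ) {a b s t : ℝ} {x : ℂ}
    (hS : ∀ t ∈ Icc a b, sp x u t ∈ Sec δ r) (hs : s ∈ Icc a b) (ht : t ∈ Icc a b) (hst : s < t)
    {k l : ι} (hk : k ∈ Act μ (Sec δ r) (ff N p) (sp x u s))
    (hl : l ∈ Act μ (Sec δ r) (ff N p) (sp x u t)) : ρ k ≤ ρ l :=
  h.sp_mono hst (fun w hw => hS w ⟨hs.1.trans hw.1, hw.2.trans ht.2⟩) hk hl

/-- between two points of a spiral at which the potential is the one of the active indices, and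
with no crossing of potentials in between, at most one index is active at every point -/
lemma GD.spiral_gap (h : GD ι μ N p P δ r v u ρ) {a b : ℝ} (hab : a < b) {x : ℂ}
    (hS : ∀ t ∈ Icc a b, sp x u t ∈ Sec δ r)
    (hVa : ∀ l ∈ Act μ (Sec δ r) (ff N p) (sp x u a), v (sp x u a) = hh N P l (sp x u a))
    (hVb : ∀ l ∈ Act μ (Sec δ r) (ff N p) (sp x u b), v (sp x u b) = hh N P l (sp x u b))
    (hno : ∀ t ∈ Ioo a b, ∀ i j, i ≠ j → hh N P i (sp x u t) ≠ hh N P j (sp x u t)) :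
    ∀ t ∈ Ioo a b, (Act μ (Sec δ r) (ff N p) (sp x u t)).Subsingleton := by
  intro t ht
  have hta : t ∈ Icc a b := Ioo_subset_Icc_self ht
  have haI : a ∈ Icc a b := left_mem_Icc.2 hab.le
  have hbI : b ∈ Icc a b := right_mem_Icc.2 hab.le
  have key : ∀ i k, i ∈ Act μ (Sec δ r) (ff N p) (sp x u t) →
      k ∈ Act μ (Sec δ r) (ff N p) (sp x u t) → ¬ ρ i < ρ k := by
    intro i k hi hk hik
    obtain ⟨j, hj, hjmax⟩ := Set.exists_max_image _ ρ
      (Set.toFinite (Act μ (Sec δ r) (ff N p) (sp x u a))) (h.sys.act_nonempty (hS a haI))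
    obtain ⟨j', hj', hj'min⟩ := Set.exists_min_image _ ρ
      (Set.toFinite (Act μ (Sec δ r) (ff N p) (sp x u b))) (h.sys.act_nonempty (hS b hbI))
    have hji : ρ j ≤ ρ i := h.sp_mono' hS haI hta ht.1 hj hi
    have hkj' : ρ k ≤ ρ j' := h.sp_mono' hS hta hbI ht.2 hk hj'
    have hS1 : ∀ w ∈ Icc a t, sp x u w ∈ Sec δ r := fun w hw => hS w ⟨hw.1, hw.2.trans ht.2.le⟩
    have hS2 : ∀ w ∈ Icc t b, sp x u w ∈ Sec δ r := fun w hw => hS w ⟨ht.1.le.trans hw.1, hw.2⟩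
    -- upper bound
    have u1 := h.sp_le i ht.1.le hS1 (fun w hw l hl =>
      h.sp_mono' hS ⟨hw.1.le, hw.2.le.trans ht.2.le⟩ hta hw.2 hl hi)
    have u2 := h.sp_le j' ht.2.le hS2 (fun w hw l hl =>
      h.sp_mono' hS ⟨ht.1.le.trans hw.1.le, hw.2.le⟩ hbI hw.2 hl hj')
    have u3 := h.sp_strict (hik.trans_le hkj') ht.1 hS1
    -- lower bound
    have l1 := h.sp_ge j ht.1.le hS1 (fun w hw l hl =>
      h.sp_mono' hS haI ⟨hw.1.le, hw.2.le.trans ht.2.le⟩ hw.1 hj hl)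
    have l2 := h.sp_ge k ht.2.le hS2 (fun w hw l hl =>
      h.sp_mono' hS hta ⟨ht.1.le.trans hw.1.le, hw.2.le⟩ hw.1 hk hl)
    have l3 := h.sp_strict (hji.trans_lt hik) ht.2 hS2
    have va := hVa j hj
    have vb := hVb j' hj'
    have hneg : hh N P j' (sp x u a) - hh N P j (sp x u a) < 0 := by linarith
    have hpos : 0 < hh N P j' (sp x u b) - hh N P j (sp x u b) := by linarith
    have hcont : ContinuousOn (fun w => hh N P j' (sp x u w) - hh N P j (sp x u w)) (Icc a b) :=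
      ((h.hh_cont j').comp (sp_cont x u).continuousOn hS).sub
        ((h.hh_cont j).comp (sp_cont x u).continuousOn hS)
    obtain ⟨w, hw, hw0⟩ := intermediate_value_Ioo hab.le hcont ⟨hneg, hpos⟩
    apply hno w hw j' j
    · rintro rfl
      exact absurd (hji.trans_lt (hik.trans_le hkj')) (lt_irrefl _)
    · exact sub_eq_zero.1 hw0
  intro i hi k hk
  by_contra hne
  rcases lt_or_gt_of_ne (fun hh => hne (h.ρ_inj hh)) with h1 | h1
  · exact key i k hi hk h1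
  · exact key k i hk hi h1

/-- support points on a spiral are crossing points -/
lemma GD.spiral_main (h : GD ι μ N p P δ r v u ρ) {a b : ℝ} {x : ℂ}
    (hS : ∀ t ∈ Icc a b, sp x u t ∈ Sec δ r)
    (hVa : ∀ l ∈ Act μ (Sec δ r) (ff N p) (sp x u a), v (sp x u a) = hh N P l (sp x u a))
    (hVb : ∀ l ∈ Act μ (Sec δ r) (ff N p) (sp x u b), v (sp x u b) = hh N P l (sp x u b))
    (hV : ∀ t ∈ Ioo a b, (∃ i j, i ≠ j ∧ hh N P i (sp x u t) = hh N P j (sp x u t)) →
      ∀ l ∈ Act μ (Sec δ r) (ff N p) (sp x u t), v (sp x u t) = hh N P l (sp x u t)) :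
    ∀ t ∈ Ioo a b, sp x u t ∈ μ.support →
      ∃ i j, i ≠ j ∧ hh N P i (sp x u t) = hh N P j (sp x u t) := by
  intro t ht hts
  by_contra hcon
  set X : Set ℝ := {a} ∪ {b} ∪ ⋃ i, ⋃ j, ⋃ (_ : i ≠ j),
    (Icc a b ∩ (fun w => hh N P i (sp x u w) - hh N P j (sp x u w)) ⁻¹' {0}) with hX
  have hab : a < b := ht.1.trans ht.2
  have hXcl : IsClosed X := by
    apply IsClosed.union (isClosed_singleton.union isClosed_singleton)
    apply isClosed_iUnion_of_finite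
    intro i
    apply isClosed_iUnion_of_finite
    intro j
    by_cases hij : i = j
    · simp [hij]
    · simp only [ne_eq, hij, not_false_eq_true, iUnion_true]
      exact (((h.hh_cont i).comp (sp_cont x u).continuousOn hS).sub
        ((h.hh_cont j).comp (sp_cont x u).continuousOn hS)).preimage_isClosed_of_isClosed
        isClosed_Icc isClosed_singleton
  have hXsub : X ⊆ Icc a b := by
    rintro w ((hw | hw) | hw)
    · rw [mem_singleton_iff] at hw; rw [hw]; exact left_mem_Icc.2 hab.le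
    · rw [mem_singleton_iff] at hw; rw [hw]; exact right_mem_Icc.2 hab.le
    · simp only [mem_iUnion] at hw
      obtain ⟨i, j, _, hw, _⟩ := hw
      exact hw
  have htX : t ∉ X := by
    rintro ((hw | hw) | hw)
    · rw [mem_singleton_iff] at hw; exact ht.1.ne' hw
    · rw [mem_singleton_iff] at hw; exact ht.2.ne hw
    · simp only [mem_iUnion] at hw
      obtain ⟨i, j, hij, _, hw⟩ := hw
      exact hcon ⟨i, j, hij, sub_eq_zero.1 hw⟩
  have hXV : ∀ w ∈ X, ∀ l ∈ Act μ (Sec δ r) (ff N p) (sp x u w),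
      v (sp x u w) = hh N P l (sp x u w) := by
    intro w hw
    have hwI := hXsub hw
    by_cases hwa : w = a
    · rw [hwa]; exact hVa
    by_cases hwb : w = b
    · rw [hwb]; exact hVb
    rcases hw with (hw | hw) | hw
    · exact absurd hw hwa
    · exact absurd hw hwb
    · simp only [mem_iUnion] at hw
      obtain ⟨i, j, hij, _, hw⟩ := hw
      exact hV w ⟨lt_of_le_of_ne hwI.1 (Ne.symm hwa), lt_of_le_of_ne hwI.2 hwb⟩
        ⟨i, j, hij, sub_eq_zero.1 hw⟩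
  have haX : a ∈ X := Or.inl (Or.inl rfl)
  have hbX : b ∈ X := Or.inl (Or.inr rfl)
  obtain ⟨t₁, ht₁, hmax⟩ := (isCompact_Icc.inter_left hXcl : IsCompact (X ∩ Icc a t)).exists_isGreatest
    ⟨a, haX, left_mem_Icc.2 ht.1.le⟩
  obtain ⟨t₂, ht₂, hmin⟩ := (isCompact_Icc.inter_left hXcl : IsCompact (X ∩ Icc t b)).exists_isLeast
    ⟨b, hbX, right_mem_Icc.2 ht.2.le⟩
  have h1 : t₁ < t := lt_of_le_of_ne ht₁.2.2 (by rintro rfl; exact htX ht₁.1)
  have h2 : t < t₂ := lt_of_le_of_ne ht₂.2.1 (by rintro rfl; exact htX ht₂.1)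
  have hS' : ∀ w ∈ Icc t₁ t₂, sp x u w ∈ Sec δ r := fun w hw =>
    hS w ⟨ht₁.2.1.trans hw.1, hw.2.trans ht₂.2.2⟩
  have hgap := h.spiral_gap (h1.trans h2) hS' (hXV t₁ ht₁.1) (hXV t₂ ht₂.1) (by
    intro w hw i j hij heq
    have hwX : w ∈ X := by
      right
      simp only [mem_iUnion]
      exact ⟨i, j, hij, ⟨ht₁.2.1.trans hw.1.le, hw.2.le.trans ht₂.2.2⟩, sub_eq_zero.2 heq⟩
    rcases le_total w t with h3 | h3
    · have := hmax ⟨hwX, (hXsub hwX).1, h3⟩
      exact absurd hw.1 (not_lt.2 this)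
    · have := hmin ⟨hwX, h3, (hXsub hwX).2⟩
      exact absurd hw.2 (not_lt.2 this)) t ⟨h1, h2⟩
  exact (h.sys.mem_support_iff (hS t (Ioo_subset_Icc_self ht))).1 hts hgap

end Pool.Agent.J6H15.AC
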