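import Mathlib
import Pool.Agent.J6H15.AC.GD1

/-!
# A curve of one class is contained in the support or disjoint from it
-/

set_option autoImplicit false

open MeasureTheory Polynomial Metric Set Filter Topology Complex
open Pool.Agent.H586R3.CT (CT)

namespace Pool.Agent.J6H15.AC

variable {ι : Type} [Finite ι] {μ : Measure ℂ} [IsFiniteMeasure μ] {N : ℕ} {p P : ι → ℂ → ℂ}
  {δ r : ℝ} {v : ℂ → ℝ} {u : ℂ} {ρ : ι → ℝ}

lemma Sec_isOpen_of_sys {U : Set ℂ} {f : ι → ℂ → ℂ} (h : Sys ι μ U f) : IsOpen U := h.op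

omit [IsFiniteMeasure μ] [Finite ι] in
lemma sp_zero (x u : ℂ) : sp x u 0 = x := by simp [sp]

/-- a small two-sided piece of the spirals near `x₀` -/
lemma exists_eta (x₀ u : ℂ) {R : ℝ} (hR : 0 < R) : ∃ η > 0, ∃ κ > 0, ∀ x ∈ ball x₀ κ,
    ∀ t ∈ Icc (-η) η, sp x u t ∈ ball x₀ R := by
  have h1 : Continuous (fun q : ℂ × ℝ => sp q.1 u q.2) := by
    unfold sp
    fun_prop
  have h2 : ∀ᶠ q : ℂ × ℝ in 𝓝 (x₀, 0), sp q.1 u q.2 ∈ ball x₀ R := by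
    have h3 : Tendsto (fun q : ℂ × ℝ => sp q.1 u q.2) (𝓝 (x₀, 0)) (𝓝 (sp x₀ u 0)) := h1.tendsto _
    rw [sp_zero] at h3
    exact h3 (ball_mem_nhds _ hR)
  obtain ⟨ε, hε, h4⟩ := Metric.eventually_nhds_iff_ball.1 h2
  refine ⟨ε / 2, by positivity, ε, hε, fun x hx t ht => ?_⟩
  apply h4 (x, t)
  rw [← ball_prod_same]
  refine ⟨hx, ?_⟩
  rw [mem_ball, Real.dist_eq, sub_zero, abs_lt]
  constructor <;> linarith [ht.1, ht.2]

omit [IsFiniteMeasure μ] [Finite ι] in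
lemma GD.pot_eq' (h : GD ι μ N p P δ r v u ρ) (j : ι) {a b : ℝ}
    {γ γ' : ℝ → ℂ} (hγS : ∀ t ∈ uIcc a b, γ t ∈ Sec δ r)
    (hγ : ∀ t ∈ uIcc a b, HasDerivAt γ (γ' t) t)
    (hγc : ContinuousOn γ' (uIcc a b))
    (hle : ∀ t ∈ uIcc a b, Act μ (Sec δ r) (ff N p) (γ t) ⊆ {j}) :
    v (γ b) - v (γ a) = hh N P j (γ b) - hh N P j (γ a) := by
  rcases le_total a b with hab | hab
  · rw [uIcc_of_le hab] at hγS hγ hγc hle
    exact h.pot_eq j hab hγS (fun t ht => (hγ t ht).hasDerivWithinAt) hγc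
      (fun t ht => hle t (Ioo_subset_Icc_self ht))
  · rw [uIcc_of_ge hab] at hγS hγ hγc hle
    have := h.pot_eq j hab hγS (fun t ht => (hγ t ht).hasDerivWithinAt) hγc
      (fun t ht => hle t (Ioo_subset_Icc_self ht))
    linarith

/-- openness -/
lemma GD.support_open (h : GD ι μ N p P δ r v u ρ) {t₁ : ℝ} {γ γ' : ℝ → ℂ}
    (hγS : ∀ t ∈ Ioo 0 t₁, γ t ∈ Sec δ r) (hγ : ∀ t ∈ Ioo 0 t₁, HasDerivAt γ (γ' t) t)
    (hγc : ContinuousOn γ' (Ioo 0 t₁))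
    (hV : ∀ t ∈ Ioo 0 t₁, ∀ l ∈ Act μ (Sec δ r) (ff N p) (γ t), v (γ t) = hh N P l (γ t))
    (hC : ∀ t ∈ Ioo 0 t₁, ∀ t' ∈ Ioo 0 t₁, ∀ s ∈ Ioo 0 t₁,
      ∀ l ∈ Act μ (Sec δ r) (ff N p) (γ t), ∀ l' ∈ Act μ (Sec δ r) (ff N p) (γ t'),
        hh N P l (γ s) = hh N P l' (γ s)) {t₀ : ℝ} (ht₀ : t₀ ∈ Ioo 0 t₁)
    (hsupp : γ t₀ ∈ μ.support) : ∃ ε > 0, ∀ s ∈ ball t₀ ε, s ∈ Ioo 0 t₁ ∧ γ s ∈ μ.support := by
  set A : ℂ → Set ι := Act μ (Sec δ r) (ff N p) with hA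
  have hx₀ : γ t₀ ∈ Sec δ r := hγS t₀ ht₀
  obtain ⟨l₁, hl₁, hl₁min⟩ := Set.exists_min_image _ ρ (Set.toFinite (A (γ t₀)))
    (h.sys.act_nonempty hx₀)
  obtain ⟨l₂, hl₂, hl₂max⟩ := Set.exists_max_image _ ρ (Set.toFinite (A (γ t₀)))
    (h.sys.act_nonempty hx₀)
  have h12 : l₁ ≠ l₂ := by
    rintro rfl
    apply (h.sys.mem_support_iff hx₀).1 hsupp
    intro i hi j hj
    apply h.ρ_inj
    have := hl₁min i hi
    have := hl₂max i hi
    have := hl₁min j hj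
    have := hl₂max j hj
    linarith
  -- a ball about `γ t₀`
  obtain ⟨R₁, hR₁, husc⟩ := act_usc (μ := μ) (U := Sec δ r) (f := ff N p) (γ t₀)
  obtain ⟨R₂, hR₂, hsec⟩ := Metric.isOpen_iff.1 h.sys.op (γ t₀) hx₀
  set R := min R₁ R₂ with hR
  have hR0 : 0 < R := lt_min hR₁ hR₂
  obtain ⟨η, hη, κ, hκ, hsp⟩ := exists_eta (γ t₀) u hR0
  have hspS : ∀ x ∈ ball (γ t₀) κ, ∀ t ∈ Icc (-η) η, sp x u t ∈ Sec δ r := fun x hx t ht =>
    hsec (ball_subset_ball (min_le_right _ _) (hsp x hx t ht))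
  have hspA : ∀ x ∈ ball (γ t₀) κ, ∀ t ∈ Icc (-η) η, A (sp x u t) ⊆ A (γ t₀) := fun x hx t ht =>
    husc _ (ball_subset_ball (min_le_left _ _) (hsp x hx t ht))
  have h0I : (0 : ℝ) ∈ Icc (-η) η := ⟨by linarith, hη.le⟩
  have hself : γ t₀ ∈ ball (γ t₀) κ := mem_ball_self hκ
  -- the indices on the spiral through `γ t₀`
  have hminus : ∀ t ∈ Ico (-η) 0, A (sp (γ t₀) u t) ⊆ {l₁} := by
    intro t ht k hk
    have h1 := hspA _ hself t ⟨ht.1, by linarith [ht.2]⟩ hk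
    have h2 := hl₁min k h1
    have h3 : ρ k ≤ ρ l₁ := by
      apply h.sp_mono' (hspS _ hself) ⟨ht.1, by linarith [ht.2]⟩ h0I ht.2 hk
      rw [sp_zero]
      exact hl₁
    exact h.ρ_inj (le_antisymm h3 h2)
  have hplus : ∀ t ∈ Ioc 0 η, A (sp (γ t₀) u t) ⊆ {l₂} := by
    intro t ht k hk
    have h1 := hspA _ hself t ⟨by linarith [ht.1], ht.2⟩ hk
    have h2 := hl₂max k h1
    have h3 : ρ l₂ ≤ ρ k := by
      apply h.sp_mono' (hspS _ hself) h0I ⟨by linarith [ht.1], ht.2⟩ ht.1 _ hk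
      rw [sp_zero]
      exact hl₂
    exact h.ρ_inj (le_antisymm h2 h3)
  -- the potential at the end points
  have hvm : v (sp (γ t₀) u (-η)) = hh N P l₁ (sp (γ t₀) u (-η)) := by
    have h1 := h.pot_eq l₁ (a := -η) (b := 0) (by linarith) (γ := sp (γ t₀) u)
      (fun t ht => hspS _ hself t ⟨ht.1, by linarith [ht.2]⟩)
      (fun t _ => (sp_deriv (γ t₀) u t).hasDerivWithinAt) (sp_deriv_cont (γ t₀) u).continuousOn
      (fun t ht => hminus t ⟨ht.1.le, ht.2⟩)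
    rw [sp_zero] at h1
    have h2 := hV t₀ ht₀ l₁ hl₁
    linarith
  have hvp : v (sp (γ t₀) u η) = hh N P l₂ (sp (γ t₀) u η) := by
    have h1 := h.pot_eq l₂ (a := 0) (b := η) hη.le (γ := sp (γ t₀) u)
      (fun t ht => hspS _ hself t ⟨by linarith [ht.1], ht.2⟩)
      (fun t _ => (sp_deriv (γ t₀) u t).hasDerivWithinAt) (sp_deriv_cont (γ t₀) u).continuousOn
      (fun t ht => hplus t ⟨ht.1, ht.2.le⟩)
    rw [sp_zero] at h1
    have h2 := hV t₀ ht₀ l₂ hl₂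
    linarith
  -- near the end points
  obtain ⟨Rm, hRm, huscm⟩ := act_usc (μ := μ) (U := Sec δ r) (f := ff N p) (sp (γ t₀) u (-η))
  obtain ⟨Rp, hRp, huscp⟩ := act_usc (μ := μ) (U := Sec δ r) (f := ff N p) (sp (γ t₀) u η)
  have hγcont : ContinuousAt γ t₀ := (hγ t₀ ht₀).continuousAt
  have e1 : ∀ᶠ s in 𝓝 t₀, γ s ∈ ball (γ t₀) κ := hγcont (ball_mem_nhds _ hκ)
  have e2 : ∀ᶠ s in 𝓝 t₀, sp (γ s) u (-η) ∈ ball (sp (γ t₀) u (-η)) Rm := by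
    have : ContinuousAt (fun s => sp (γ s) u (-η)) t₀ := hγcont.mul continuousAt_const
    exact this (ball_mem_nhds _ hRm)
  have e3 : ∀ᶠ s in 𝓝 t₀, sp (γ s) u η ∈ ball (sp (γ t₀) u η) Rp := by
    have : ContinuousAt (fun s => sp (γ s) u η) t₀ := hγcont.mul continuousAt_const
    exact this (ball_mem_nhds _ hRp)
  have e4 : ∀ᶠ s in 𝓝 t₀, s ∈ Ioo 0 t₁ := Ioo_mem_nhds ht₀.1 ht₀.2
  obtain ⟨ε, hε, hall⟩ := Metric.eventually_nhds_iff_ball.1 (e1.and (e2.and (e3.and e4)))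
  refine ⟨ε, hε, fun s hs => ⟨(hall s hs).2.2.2, ?_⟩⟩
  have hsub : uIcc t₀ s ⊆ ball t₀ ε := by
    intro w hw
    rw [mem_ball, Real.dist_eq] at hs ⊢
    exact (abs_sub_left_of_mem_uIcc hw).trans_lt (by rwa [abs_sub_comm] at hs ⊢)
  obtain ⟨hs1, hs2, hs3, hs4⟩ := hall s hs
  have hηI : η ∈ Icc (-η) η := ⟨by linarith, le_rfl⟩
  have hmI : -η ∈ Icc (-η) η := ⟨le_rfl, by linarith⟩
  -- potential at the end points of the spiral through `γ s`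
  have hderm : ∀ t ∈ Ioo 0 t₁, ∀ w : ℝ, HasDerivAt (fun t => sp (γ t) u w)
      (γ' t * Complex.exp (w * u)) t := fun t ht w => (hγ t ht).mul_const _
  have hvms : v (sp (γ s) u (-η)) = hh N P l₁ (sp (γ s) u (-η)) := by
    have h1 := h.pot_eq' l₁ (a := t₀) (b := s) (γ := fun t => sp (γ t) u (-η))
      (γ' := fun t => γ' t * Complex.exp ((-η : ℝ) * u))
      (fun t ht => hspS _ (hall t (hsub ht)).1 _ hmI)
      (fun t ht => hderm t (hall t (hsub ht)).2.2.2 (-η))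
      ((hγc.mono fun t ht => (hall t (hsub ht)).2.2.2).mul continuousOn_const)
      (fun t ht => (huscm _ (hall t (hsub ht)).2.1).trans (hminus (-η) ⟨le_rfl, by linarith⟩))
    linarith
  have hvps : v (sp (γ s) u η) = hh N P l₂ (sp (γ s) u η) := by
    have h1 := h.pot_eq' l₂ (a := t₀) (b := s) (γ := fun t => sp (γ t) u η)
      (γ' := fun t => γ' t * Complex.exp ((η : ℝ) * u))
      (fun t ht => hspS _ (hall t (hsub ht)).1 _ hηI)
      (fun t ht => hderm t (hall t (hsub ht)).2.2.2 η)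
      ((hγc.mono fun t ht => (hall t (hsub ht)).2.2.2).mul continuousOn_const)
      (fun t ht => (huscp _ (hall t (hsub ht)).2.2.1).trans (hplus η ⟨hη, le_rfl⟩))
    linarith
  have hxs : γ s ∈ Sec δ r := hγS s hs4
  rw [h.sys.mem_support_iff hxs]
  intro hsubs
  obtain ⟨i, hi⟩ := h.sys.act_nonempty hxs
  have hi' : A (γ s) = {i} := hsubs.eq_singleton_of_mem hi
  have hspSs := hspS (γ s) hs1
  -- near `γ s` only `i` is active
  obtain ⟨Rs, hRs, huscs⟩ := act_usc (μ := μ) (U := Sec δ r) (f := ff N p) (γ s)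
  obtain ⟨η₁, hη₁, κ₁, hκ₁, hsp₁⟩ := exists_eta (γ s) u hRs
  set η₂ := min η₁ (η / 2) with hη₂
  have hη₂0 : 0 < η₂ := lt_min hη₁ (by positivity)
  have hη₂η : η₂ < η := (min_le_right _ _).trans_lt (by linarith)
  have hAi : ∀ t ∈ Icc (-η₂) η₂, A (sp (γ s) u t) ⊆ {i} := by
    intro t ht
    rw [← hi']
    have := min_le_left η₁ (η / 2)
    exact huscs _ (hsp₁ _ (mem_ball_self hκ₁) t ⟨by linarith [ht.1], by linarith [ht.2]⟩)
  have hva : v (γ s) = hh N P i (γ s) := hV s hs4 i hi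
  -- below
  have hi1 : i = l₁ := by
    by_contra hne
    have h1 : ρ l₁ ≤ ρ i := hl₁min i (by
      have := hspA (γ s) hs1 0 h0I
      rw [sp_zero] at this
      exact this hi)
    have h2 : ρ l₁ < ρ i := lt_of_le_of_ne h1 (fun hh => hne (h.ρ_inj hh).symm)
    obtain ⟨k, hk⟩ := h.sys.act_nonempty (hspSs (-η) hmI)
    have hk1 : k = l₁ := (huscm _ hs2).trans (hminus (-η) ⟨le_rfl, by linarith⟩) hk
    rw [hk1] at hk
    have l1 := h.sp_ge l₁ (a := -η) (b := -η₂) (by linarith)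
      (fun t ht => hspSs t ⟨ht.1, by linarith [ht.2]⟩) (fun t ht l hl =>
        h.sp_mono' hspSs hmI ⟨ht.1.le, by linarith [ht.2]⟩ ht.1 hk hl)
    have l2 := h.pot_eq i (a := -η₂) (b := 0) (by linarith) (γ := sp (γ s) u)
      (fun t ht => hspSs t ⟨by linarith [ht.1], by linarith [ht.2]⟩)
      (fun t _ => (sp_deriv (γ s) u t).hasDerivWithinAt) (sp_deriv_cont (γ s) u).continuousOn
      (fun t ht => hAi t ⟨ht.1.le, by linarith [ht.2]⟩)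
    have l3 := h.sp_strict h2 (a := -η₂) (b := 0) (by linarith)
      (x := γ s) (fun t ht => hspSs t ⟨by linarith [ht.1], by linarith [ht.2]⟩)
    have l4 := hC t₀ ht₀ s hs4 s hs4 l₁ hl₁ i hi
    rw [sp_zero] at l2 l3
    linarith
  have hi2 : i = l₂ := by
    by_contra hne
    have h1 : ρ i ≤ ρ l₂ := hl₂max i (by
      have := hspA (γ s) hs1 0 h0I
      rw [sp_zero] at this
      exact this hi)
    have h2 : ρ i < ρ l₂ := lt_of_le_of_ne h1 (fun hh => hne (h.ρ_inj hh))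
    obtain ⟨k, hk⟩ := h.sys.act_nonempty (hspSs η hηI)
    have hk1 : k = l₂ := (huscp _ hs3).trans (hplus η ⟨hη, le_rfl⟩) hk
    rw [hk1] at hk
    have l1 := h.sp_le l₂ (a := η₂) (b := η) (by linarith)
      (fun t ht => hspSs t ⟨by linarith [ht.1], ht.2⟩) (fun t ht l hl =>
        h.sp_mono' hspSs ⟨by linarith [ht.1], ht.2.le⟩ hηI ht.2 hl hk)
    have l2 := h.pot_eq i (a := 0) (b := η₂) (by linarith) (γ := sp (γ s) u)
      (fun t ht => hspSs t ⟨by linarith [ht.1], by linarith [ht.2]⟩)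
      (fun t _ => (sp_deriv (γ s) u t).hasDerivWithinAt) (sp_deriv_cont (γ s) u).continuousOn
      (fun t ht => hAi t ⟨by linarith [ht.1], ht.2.le⟩)
    have l3 := h.sp_strict h2 (a := 0) (b := η₂) (by linarith)
      (x := γ s) (fun t ht => hspSs t ⟨by linarith [ht.1], by linarith [ht.2]⟩)
    have l4 := hC t₀ ht₀ s hs4 s hs4 l₂ hl₂ i hi
    rw [sp_zero] at l2 l3
    linarith
  exact h12 (hi1.symm.trans hi2)

lemma GD.all_or_none (h : GD ι μ N p P δ r v u ρ) {t₁ : ℝ} {γ γ' : ℝ → ℂ}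
    (hγS : ∀ t ∈ Ioo 0 t₁, γ t ∈ Sec δ r) (hγ : ∀ t ∈ Ioo 0 t₁, HasDerivAt γ (γ' t) t)
    (hγc : ContinuousOn γ' (Ioo 0 t₁))
    (hV : ∀ t ∈ Ioo 0 t₁, ∀ l ∈ Act μ (Sec δ r) (ff N p) (γ t), v (γ t) = hh N P l (γ t))
    (hC : ∀ t ∈ Ioo 0 t₁, ∀ t' ∈ Ioo 0 t₁, ∀ s ∈ Ioo 0 t₁,
      ∀ l ∈ Act μ (Sec δ r) (ff N p) (γ t), ∀ l' ∈ Act μ (Sec δ r) (ff N p) (γ t'),
        hh N P l (γ s) = hh N P l' (γ s)) :
    (∀ t ∈ Ioo 0 t₁, γ t ∈ μ.support) ∨ (∀ t ∈ Ioo 0 t₁, γ t ∉ μ.support) := by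
  by_contra hcon
  push Not at hcon
  obtain ⟨⟨a, ha, ha2⟩, ⟨b, hb, hb2⟩⟩ := hcon
  have hO1 : IsOpen {t | t ∈ Ioo 0 t₁ ∧ γ t ∈ μ.support} := by
    rw [Metric.isOpen_iff]
    rintro t ⟨ht, hts⟩
    obtain ⟨ε, hε, h1⟩ := h.support_open hγS hγ hγc hV hC ht hts
    exact ⟨ε, hε, fun s hs => h1 s hs⟩
  have hO2 : IsOpen {t | t ∈ Ioo 0 t₁ ∧ γ t ∉ μ.support} := by
    have hcont : ContinuousOn γ (Ioo 0 t₁) := fun t ht => (hγ t ht).continuousAt.continuousWithinAt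
    exact hcont.isOpen_inter_preimage isOpen_Ioo (Measure.isClosed_support).isOpen_compl
  obtain ⟨t, _, ht1, ht2⟩ := isPreconnected_Ioo (a := (0 : ℝ)) (b := t₁) _ _ hO1 hO2
    (fun t ht => by
      by_cases hts : γ t ∈ μ.support
      · exact Or.inl ⟨ht, hts⟩
      · exact Or.inr ⟨ht, hts⟩) ⟨b, hb, hb, hb2⟩ ⟨a, ha, ha, ha2⟩
  exact ht2.2 ht1.2

end Pool.Agent.J6H15.AC
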