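import Mathlib
import Pool.Agent.J6H15.AC.GD2
import Pool.Agent.J6H59.AC.P1a
import Pool.Agent.J6H59.AC.P1b

/-!
# The local theorem in the good case
-/

set_option autoImplicit false

open MeasureTheory Polynomial Metric Set Filter Topology Complex
open Pool.Agent.H586R3.CT (CT)

namespace Pool.Agent.J6H15.AC

/-! ### elementary facts about the root -/

lemma rt_pow {N : ℕ} (hN : 0 < N) {z : ℂ} (hz : z ≠ 0) : rt N z ^ N = z := by
  unfold rt
  rw [← Complex.exp_nat_mul]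
  have hN' : (N : ℂ) ≠ 0 := by exact_mod_cast hN.ne'
  rw [mul_div_cancel₀ _ hN', Complex.exp_log hz]

lemma rt_ne_zero (N : ℕ) (z : ℂ) : rt N z ≠ 0 := Complex.exp_ne_zero _

lemma arg_rt {N : ℕ} (hN : 0 < N) (z : ℂ) : Complex.arg (rt N z) = Complex.arg z / N := by
  have h1 : (Complex.log z / N).im = Complex.arg z / N := by
    have : (Complex.log z / N) = (Complex.log z) * ((1 / N : ℝ) : ℂ) := by
      push_cast; ring
    rw [this, Complex.im_mul_ofReal, Complex.log_im]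
    ring
  have hN1 : (1 : ℝ) ≤ N := by exact_mod_cast hN
  have hpi := Real.pi_pos
  have h2 : Complex.arg z / N ≤ Real.pi := by
    rw [div_le_iff₀ (by linarith)]
    have := Complex.arg_le_pi z
    nlinarith
  have h3 : -Real.pi < Complex.arg z / N := by
    rw [lt_div_iff₀ (by linarith)]
    have := Complex.neg_pi_lt_arg z
    nlinarith
  have h4 : Complex.log (rt N z) = Complex.log z / N := by
    unfold rt
    apply Complex.log_exp
    · rw [h1]; exact h3
    · rw [h1]; exact h2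
  rw [← Complex.log_im, h4, h1]

lemma norm_rt_pow {N : ℕ} (hN : 0 < N) {z : ℂ} (hz : z ≠ 0) : ‖rt N z‖ ^ N = ‖z‖ := by
  rw [← norm_pow, rt_pow hN hz]

lemma norm_rt_lt {N : ℕ} (hN : 0 < N) {z : ℂ} (hz : z ≠ 0) {R : ℝ} (hR : 0 < R)
    (h : ‖z‖ < R ^ N) : ‖rt N z‖ < R := by
  apply lt_of_pow_lt_pow_left₀ N hR.le
  rw [norm_rt_pow hN hz]
  exact h

/-- the argument along a curve leaving `0` in a direction far from the positive axis -/
lemma arg_far {Z : ℂ → ℂ} (hZ : AnalyticAt ℂ Z 0) (hZ0 : Z 0 = 0) (hZ1 : deriv Z 0 ≠ 0) {α : ℝ}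
    (hα : 0 < α) (hα2 : α < |Complex.arg (deriv Z 0)|) :
    ∀ᶠ t : ℝ in 𝓝[>] 0, α < |Complex.arg (Z t)| := by
  have h1 : HasDerivAt Z (deriv Z 0) 0 := hZ.differentiableAt.hasDerivAt
  have h2 : Tendsto (fun t : ℝ => Z t / t) (𝓝[>] 0) (𝓝 (deriv Z 0)) := by
    have h3 := h1.tendsto_slope
    have h4 : Tendsto (fun t : ℝ => (t : ℂ)) (𝓝[>] 0) (𝓝[≠] 0) := by
      apply tendsto_nhdsWithin_of_tendsto_nhds_of_eventually_within
      · have : Tendsto (fun t : ℝ => (t : ℂ)) (𝓝 0) (𝓝 ((0 : ℝ) : ℂ)) :=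
          Complex.continuous_ofReal.tendsto 0
        rw [Complex.ofReal_zero] at this
        exact this.mono_left nhdsWithin_le_nhds
      · filter_upwards [self_mem_nhdsWithin] with t ht
        simp only [mem_compl_iff, mem_singleton_iff, Complex.ofReal_eq_zero]
        exact ne_of_gt ht
    refine (h3.comp h4).congr fun t => ?_
    simp only [Function.comp, slope_def_field, hZ0, sub_zero]
  have hpi : |Complex.arg (deriv Z 0)| ≤ Real.pi := Complex.abs_arg_le_pi _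
  have h5 : Real.cos |Complex.arg (deriv Z 0)| < Real.cos α :=
    Real.cos_lt_cos_of_nonneg_of_le_pi hα.le hpi hα2
  rw [Real.cos_abs, Complex.cos_arg hZ1] at h5
  have h6 : Tendsto (fun t : ℝ => (Z t / t).re / ‖Z t / t‖) (𝓝[>] 0)
      (𝓝 ((deriv Z 0).re / ‖deriv Z 0‖)) :=
    ((Complex.continuous_re.tendsto _).comp h2).div h2.norm (norm_ne_zero_iff.2 hZ1)
  have h7 : ∀ᶠ t : ℝ in 𝓝[>] 0, Z t / t ≠ 0 := h2.eventually_ne hZ1
  filter_upwards [h6.eventually (gt_mem_nhds h5), h7, self_mem_nhdsWithin] with t ht1 ht2 ht3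
  have ht3' : (0 : ℝ) < t := ht3
  rw [← Complex.cos_arg ht2] at ht1
  have e1 : Complex.arg (Z t) = Complex.arg (Z t / t) := by
    have h8 : Z t = (t : ℂ) * (Z t / t) := by
      have : (t : ℂ) ≠ 0 := by exact_mod_cast ht3'.ne'
      field_simp
    conv_lhs => rw [h8]
    exact Complex.arg_real_mul _ ht3'
  rw [e1]
  by_contra hcon
  rw [not_lt] at hcon
  have hα3 : α ≤ Real.pi := (hα2.le).trans hpi
  have h9 := Real.cos_le_cos_of_nonneg_of_le_pi (abs_nonneg _) hα3 hcon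
  rw [Real.cos_abs] at h9
  exact absurd ht1 (not_lt.2 h9)

lemma curve_smooth {Z : ℂ → ℂ} (hZ : AnalyticAt ℂ Z 0) (N : ℕ) : ∃ ε > 0, ∃ γ' : ℝ → ℂ,
    (∀ t ∈ Ioo (0 : ℝ) ε, HasDerivAt (fun t : ℝ => Z t ^ N) (γ' t) t) ∧
      ContinuousOn γ' (Ioo 0 ε) := by
  obtain ⟨ε, hε, h1⟩ := Metric.eventually_nhds_iff_ball.1 hZ.eventually_analyticAt
  have hball : ∀ t ∈ Ioo (0 : ℝ) ε, (t : ℂ) ∈ ball (0 : ℂ) ε := by
    intro t ht
    rw [mem_ball, dist_zero_right, Complex.norm_real, Real.norm_of_nonneg ht.1.le]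
    exact ht.2
  refine ⟨ε, hε, fun t => N * Z t ^ (N - 1) * deriv Z t, fun t ht => ?_, fun t ht => ?_⟩
  · have h2 := (h1 t (hball t ht)).differentiableAt.hasDerivAt
    have h3 := (h2.pow N).comp_ofReal
    simpa using h3
  · have h2 := h1 t (hball t ht)
    have h3 : ContinuousAt (fun z : ℂ => (N : ℂ) * Z z ^ (N - 1) * deriv Z z) t :=
      (continuousAt_const.mul (h2.continuousAt.pow _)).mul h2.deriv.continuousAt
    have h4 : ContinuousAt (fun t : ℝ => (t : ℂ)) t := Complex.continuous_ofReal.continuousAt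
    exact (ContinuousAt.comp (g := fun z : ℂ => (N : ℂ) * Z z ^ (N - 1) * deriv Z z)
      (f := fun t : ℝ => (t : ℂ)) h3 h4).continuousWithinAt

end Pool.Agent.J6H15.AC
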