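import Mathlib
import Pool.Agent.J6H15.AC.GD3

/-!
# Behaviour along an analytic curve entering `0`
-/

set_option autoImplicit false

open MeasureTheory Polynomial Metric Set Filter Topology Complex
open Pool.Agent.H586R3.CT (CT)

namespace Pool.Agent.J6H15.AC

lemma tendsto_slope_pos {Z : ℂ → ℂ} (hZ : AnalyticAt ℂ Z 0) (hZ0 : Z 0 = 0) :
    Tendsto (fun t : ℝ => Z t / t) (𝓝[>] 0) (𝓝 (deriv Z 0)) := by
  have h1 : HasDerivAt Z (deriv Z 0) 0 := hZ.differentiableAt.hasDerivAt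
  have h3 := h1.tendsto_slope
  have h4 : Tendsto (fun t : ℝ => (t : ℂ)) (𝓝[>] 0) (𝓝[≠] 0) := by
    apply tendsto_nhdsWithin_of_tendsto_nhds_of_eventually_within
    · have : Tendsto (fun t : ℝ => (t : ℂ)) (𝓝 0) (𝓝 ((0 : ℝ) : ℂ)) :=
        Complex.continuous_ofReal.tendsto 0
      rw [Complex.ofReal_zero] at this
      exact this.mono_left nhdsWithin_le_nhds
    · filter_upwards [self_mem_nhdsWithin] with t ht
      simp only [mem_compl_iff, mem_singleton_iff, Complex.ofReal_eq_zero]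
      exact ne_of_gt ht
  refine (h3.comp h4).congr fun t => ?_
  simp only [Function.comp, slope_def_field, hZ0, sub_zero]

lemma arg_near {Z : ℂ → ℂ} (hZ : AnalyticAt ℂ Z 0) (hZ0 : Z 0 = 0) (hZ1 : deriv Z 0 ≠ 0) {α : ℝ}
    (hα : α ≤ Real.pi) (hα2 : |Complex.arg (deriv Z 0)| < α) :
    ∀ᶠ t : ℝ in 𝓝[>] 0, Z t ≠ 0 ∧ |Complex.arg (Z t)| < α := by
  have h2 := tendsto_slope_pos hZ hZ0
  have h5 : Real.cos α < Real.cos |Complex.arg (deriv Z 0)| :=
    Real.cos_lt_cos_of_nonneg_of_le_pi (abs_nonneg _) hα hα2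
  rw [Real.cos_abs, Complex.cos_arg hZ1] at h5
  have h6 : Tendsto (fun t : ℝ => (Z t / t).re / ‖Z t / t‖) (𝓝[>] 0)
      (𝓝 ((deriv Z 0).re / ‖deriv Z 0‖)) :=
    ((Complex.continuous_re.tendsto _).comp h2).div h2.norm (norm_ne_zero_iff.2 hZ1)
  have h7 : ∀ᶠ t : ℝ in 𝓝[>] 0, Z t / t ≠ 0 := h2.eventually_ne hZ1
  filter_upwards [h6.eventually (lt_mem_nhds h5), h7, self_mem_nhdsWithin] with t ht1 ht2 ht3
  have ht3' : (0 : ℝ) < t := ht3
  rw [← Complex.cos_arg ht2] at ht1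
  have e1 : Complex.arg (Z t) = Complex.arg (Z t / t) := by
    have h8 : Z t = (t : ℂ) * (Z t / t) := by
      have : (t : ℂ) ≠ 0 := by exact_mod_cast ht3'.ne'
      field_simp
    conv_lhs => rw [h8]
    exact Complex.arg_real_mul _ ht3'
  refine ⟨fun h => ht2 (by rw [h, zero_div]), ?_⟩
  rw [e1]
  by_contra hcon
  rw [not_lt] at hcon
  have h9 := Real.cos_le_cos_of_nonneg_of_le_pi ((abs_nonneg _).trans hα2.le)
    (Complex.abs_arg_le_pi _) hcon
  rw [Real.cos_abs] at h9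
  exact absurd ht1 (not_lt.2 h9)

lemma rt_of_pow {N : ℕ} (hN : 0 < N) {ζ : ℂ} (hζ : ζ ≠ 0) (h : N * |Complex.arg ζ| < Real.pi) :
    Complex.arg (ζ ^ N) = N * Complex.arg ζ ∧ rt N (ζ ^ N) = ζ := by
  have hNr : (0 : ℝ) < N := by exact_mod_cast hN
  have hN' : (N : ℂ) ≠ 0 := by exact_mod_cast hN.ne'
  have h0 : |N * Complex.arg ζ| < Real.pi := by rwa [abs_mul, abs_of_pos hNr]
  rw [abs_lt] at h0
  have him : ((N : ℂ) * Complex.log ζ).im = N * Complex.arg ζ := by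
    rw [show (N : ℂ) = ((N : ℝ) : ℂ) by norm_cast, Complex.im_ofReal_mul, Complex.log_im]
  have h1 : ζ ^ N = Complex.exp (N * Complex.log ζ) := by
    rw [Complex.exp_nat_mul, Complex.exp_log hζ]
  have h2 : Complex.log (ζ ^ N) = N * Complex.log ζ := by
    rw [h1]
    apply Complex.log_exp
    · rw [him]; exact h0.1
    · rw [him]; exact h0.2.le
  constructor
  · rw [← Complex.log_im, h2, him]
  · unfold rt
    rw [h2, mul_div_cancel_left₀ _ hN', Complex.exp_log hζ]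

theorem curveClass : CurveClass := by
  intro ι _ μ _ N p P δ r v u ρ h Z hZ hZ0 hZ1 harg
  have hN := h.N_pos
  have hNr : (0 : ℝ) < N := by exact_mod_cast hN
  have hpi := Real.pi_gt_three
  have hδ1 := h.δ_lt
  have hδ0 := h.δ_pos
  -- the curve is in the sector
  have hN1 : (1 : ℝ) ≤ N := by exact_mod_cast hN
  have e1 : ∀ᶠ t : ℝ in 𝓝[>] 0, Z t ≠ 0 ∧ |Complex.arg (Z t)| < δ / N := by
    apply arg_near hZ hZ0 hZ1
    · rw [div_le_iff₀ hNr]; nlinarith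
    · rw [lt_div_iff₀ hNr]; linarith
  have hZt : Tendsto (fun t : ℝ => Z t) (𝓝[>] 0) (𝓝 0) := by
    have h3 : ContinuousAt Z ((0 : ℝ) : ℂ) := by
      rw [Complex.ofReal_zero]; exact hZ.continuousAt
    have h4 := (ContinuousAt.comp (g := Z) (f := fun s : ℝ => (s : ℂ)) h3
            Complex.continuous_ofReal.continuousAt).tendsto
    simp only [Function.comp, Complex.ofReal_zero, hZ0] at h4
    exact h4.mono_left nhdsWithin_le_nhds
  have hZNt : Tendsto (fun t : ℝ => Z t ^ N) (𝓝[>] 0) (𝓝 0) := by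
    have := hZt.pow N
    rwa [zero_pow hN.ne'] at this
  have e2 : ∀ᶠ t : ℝ in 𝓝[>] 0, ‖Z t ^ N‖ < r := by
    have := hZNt.norm
    rw [norm_zero] at this
    exact this.eventually (gt_mem_nhds h.r_pos)
  have e3 : ∀ᶠ t : ℝ in 𝓝[>] 0, Z t ^ N ∈ Sec δ r ∧ rt N (Z t ^ N) = Z t := by
    filter_upwards [e1, e2] with t ht1 ht2
    have h1 : N * |Complex.arg (Z t)| < δ := by
      have := ht1.2
      rw [lt_div_iff₀ hNr] at this
      linarith
    obtain ⟨h2, h3⟩ := rt_of_pow hN ht1.1 (h1.trans (by linarith))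
    refine ⟨⟨norm_pos_iff.2 (pow_ne_zero _ ht1.1), ht2, ?_⟩, h3⟩
    rw [h2, abs_mul, abs_of_pos hNr]
    exact h1
  obtain ⟨ε, hε, γ', hγ, hγc⟩ := curve_smooth hZ N
  set D : ι → ℝ → ℝ := fun l t => (γ' t * ff N p l (Z t ^ N)).re with hD
  obtain ⟨τ₁, hτ₁, h3⟩ := (mem_nhdsGT_iff_exists_Ioo_subset).1 e3
  have hτ₁0 : (0 : ℝ) < τ₁ := hτ₁
  -- derivatives of the potentials along the curve
  set τ₂ := min τ₁ ε with hτ₂
  have hτ₂0 : 0 < τ₂ := lt_min hτ₁0 hε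
  have hin : ∀ t ∈ Ioo 0 τ₂, Z t ^ N ∈ Sec δ r ∧ rt N (Z t ^ N) = Z t := fun t ht =>
    h3 ⟨ht.1, ht.2.trans_le (min_le_left _ _)⟩
  have hder : ∀ t ∈ Ioo 0 τ₂, HasDerivAt (fun t : ℝ => Z t ^ N) (γ' t) t := fun t ht =>
    hγ t ⟨ht.1, ht.2.trans_le (min_le_right _ _)⟩
  have hγ'c : ContinuousOn γ' (Ioo 0 τ₂) := hγc.mono fun t ht =>
    ⟨ht.1, ht.2.trans_le (min_le_right _ _)⟩
  have hDc : ∀ l, ContinuousOn (D l) (Ioo 0 τ₂) := by
    intro l
    apply Complex.continuous_re.comp_continuousOn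
    apply hγ'c.mul
    exact (h.sys.hol l).continuousOn.comp (fun t ht => (hder t ht).continuousAt.continuousWithinAt)
      (fun t ht => (hin t ht).1)
  have hHd : ∀ l, ∀ t ∈ Ioo 0 τ₂, HasDerivAt (fun t : ℝ => hh N P l (Z t ^ N)) (D l t) t := by
    intro l t ht
    have := h.hh_deriv l (γ := fun t : ℝ => Z t ^ N) (s := univ) (hin t ht).1
      (hder t ht).hasDerivWithinAt
    rw [hasDerivWithinAt_univ] at this
    exact this
  have hHe : ∀ l, ∀ t ∈ Ioo 0 τ₂, hh N P l (Z t ^ N) = (P l (Z t)).re := by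
    intro l t ht
    rw [hh, (hin t ht).2]
  -- dichotomy
  have hdich : ∀ l l', (∀ᶠ t in 𝓝[>] 0, D l t = D l' t) ∨ (∀ᶠ t in 𝓝[>] 0, D l t ≠ D l' t) := by
    intro l l'
    set K : ℝ → ℝ := fun t => (P l (Z t) - P l' (Z t)).re with hK
    have hKa : AnalyticAt ℝ K 0 := by
      have h4 : AnalyticAt ℂ (fun w => P l (Z w) - P l' (Z w)) 0 := by
        apply AnalyticAt.sub
        · exact AnalyticAt.comp' (by rw [hZ0]; exact h.anP l) hZ
        · exact AnalyticAt.comp' (by rw [hZ0]; exact h.anP l') hZ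
      have h5 : AnalyticAt ℝ (fun w => P l (Z w) - P l' (Z w)) ((0 : ℝ) : ℂ) := by
        rw [Complex.ofReal_zero]; exact h4.restrictScalars
      have h6 : AnalyticAt ℝ (fun t : ℝ => (t : ℂ)) 0 := Complex.ofRealCLM.analyticAt 0
      have h7 : AnalyticAt ℝ (fun t : ℝ => P l (Z t) - P l' (Z t)) 0 :=
        AnalyticAt.comp' (f := fun t : ℝ => (t : ℂ)) h5 h6
      exact AnalyticAt.comp' (Complex.reCLM.analyticAt _) h7
    have hKd : ∀ t ∈ Ioo 0 τ₂, deriv K t = D l t - D l' t := by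
      intro t ht
      apply HasDerivAt.deriv
      apply ((hHd l t ht).sub (hHd l' t ht)).congr_of_eventuallyEq
      filter_upwards [Ioo_mem_nhds ht.1 ht.2] with s hs
      simp only [hK, Pi.sub_apply]
      rw [hHe l s hs, hHe l' s hs, Complex.sub_re]
    rcases hKa.deriv.eventually_eq_zero_or_eventually_ne_zero with h4 | h4
    · left
      filter_upwards [nhdsWithin_le_nhds h4, Ioo_mem_nhdsGT hτ₂0] with t ht1 ht2
      rw [hKd t ht2] at ht1
      linarith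
    · right
      have h5 : 𝓝[>] (0 : ℝ) ≤ 𝓝[≠] 0 := nhdsWithin_mono _ fun t ht => ne_of_gt ht
      filter_upwards [h5 h4, Ioo_mem_nhdsGT hτ₂0] with t ht1 ht2
      rw [hKd t ht2] at ht1
      intro heq
      apply ht1
      linarith
  have hdich2 : ∀ᶠ τ in 𝓝[>] (0 : ℝ), ∀ l l', (∀ t ∈ Ioo 0 τ, D l t = D l' t) ∨
      (∀ t ∈ Ioo 0 τ, D l t ≠ D l' t) := by
    rw [Filter.eventually_all]
    intro l
    rw [Filter.eventually_all]
    intro l'
    rcases hdich l l' with h4 | h4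
    · obtain ⟨τ, hτ, h5⟩ := (mem_nhdsGT_iff_exists_Ioo_subset).1 h4
      filter_upwards [Ioo_mem_nhdsGT hτ] with s hs
      exact Or.inl fun t ht => h5 ⟨ht.1, ht.2.trans hs.2⟩
    · obtain ⟨τ, hτ, h5⟩ := (mem_nhdsGT_iff_exists_Ioo_subset).1 h4
      filter_upwards [Ioo_mem_nhdsGT hτ] with s hs
      exact Or.inr fun t ht => h5 ⟨ht.1, ht.2.trans hs.2⟩
  obtain ⟨τ, hτd, hτI⟩ := (hdich2.and (Ioo_mem_nhdsGT hτ₂0)).exists
  have hτ0 : 0 < τ := hτI.1
  have hsub : ∀ t ∈ Ioo 0 τ, t ∈ Ioo 0 τ₂ := fun t ht => ⟨ht.1, ht.2.trans hτI.2⟩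
  have hsgn : ∀ l l', ∀ t ∈ Ioo 0 τ, D l t < D l' t → ∀ t' ∈ Ioo 0 τ, D l t' < D l' t' := by
    intro l l' t ht hlt t' ht'
    by_contra hcon
    rw [not_lt] at hcon
    obtain ⟨x, hx, hxe⟩ := isPreconnected_Ioo.intermediate_value₂ ht ht'
      ((hDc l).mono hsub) ((hDc l').mono hsub) hlt.le hcon
    rcases hτd l l' with h4 | h4
    · exact hlt.ne (h4 t ht)
    · exact h4 x hx hxe
  -- monotonicity
  set c := τ / 2 with hc
  have hcI : c ∈ Ioo 0 τ := ⟨by positivity, by rw [hc]; linarith⟩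
  have hmono : ∀ a ∈ Ioo 0 τ, ∀ b ∈ Ioo 0 τ, a < b → ∀ k ∈ Act μ (Sec δ r) (ff N p) (Z a ^ N),
      ∀ l ∈ Act μ (Sec δ r) (ff N p) (Z b ^ N), D k c ≤ D l c := by
    intro a ha b hb hab k hk l hl
    have hI : ∀ t ∈ Icc a b, t ∈ Ioo 0 τ := fun t ht => ⟨ha.1.trans_le ht.1, ht.2.trans_lt hb.2⟩
    have h4 := coneThm ι μ (Sec δ r) (ff N p) h.sys {i | D k c ≤ D i c} a b
      (fun t : ℝ => Z t ^ N) γ' hab (fun t ht => (hin t (hsub t (hI t ht))).1)
      (fun t ht => (hder t (hsub t (hI t ht))).hasDerivWithinAt) (by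
        intro t ht i hi j hj
        have hi' : D k c ≤ D i c := hi
        have hj' : ¬ D k c ≤ D j c := hj
        rw [not_le] at hj'
        have h5 := hsgn j i c hcI (hj'.trans_le hi') t (hI t ht)
        rw [mul_sub, Complex.sub_re]
        exact sub_pos.2 h5) ⟨k, le_refl (D k c), hk⟩
    exact h4 hl
  -- the first class
  set X : Set ι := {l | ∃ t ∈ Ioo 0 τ, l ∈ Act μ (Sec δ r) (ff N p) (Z t ^ N)} with hX
  have hXne : X.Nonempty := by
    obtain ⟨l, hl⟩ := h.sys.act_nonempty (hin c (hsub c hcI)).1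
    exact ⟨l, c, hcI, hl⟩
  obtain ⟨l₀, ⟨t₁, ht₁, hl₀⟩, hmin⟩ := Set.exists_min_image X (fun l => D l c) (Set.toFinite X) hXne
  have hclass : ∀ t ∈ Ioo 0 t₁, ∀ l ∈ Act μ (Sec δ r) (ff N p) (Z t ^ N), D l c = D l₀ c := by
    intro t ht l hl
    have htτ : t ∈ Ioo 0 τ := ⟨ht.1, ht.2.trans ht₁.2⟩
    apply le_antisymm
    · exact hmono t htτ t₁ ht₁ ht.2 l hl l₀ hl₀
    · exact hmin l ⟨t, htτ, hl⟩
  have hDeq : ∀ l l', D l c = D l' c → ∀ t ∈ Ioo 0 τ, D l t = D l' t := by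
    intro l l' heq t ht
    rcases lt_trichotomy (D l t) (D l' t) with h4 | h4 | h4
    · exact absurd heq (hsgn l l' t ht h4 c hcI).ne
    · exact h4
    · exact absurd heq (hsgn l' l t ht h4 c hcI).ne'
  have hpot : ∀ l, D l c = D l₀ c → ∀ t ∈ Ioo 0 t₁, v (Z t ^ N) = hh N P l (Z t ^ N) := by
    intro l hl t ht
    have h4 : ∀ s ∈ Ioo 0 t, v (Z t ^ N) - v (Z s ^ N) =
        hh N P l (Z t ^ N) - hh N P l (Z s ^ N) := by
      intro s hs
      have hI : ∀ w ∈ Icc s t, w ∈ Ioo 0 t₁ := fun w hw =>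
        ⟨hs.1.trans_le hw.1, hw.2.trans_lt ht.2⟩
      have hI2 : ∀ w ∈ Icc s t, w ∈ Ioo 0 τ₂ := fun w hw =>
        hsub w ⟨(hI w hw).1, (hI w hw).2.trans ht₁.2⟩
      have hI3 : ∀ w ∈ Ioo s t, ∀ l' ∈ Act μ (Sec δ r) (ff N p) (Z w ^ N), D l' w = D l w := by
        intro w hw l' hl'
        have hw' := Ioo_subset_Icc_self hw
        apply hDeq
        · rw [hl]
          exact hclass w (hI w hw') l' hl'
        · exact ⟨(hI w hw').1, (hI w hw').2.trans ht₁.2⟩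
      apply le_antisymm
      · exact h.pot_le l (γ := fun t : ℝ => Z t ^ N) hs.2.le (fun w hw => (hin w (hI2 w hw)).1)
          (fun w hw => (hder w (hI2 w hw)).hasDerivWithinAt) (hγ'c.mono hI2)
          (fun w hw l' hl' => (hI3 w hw l' hl').le)
      · exact h.pot_ge l (γ := fun t : ℝ => Z t ^ N) hs.2.le (fun w hw => (hin w (hI2 w hw)).1)
          (fun w hw => (hder w (hI2 w hw)).hasDerivWithinAt) (hγ'c.mono hI2)
          (fun w hw l' hl' => (hI3 w hw l' hl').ge)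
    have h5 : Tendsto (fun s : ℝ => v (Z s ^ N)) (𝓝[>] 0) (𝓝 0) := by
      apply h.v_zero.comp
      apply tendsto_nhdsWithin_of_tendsto_nhds_of_eventually_within _ hZNt
      filter_upwards [e3] with s hs using hs.1
    have h6 : Tendsto (fun s : ℝ => hh N P l (Z s ^ N)) (𝓝[>] 0) (𝓝 0) := by
      have h7 : Tendsto (fun s : ℝ => (P l (Z s)).re) (𝓝[>] 0) (𝓝 0) := by
        have h8 : Tendsto (fun s : ℝ => P l (Z s)) (𝓝[>] 0) (𝓝 0) := by
          have := (h.anP l).continuousAt.tendsto.comp hZt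
          rwa [h.P0] at this
        have := (Complex.continuous_re.tendsto _).comp h8
        rwa [Complex.zero_re] at this
      apply h7.congr'
      filter_upwards [e3] with s hs
      rw [hh, hs.2]
    have h7 : Tendsto (fun s : ℝ => v (Z t ^ N) - v (Z s ^ N)) (𝓝[>] 0)
        (𝓝 (v (Z t ^ N) - 0)) := tendsto_const_nhds.sub h5
    have h8 : Tendsto (fun s : ℝ => hh N P l (Z t ^ N) - hh N P l (Z s ^ N)) (𝓝[>] 0)
        (𝓝 (hh N P l (Z t ^ N) - 0)) := tendsto_const_nhds.sub h6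
    have h9 := tendsto_nhds_unique (h7.congr' (by
      filter_upwards [Ioo_mem_nhdsGT ht.1] with s hs using h4 s hs)) h8
    simpa using h9
  refine ⟨t₁, ht₁.1, fun t ht => hin t (hsub t ⟨ht.1, ht.2.trans ht₁.2⟩),
    fun t ht l hl => hpot l (hclass t ht l hl) t ht, ?_⟩
  intro t t' s ht ht' hs l hl l' hl'
  rw [← hpot l (hclass t ht l hl) s hs, ← hpot l' (hclass t' ht' l' hl') s hs]

end Pool.Agent.J6H15.AC
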