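import Mathlib
import Pool.Agent.J6H15.AC.GD3

/-!
# The local theorem in the good case: assembly
-/

set_option autoImplicit false

open MeasureTheory Polynomial Metric Set Filter Topology Complex
open Pool.Agent.H586R3.CT (CT)

namespace Pool.Agent.J6H15.AC

variable {ι : Type} [Finite ι] {μ : Measure ℂ} [IsFiniteMeasure μ] {N : ℕ} {p P : ι → ℂ → ℂ}
  {δ r : ℝ} {v : ℂ → ℝ} {u : ℂ} {ρ : ι → ℝ}

/-- the potential of every active index is `v` -/
def VV {ι : Type} (μ : Measure ℂ) (N : ℕ) (p P : ι → ℂ → ℂ) (δ r : ℝ) (v : ℂ → ℝ) (z : ℂ) : Prop :=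
  ∀ l ∈ Act μ (Sec δ r) (ff N p) z, v z = hh N P l z

lemma GD.ray (h6 : CurveClass) (h : GD ι μ N p P δ r v u ρ) {θ : ℝ} (hθ : |θ| < δ) :
    ∃ τ > 0, ∀ z : ℂ, z ≠ 0 → Complex.arg z = θ → ‖z‖ < τ → VV μ N p P δ r v z := by
  have hN := h.N_pos
  have hN' : (N : ℂ) ≠ 0 := by exact_mod_cast hN.ne'
  have hNr : (0 : ℝ) < N := by exact_mod_cast hN
  set c : ℂ := Complex.exp (((θ / N : ℝ) : ℂ) * I) with hc
  have hd : HasDerivAt (fun w : ℂ => w * c) c 0 := by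
    simpa using (hasDerivAt_id (0 : ℂ)).mul_const c
  have hc0 : c ≠ 0 := Complex.exp_ne_zero _
  have hN1 : (1 : ℝ) ≤ N := by exact_mod_cast hN
  have hθN : |θ / N| ≤ |θ| := by
    rw [abs_div, abs_of_pos hNr]
    exact div_le_self (abs_nonneg _) hN1
  have hargc : Complex.arg c = θ / N := by
    have hpi := Real.pi_gt_three
    have hδ := h.δ_lt
    have h1 := abs_lt.1 (hθN.trans_lt (hθ.trans hδ))
    have h2 : Complex.log c = ((θ / N : ℝ) : ℂ) * I := by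
      rw [hc]
      apply Complex.log_exp <;> simp only [Complex.mul_I_im, Complex.ofReal_re] <;> linarith
    rw [← Complex.log_im, h2]
    simp only [Complex.mul_I_im, Complex.ofReal_re]
  obtain ⟨t₁, ht₁, h1, h2, _⟩ := h6 ι μ N p P δ r v u ρ h (fun w : ℂ => w * c)
    (by fun_prop) (by simp) (by rw [hd.deriv]; exact hc0) (by
      rw [hd.deriv, hargc, abs_div, abs_of_pos hNr]
      rw [mul_div_cancel₀ _ hNr.ne']
      exact hθ)
  refine ⟨t₁ ^ N, by positivity, fun z hz harg hzt l hl => ?_⟩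
  set t := ‖rt N z‖ with ht
  have ht0 : 0 < t := norm_pos_iff.2 (rt_ne_zero N z)
  have htt : t < t₁ := norm_rt_lt hN hz ht₁ hzt
  have hcN : c ^ N = Complex.exp ((θ : ℂ) * I) := by
    rw [hc, ← Complex.exp_nat_mul]
    congr 1
    push_cast
    field_simp
  have hzeq : ((t : ℂ) * c) ^ N = z := by
    rw [mul_pow, hcN, ← harg]
    have : ((t : ℂ)) ^ N = ((‖z‖ : ℝ) : ℂ) := by
      rw [← norm_rt_pow hN hz, ← ht]
      push_cast
      rfl
    rw [this]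
    exact Complex.norm_mul_exp_arg_mul_I z
  have h3 := h2 t ⟨ht0, htt⟩ l
  rw [hzeq] at h3
  exact h3 hl

lemma GD.curve_T (h6 : CurveClass) (h : GD ι μ N p P δ r v u ρ) {Z : ℂ → ℂ}
    (hZ : AnalyticAt ℂ Z 0) (hZ0 : Z 0 = 0) (hZ1 : deriv Z 0 ≠ 0) : ∃ T > 0,
    (N * |Complex.arg (deriv Z 0)| < δ →
      (∀ t : ℝ, t ∈ Ioo 0 T → VV μ N p P δ r v (Z t ^ N)) ∧
      ((∀ t : ℝ, t ∈ Ioo 0 T → Z t ^ N ∈ μ.support) ∨
        (∀ t : ℝ, t ∈ Ioo 0 T → Z t ^ N ∉ μ.support))) ∧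
    (¬ N * |Complex.arg (deriv Z 0)| < δ →
      ∀ t : ℝ, t ∈ Ioo 0 T → δ / 2 < N * |Complex.arg (Z t)|) ∧
    (∀ t : ℝ, t ∈ Ioo 0 T → IsArc ((fun s : ℝ => Z s ^ N) '' Icc 0 t)) := by
  have hN := h.N_pos
  have hNr : (0 : ℝ) < N := by exact_mod_cast hN
  obtain ⟨t₀, ht₀, harc⟩ := Pool.Agent.J6H59.AC.p1a Z hZ hZ0 hZ1 N hN
  by_cases hin : N * |Complex.arg (deriv Z 0)| < δ
  · obtain ⟨t₁, ht₁, h1, h2, h3⟩ := h6 ι μ N p P δ r v u ρ h Z hZ hZ0 hZ1 hin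
    obtain ⟨ε, hε, γ', h4, h5⟩ := curve_smooth hZ N
    set T := min t₀ (min t₁ ε) with hT
    have hT0 : 0 < T := lt_min ht₀ (lt_min ht₁ hε)
    have hTt₀ : T ≤ t₀ := min_le_left _ _
    have hTt₁ : T ≤ t₁ := (min_le_right _ _).trans (min_le_left _ _)
    have hTε : T ≤ ε := (min_le_right _ _).trans (min_le_right _ _)
    have hI1 : ∀ t ∈ Ioo 0 T, t ∈ Ioo 0 t₁ := fun t ht => ⟨ht.1, ht.2.trans_le hTt₁⟩
    have hIε : ∀ t ∈ Ioo 0 T, t ∈ Ioo 0 ε := fun t ht => ⟨ht.1, ht.2.trans_le hTε⟩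
    refine ⟨T, hT0, fun _ => ⟨fun t ht => h2 t (hI1 t ht), ?_⟩, fun hh => absurd hin hh,
      fun t ht => harc t ht.1 (ht.2.trans_le hTt₀)⟩
    exact h.all_or_none (γ := fun t : ℝ => Z t ^ N) (γ' := γ') (fun t ht => (h1 t (hI1 t ht)).1)
      (fun t ht => h4 t (hIε t ht)) (h5.mono hIε) (fun t ht => h2 t (hI1 t ht))
      (fun t ht t' ht' s hs => h3 t t' s (hI1 t ht) (hI1 t' ht') (hI1 s hs))
  · have hα : δ / (2 * N) < |Complex.arg (deriv Z 0)| := by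
      rw [not_lt] at hin
      rw [div_lt_iff₀ (by positivity)]
      have := h.δ_pos
      nlinarith
    have h1 := arg_far hZ hZ0 hZ1 (by have := h.δ_pos; positivity) hα
    obtain ⟨ε, hε, h2⟩ := (mem_nhdsGT_iff_exists_Ioo_subset).1 h1
    set T := min t₀ ε with hT
    have hε' : 0 < ε := hε
    refine ⟨T, lt_min ht₀ hε', fun hh => absurd hh hin, fun _ t ht => ?_,
      fun t ht => harc t ht.1 (ht.2.trans_le (min_le_left _ _))⟩
    have h3 : δ / (2 * N) < |Complex.arg (Z t)| := h2 ⟨ht.1, ht.2.trans_le (min_le_right _ _)⟩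
    rw [div_lt_iff₀ (by positivity)] at h3
    linarith

theorem goodThm_of (h5 : ExistsGD) (h6 : CurveClass) : GoodThm := by
  intro ι _ μ _ N p δ₀ r₀ hdata hgood
  obtain ⟨P, δ, r, v, u, ρ, -, -, h⟩ := h5 ι μ N p δ₀ r₀ hdata hgood
  have hN := h.N_pos
  have hNr : (0 : ℝ) < N := by exact_mod_cast hN
  have hδ := h.δ_pos
  -- the crossing curves
  have hG : ∀ q : {q : ι × ι // q.1 ≠ q.2}, ∃ (m : ℕ) (Z : Fin m → ℂ → ℂ),
      (∀ k, AnalyticAt ℂ (Z k) 0 ∧ Z k 0 = 0 ∧ deriv (Z k) 0 ≠ 0) ∧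
      ∀ t₀ > 0, ∃ R > 0, ∀ ζ : ℂ, 0 < ‖ζ‖ → ‖ζ‖ < R → (P q.1.1 ζ - P q.1.2 ζ).re = 0 →
        ∃ (k : Fin m) (t : ℝ), 0 < t ∧ t < t₀ ∧ ζ = Z k t := by
    intro q
    obtain ⟨m, Z, h1, h2⟩ := Pool.Agent.J6H59.AC.p1b (fun ζ => P q.1.1 ζ - P q.1.2 ζ)
      ((h.anP _).sub (h.anP _)) (by simp [h.P0]) (by
        intro hcon
        apply h.neP _ _ q.2
        filter_upwards [hcon] with ζ hζ using sub_eq_zero.1 hζ)
    exact ⟨m, Z, fun k => ⟨(h1 k).1, (h1 k).2.1, (h1 k).2.2.1⟩, h2⟩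
  choose m Z hZ hcov using hG
  have hTk : ∀ k : (Σ q : {q : ι × ι // q.1 ≠ q.2}, Fin (m q)), ∃ T > 0,
      (N * |Complex.arg (deriv (Z k.1 k.2) 0)| < δ →
        (∀ t : ℝ, t ∈ Ioo 0 T → VV μ N p P δ r v (Z k.1 k.2 t ^ N)) ∧
        ((∀ t : ℝ, t ∈ Ioo 0 T → Z k.1 k.2 t ^ N ∈ μ.support) ∨
          (∀ t : ℝ, t ∈ Ioo 0 T → Z k.1 k.2 t ^ N ∉ μ.support))) ∧
      (¬ N * |Complex.arg (deriv (Z k.1 k.2) 0)| < δ →
        ∀ t : ℝ, t ∈ Ioo 0 T → δ / 2 < N * |Complex.arg (Z k.1 k.2 t)|) ∧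
      (∀ t : ℝ, t ∈ Ioo 0 T → IsArc ((fun s : ℝ => Z k.1 k.2 s ^ N) '' Icc 0 t)) := fun k =>
    h.curve_T h6 (hZ k.1 k.2).1 (hZ k.1 k.2).2.1 (hZ k.1 k.2).2.2
  choose T hT0 hTin hTout hTarc using hTk
  -- a common parameter
  obtain ⟨T₀, hT₀, hT₀lt⟩ : ∃ T₀ > 0, ∀ k, T₀ < T k := by
    have hfin : ({(1 : ℝ)} ∪ Set.range T).Finite :=
      (Set.finite_singleton _).union (Set.finite_range T)
    obtain ⟨s, hs, hmin⟩ := Set.exists_min_image _ id hfin ⟨1, Or.inl rfl⟩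
    have hs0 : 0 < s := by
      rcases hs with hs | ⟨i, rfl⟩
      · rw [mem_singleton_iff] at hs; rw [hs]; exact one_pos
      · exact hT0 i
    refine ⟨s / 2, by positivity, fun i => ?_⟩
    have : s ≤ T i := hmin (T i) (Or.inr ⟨i, rfl⟩)
    linarith
  obtain ⟨R, hR, hRcov⟩ : ∃ R > 0, ∀ q : {q : ι × ι // q.1 ≠ q.2}, ∀ ζ : ℂ, 0 < ‖ζ‖ → ‖ζ‖ < R →
      (P q.1.1 ζ - P q.1.2 ζ).re = 0 →
        ∃ (k : Fin (m q)) (t : ℝ), 0 < t ∧ t < T₀ ∧ ζ = Z q k t := by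
    choose R hR hRcov using fun q => hcov q T₀ hT₀
    have hfin : ({(1 : ℝ)} ∪ Set.range R).Finite :=
      (Set.finite_singleton _).union (Set.finite_range R)
    obtain ⟨s, hs, hmin⟩ := Set.exists_min_image _ id hfin ⟨1, Or.inl rfl⟩
    have hs0 : 0 < s := by
      rcases hs with hs | ⟨i, rfl⟩
      · rw [mem_singleton_iff] at hs; rw [hs]; exact one_pos
      · exact hR i
    refine ⟨s, hs0, fun q ζ h1 h2 h3 => hRcov q ζ h1 (h2.trans_le ?_) h3⟩
    exact hmin (R q) (Or.inr ⟨q, rfl⟩)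
  -- crossing points
  have hcross : ∀ z : ℂ, z ≠ 0 → ‖z‖ < R ^ N → |Complex.arg z| < δ / 2 →
      (∃ i j, i ≠ j ∧ hh N P i z = hh N P j z) →
      ∃ k : (Σ q : {q : ι × ι // q.1 ≠ q.2}, Fin (m q)),
        N * |Complex.arg (deriv (Z k.1 k.2) 0)| < δ ∧ ∃ t ∈ Ioo 0 T₀, z = Z k.1 k.2 t ^ N := by
    rintro z hz hzR hzarg ⟨i, j, hij, heq⟩
    obtain ⟨k, t, ht1, ht2, hζ⟩ := hRcov ⟨(i, j), hij⟩ (rt N z)
      (norm_pos_iff.2 (rt_ne_zero N z)) (norm_rt_lt hN hz hR hzR) (by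
        rw [Complex.sub_re]
        exact sub_eq_zero.2 heq)
    refine ⟨⟨⟨(i, j), hij⟩, k⟩, ?_, t, ⟨ht1, ht2⟩, ?_⟩
    · by_contra hcon
      have h1 := hTout ⟨⟨(i, j), hij⟩, k⟩ hcon t ⟨ht1, ht2.trans (hT₀lt _)⟩
      simp only at h1
      rw [← hζ, arg_rt hN, abs_div, abs_of_pos hNr, mul_div_cancel₀ _ hNr.ne'] at h1
      linarith
    · simp only
      rw [← hζ, rt_pow hN hz]
  -- rays
  obtain ⟨τp, hτp, hrayp⟩ := h.ray h6 (θ := δ / 4) (by rw [abs_of_pos (by positivity)]; linarith)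
  obtain ⟨τm, hτm, hraym⟩ := h.ray h6 (θ := -(δ / 4))
    (by rw [abs_neg, abs_of_pos (by positivity)]; linarith)
  -- the radius
  set Λ : ℝ := Real.exp (|u.re| * (δ / 2 / u.im)) with hΛ
  have hΛ0 : 0 < Λ := Real.exp_pos _
  set M := min (min (R ^ N) r) (min τp τm) with hM
  have hM0 : 0 < M := lt_min (lt_min (by positivity) h.r_pos) (lt_min hτp hτm)
  have hMR : M ≤ R ^ N := (min_le_left _ _).trans (min_le_left _ _)
  have hMr : M ≤ r := (min_le_left _ _).trans (min_le_right _ _)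
  have hMp : M ≤ τp := (min_le_right _ _).trans (min_le_left _ _)
  have hMm : M ≤ τm := (min_le_right _ _).trans (min_le_right _ _)
  set r' := M / Λ with hr'
  have hr'0 : 0 < r' := by positivity
  have hΛ1 : 1 ≤ Λ := by
    rw [hΛ]
    apply Real.one_le_exp
    have := h.u_im
    positivity
  have hr'M : r' ≤ M := div_le_self hM0.le hΛ1
  -- support points are crossing points
  have hmain : ∀ z ∈ Sec (δ / 4) r', z ∈ μ.support → ∃ i j, i ≠ j ∧ hh N P i z = hh N P j z := by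
    intro z hz hzs
    have hz0 : z ≠ 0 := sec_ne_zero hz
    obtain ⟨hz1, hz2, hz3⟩ := hz
    have huim := h.u_im
    rw [abs_lt] at hz3
    set a := (-(δ / 4) - Complex.arg z) / u.im with ha
    set b := (δ / 4 - Complex.arg z) / u.im with hb
    have ha0 : a < 0 := div_neg_of_neg_of_pos (by linarith) huim
    have hb0 : 0 < b := div_pos (by linarith) huim
    -- the points of the spiral
    have hsp : ∀ t ∈ Icc a b, sp z u t ≠ 0 ∧ Complex.arg (sp z u t) = Complex.arg z + t * u.im ∧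
        ‖sp z u t‖ < M ∧ |Complex.arg z + t * u.im| ≤ δ / 4 := by
      intro t ht
      have hne : sp z u t ≠ 0 := mul_ne_zero hz0 (Complex.exp_ne_zero _)
      have h1 : -(δ / 4) ≤ Complex.arg z + t * u.im := by
        have := ht.1
        rw [ha, div_le_iff₀ huim] at this
        linarith
      have h2 : Complex.arg z + t * u.im ≤ δ / 4 := by
        have := ht.2
        rw [hb, le_div_iff₀ huim] at this
        linarith
      have hlog : sp z u t = Complex.exp (Complex.log z + t * u) := by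
        rw [sp, Complex.exp_add, Complex.exp_log hz0]
      have him : (Complex.log z + t * u).im = Complex.arg z + t * u.im := by
        rw [Complex.add_im, Complex.log_im, Complex.im_ofReal_mul]
      have hpi := Real.pi_gt_three
      have hδ1 := h.δ_lt
      have hlog2 : Complex.log (sp z u t) = Complex.log z + t * u := by
        rw [hlog]
        apply Complex.log_exp
        · rw [him]; linarith
        · rw [him]; linarith
      refine ⟨hne, ?_, ?_, abs_le.2 ⟨h1, h2⟩⟩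
      · rw [← Complex.log_im, hlog2, him]
      · have habs : |t| ≤ δ / 2 / u.im := by
          rw [abs_le]
          constructor
          · rw [← neg_div, div_le_iff₀ huim]; linarith
          · rw [le_div_iff₀ huim]; linarith
        have h3 : ‖sp z u t‖ = ‖z‖ * Real.exp (t * u.re) := by
          rw [sp, norm_mul, Complex.norm_exp, Complex.re_ofReal_mul]
        rw [h3]
        have h4 : Real.exp (t * u.re) ≤ Λ := by
          rw [hΛ]
          apply Real.exp_le_exp.2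
          calc t * u.re ≤ |t * u.re| := le_abs_self _
            _ = |u.re| * |t| := by rw [abs_mul, mul_comm]
            _ ≤ |u.re| * (δ / 2 / u.im) := mul_le_mul_of_nonneg_left habs (abs_nonneg _)
        calc ‖z‖ * Real.exp (t * u.re) ≤ ‖z‖ * Λ := mul_le_mul_of_nonneg_left h4 (norm_nonneg _)
          _ < r' * Λ := mul_lt_mul_of_pos_right hz2 hΛ0
          _ = M := by rw [hr']; field_simp
    have hS : ∀ t ∈ Icc a b, sp z u t ∈ Sec δ r := by
      intro t ht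
      obtain ⟨h1, h2, h3, h4⟩ := hsp t ht
      refine ⟨norm_pos_iff.2 h1, h3.trans_le hMr, ?_⟩
      rw [h2]
      linarith
    have hab : a ≤ b := by linarith
    have hVa : VV μ N p P δ r v (sp z u a) := by
      obtain ⟨h1, h2, h3, h4⟩ := hsp a (left_mem_Icc.2 hab)
      apply hraym _ h1 _ (h3.trans_le hMm)
      rw [h2, ha]
      field_simp
      ring
    have hVb : VV μ N p P δ r v (sp z u b) := by
      obtain ⟨h1, h2, h3, h4⟩ := hsp b (right_mem_Icc.2 hab)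
      apply hrayp _ h1 _ (h3.trans_le hMp)
      rw [h2, hb]
      field_simp
      ring
    have hres := h.spiral_main hS hVa hVb (by
      intro t ht hij
      obtain ⟨h1, h2, h3, h4⟩ := hsp t (Ioo_subset_Icc_self ht)
      obtain ⟨k, hk, s, hs, hzs⟩ := hcross (sp z u t) h1 (h3.trans_le hMR)
        (by rw [h2]; linarith) hij
      have := (hTin k hk).1 s ⟨hs.1, hs.2.trans (hT₀lt k)⟩
      rw [← hzs] at this
      exact this) 0 ⟨ha0, hb0⟩
    rw [sp_zero] at hres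
    exact hres hzs
  -- the arcs
  set 𝒜 : Set (Set ℂ) := {S | ∃ k : (Σ q : {q : ι × ι // q.1 ≠ q.2}, Fin (m q)),
    (N * |Complex.arg (deriv (Z k.1 k.2) 0)| < δ ∧
      ∀ t : ℝ, t ∈ Ioo 0 (T k) → Z k.1 k.2 t ^ N ∈ μ.support) ∧
    S = (fun s : ℝ => Z k.1 k.2 s ^ N) '' Icc 0 T₀} with h𝒜
  refine ⟨δ / 4, by positivity, r', hr'0, 𝒜, ?_, ?_, ?_⟩
  · apply (Set.finite_range (fun k : (Σ q : {q : ι × ι // q.1 ≠ q.2}, Fin (m q)) =>
      (fun s : ℝ => Z k.1 k.2 s ^ N) '' Icc 0 T₀)).subset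
    rintro S ⟨k, _, rfl⟩
    exact ⟨k, rfl⟩
  · rintro S ⟨k, ⟨hk1, hk2⟩, rfl⟩
    have hγ0 : (fun s : ℝ => Z k.1 k.2 s ^ N) 0 = 0 := by
      simp only [Complex.ofReal_zero]
      rw [(hZ k.1 k.2).2.1, zero_pow hN.ne']
    refine ⟨hTarc k T₀ ⟨hT₀, hT₀lt k⟩, ⟨0, left_mem_Icc.2 hT₀.le, hγ0⟩, ?_⟩
    rintro _ ⟨s, hs, rfl⟩
    rcases eq_or_lt_of_le hs.1 with h1 | h1
    · rw [← h1, hγ0]
      have hc : Tendsto (fun s : ℝ => Z k.1 k.2 s ^ N) (𝓝[>] 0) (𝓝 0) := by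
        have h2 : ContinuousAt (fun s : ℝ => Z k.1 k.2 s ^ N) 0 := by
          have h3 : ContinuousAt (Z k.1 k.2) ((0 : ℝ) : ℂ) := by
            rw [Complex.ofReal_zero]
            exact (hZ k.1 k.2).1.continuousAt
          exact (ContinuousAt.comp (g := Z k.1 k.2) (f := fun s : ℝ => (s : ℂ)) h3
            Complex.continuous_ofReal.continuousAt).pow N
        have h4 := h2.tendsto
        rw [show Z k.1 k.2 ((0 : ℝ) : ℂ) ^ N = 0 from hγ0] at h4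
        exact h4.mono_left nhdsWithin_le_nhds
      apply Measure.isClosed_support.mem_of_tendsto hc
      have : Ioo 0 (T k) ∈ 𝓝[>] (0 : ℝ) := Ioo_mem_nhdsGT (hT0 k)
      filter_upwards [this] with s hs using hk2 s hs
    · exact hk2 s ⟨h1, hs.2.trans_lt (hT₀lt k)⟩
  · rintro z ⟨hzs, hz⟩
    obtain ⟨k, hk, t, ht, hzt⟩ := hcross z (sec_ne_zero hz)
      ((hz.2.1.trans_le hr'M).trans_le hMR) (by have := hz.2.2; linarith) (hmain z hz hzs)
    refine ⟨_, ⟨k, ⟨hk, ?_⟩, rfl⟩, ⟨t, ⟨ht.1.le, ht.2.le⟩, hzt.symm⟩⟩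
    rcases (hTin k hk).2 with h1 | h1
    · exact h1
    · exfalso
      apply h1 t ⟨ht.1, ht.2.trans (hT₀lt k)⟩
      rw [← hzt]
      exact hzs

end Pool.Agent.J6H15.AC
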